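import Pool.Agent.Helper553.Uni.Surf

set_option autoImplicit false

namespace Pool.Agent.Helper553.Uni

section Alg

variable {A : Type} [CommRing A]

theorem chartA_scalar (h2 : (2 : A) = 0) (mx my mz X Y Z P Q R g c : A)
    (e2 : g*Q^2+g*(Z*X)+c*my^2*Y^2 = 0)
    (e3 : g*R^2+g*(X*Y)+c*mz^2*Z^2 = 0)
    (e4 : g*(Q*R)+g*(X*P)+c*(my*mz)*(Y*Z) = 0)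
    (e7 : mx*X^2+my*(Y*R)+mz*(Z*Q) = 0)
    :
    g^2*X^2*(g*P^2+g*(Y*Z)+c*mx^2*X^2) = 0 ∧
    g^2*X^2*(g*Q^2+g*(Z*X)+c*my^2*Y^2) = 0 ∧
    g^2*X^2*(g*R^2+g*(X*Y)+c*mz^2*Z^2) = 0 ∧
    g^2*X^2*(g*(Q*R)+g*(X*P)+c*(my*mz)*(Y*Z)) = 0 ∧
    g^2*X^2*(g*(R*P)+g*(Y*Q)+c*(mz*mx)*(Z*X)) = 0 ∧
    g^2*X^2*(g*(P*Q)+g*(Z*R)+c*(mx*my)*(X*Y)) = 0 ∧
    g^2*X^2*(mx*X^2+my*(Y*R)+mz*(Z*Q)) = 0 ∧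
    g^2*X^2*(my*Y^2+mz*(Z*P)+mx*(X*R)) = 0 ∧
    g^2*X^2*(mz*Z^2+mx*(X*Q)+my*(Y*P)) = 0 ∧
    g^2*X^2*(my*mz*P^3+mx*mz*Q^3+mx*my*R^3+my*mz*(Y*Z)*P+mx*mz*(X*Z)*Q+mx*my*(X*Y)*R) = 0 := by
  have a1 : g*X^2*(g*P^2+g*(Y*Z)+c*mx^2*X^2) = 0 := by
    linear_combination ((g*R^2+g*(X*Y)+c*mz^2*Z^2)+g*X*Y)*e2 + (g*X*Z)*e3 + ((g*(Q*R)+g*(X*P)+c*(my*mz)*(Y*Z)))*e4 + (g*c*(mx*X^2+my*(Y*R)+mz*(Z*Q)))*e7 + ((-1)*mx*my*X^2*Y*R*g*c + (-1)*mx*mz*X^2*Z*Q*g*c + (-1)*my^2*mz^2*Y^2*Z^2*c^2 + (-1)*my^2*X*Y^3*g*c + (-1)*my^2*Y^2*R^2*g*c + (-1)*my*mz*X*Y*Z*P*g*c + (-2)*my*mz*Y*Z*Q*R*g*c + (-1)*mz^2*X*Z^3*g*c + (-1)*mz^2*Z^2*Q^2*g*c + (-1)*X^2*Y*Z*g^2 + (-1)*X*Y*Q^2*g^2 + (-1)*X*Z*R^2*g^2 + (-1)*X*P*Q*R*g^2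 + (-1)*Q^2*R^2*g^2)*h2
  have a5 : X*(g*(R*P)+g*(Y*Q)+c*(mz*mx)*(Z*X)) = 0 := by
    linear_combination (R)*e4 + (c*mz*Z)*e7 + (Q)*e3 + ((-1)*my*mz*Y*Z*R*c + (-1)*mz^2*Z^2*Q*c + (-1)*Q*R^2*g)*h2
  have a6 : X*(g*(P*Q)+g*(Z*R)+c*(mx*my)*(X*Y)) = 0 := by
    linear_combination (Q)*e4 + (R)*e2 + (c*my*Y)*e7 + ((-1)*my^2*Y^2*R*c + (-1)*my*mz*Y*Z*Q*c + (-1)*Q^2*R*g)*h2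
  have a8 : g*X*(my*Y^2+mz*(Z*P)+mx*(X*R)) = 0 := by
    linear_combination (g*R)*e7 + (mz*Z)*e4 + (my*Y)*e3 + ((-1)*my*mz^2*Y*Z^2*c + (-1)*my*Y*R^2*g + (-1)*mz*Z*Q*R*g)*h2
  have a9 : g*X*(mz*Z^2+mx*(X*Q)+my*(Y*P)) = 0 := by
    linear_combination (my*Y)*e4 + (g*Q)*e7 + (mz*Z)*e2 + ((-1)*my^2*mz*Y^2*Z*c + (-1)*my*Y*Q*R*g + (-1)*mz*Z*Q^2*g)*h2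
  have a10 : g*(my*mz*P^3+mx*mz*Q^3+mx*my*R^3+my*mz*(Y*Z)*P+mx*mz*(X*Z)*Q+mx*my*(X*Y)*R) =
      (my*mz*P)*(g*P^2+g*(Y*Z)+c*mx^2*X^2) + (mx*mz*Q)*(g*Q^2+g*(Z*X)+c*my^2*Y^2) + (mx*my*R)*(g*R^2+g*(X*Y)+c*mz^2*Z^2) + (c*mx*my*mz*P)*(mx*X^2+my*(Y*R)+mz*(Z*Q)) + (c*mx*my*mz*Q)*(my*Y^2+mz*(Z*P)+mx*(X*R)) + (c*mx*my*mz*R)*(mz*Z^2+mx*(X*Q)+my*(Y*P)) := by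
    linear_combination ((-1)*mx^2*my*mz*X^2*P*c + (-1)*mx^2*my*mz*X*Q*R*c + (-1)*mx*my^2*mz*Y^2*Q*c + (-1)*mx*my^2*mz*Y*P*R*c + (-1)*mx*my*mz^2*Z^2*R*c + (-1)*mx*my*mz^2*Z*P*Q*c)*h2
  refine ⟨?_, ?_, ?_, ?_, ?_, ?_, ?_, ?_, ?_, ?_⟩
  · linear_combination g*a1
  · rw [e2, mul_zero]
  · rw [e3, mul_zero]
  · rw [e4, mul_zero]
  · linear_combination g^2*X*a5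
  · linear_combination g^2*X*a6
  · rw [e7, mul_zero]
  · linear_combination g*X*a8
  · linear_combination g*X*a9
  · linear_combination g*X^2*a10 + my*mz*P*a1 + (mx*mz*Q)*g*X^2*e2 + (mx*my*R)*g*X^2*e3 + (c*mx*my*mz*P)*g*X^2*e7 + (c*mx*my*mz*Q)*X*a8 + (c*mx*my*mz*R)*X*a9

theorem chartB_scalar (h2 : (2 : A) = 0) (mx my mz X Y Z P Q R g c : A)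
    (e3 : g*R^2+g*(X*Y)+c*mz^2*Z^2 = 0)
    (e7 : mx*X^2+my*(Y*R)+mz*(Z*Q) = 0)
    (e8 : my*Y^2+mz*(Z*P)+mx*(X*R) = 0)
    (e10 : my*mz*P^3+mx*mz*Q^3+mx*my*R^3+my*mz*(Y*Z)*P+mx*mz*(X*Z)*Q+mx*my*(X*Y)*R = 0)
    :
    (mx*my*R^3+mx^2*X^3+my^2*Y^3+mx*my*X*Y*R)*R*(R^2+X*Y)*(g*P^2+g*(Y*Z)+c*mx^2*X^2) = 0 ∧
    (mx*my*R^3+mx^2*X^3+my^2*Y^3+mx*my*X*Y*R)*R*(R^2+X*Y)*(g*Q^2+g*(Z*X)+c*my^2*Y^2) = 0 ∧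
    (mx*my*R^3+mx^2*X^3+my^2*Y^3+mx*my*X*Y*R)*R*(R^2+X*Y)*(g*R^2+g*(X*Y)+c*mz^2*Z^2) = 0 ∧
    (mx*my*R^3+mx^2*X^3+my^2*Y^3+mx*my*X*Y*R)*R*(R^2+X*Y)*(g*(Q*R)+g*(X*P)+c*(my*mz)*(Y*Z)) = 0 ∧
    (mx*my*R^3+mx^2*X^3+my^2*Y^3+mx*my*X*Y*R)*R*(R^2+X*Y)*(g*(R*P)+g*(Y*Q)+c*(mz*mx)*(Z*X)) = 0 ∧
    (mx*my*R^3+mx^2*X^3+my^2*Y^3+mx*my*X*Y*R)*R*(R^2+X*Y)*(g*(P*Q)+g*(Z*R)+c*(mx*my)*(X*Y)) = 0 ∧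
    (mx*my*R^3+mx^2*X^3+my^2*Y^3+mx*my*X*Y*R)*R*(R^2+X*Y)*(mx*X^2+my*(Y*R)+mz*(Z*Q)) = 0 ∧
    (mx*my*R^3+mx^2*X^3+my^2*Y^3+mx*my*X*Y*R)*R*(R^2+X*Y)*(my*Y^2+mz*(Z*P)+mx*(X*R)) = 0 ∧
    (mx*my*R^3+mx^2*X^3+my^2*Y^3+mx*my*X*Y*R)*R*(R^2+X*Y)*(mz*Z^2+mx*(X*Q)+my*(Y*P)) = 0 ∧
    (mx*my*R^3+mx^2*X^3+my^2*Y^3+mx*my*X*Y*R)*R*(R^2+X*Y)*(my*mz*P^3+mx*mz*Q^3+mx*my*R^3+my*mz*(Y*Z)*P+mx*mz*(X*Z)*Q+mx*my*(X*Y)*R) = 0 := by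
  have s1 : R*(mx^2*X^3+my^2*Y^3)+mz*Z*(mx*X^2*P+my*Y^2*Q) = 0 := by
    linear_combination (R*mx*X+mz*Z*P)*e7 + (R*my*Y+mz*Z*Q)*e8 + ((-1)*mx*my*X*Y*R^2 + (-1)*mx*mz*X*Z*Q*R + (-1)*my*mz*Y*Z*P*R + (-1)*mz^2*Z^2*P*Q)*h2
  have s2 : my*mz*P^3+mx*mz*Q^3+(mx*my*R^3+mx^2*X^3+my^2*Y^3+mx*my*X*Y*R) = 0 := by
    linear_combination (1)*e10 + (mx*X)*e7 + (my*Y)*e8 + ((-1)*mx*my*X*Y*R + (-1)*mx*mz*X*Z*Q + (-1)*my*mz*Y*Z*P)*h2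
  have s3 : mx*my*R^2*(mx*X^2*P+my*Y^2*Q+mz*Z^2*R)+my^3*Y^4*P+mx^3*X^4*Q+mz*Z^2*(my*mz*P^3+mx*mz*Q^3)+mx*my*mz*Z^2*R^3 = 0 := by
    linear_combination (my*P*(my*Y^2+mz*(Z*P)+mx*(X*R)))*e8 + (mx*Q*(mx*X^2+my*(Y*R)+mz*(Z*Q)))*e7 + ((-1)*mx^2*my*X^2*Y*Q*R + (-1)*mx^2*mz*X^2*Z*Q^2 + (-1)*mx*my^2*X*Y^2*P*R + (-1)*mx*my*mz*X*Z*P^2*R + (-1)*mx*my*mz*Y*Z*Q^2*R + mx*my*mz*Z^2*R^3 + (-1)*my^2*mz*Y^2*Z*P^2)*h2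
  have s4 : R*(mx^3*X^4*Q+my^3*Y^4*P)+(mx*X^2*P+my*Y^2*Q)*((mx*my*R^3+mx^2*X^3+my^2*Y^3+mx*my*X*Y*R)+mx*my*R^3) = 0 := by
    linear_combination (mx^2*X^3*P)*e7 + (mx^2*X^3*Q)*e8 + (my*Y*P)*s1 + ((mx*X^2*P+my*Y^2*Q)*my*Y)*e8 + ((-1)*mx^2*my*X^3*Y*P*R + mx^2*my*X^2*P*R^3 + (-1)*mx^2*mz*X^3*Z*P*Q + mx*my^2*Y^2*Q*R^3 + (-1)*mx*my*mz*X^2*Y*Z*P^2 + (-1)*my^2*mz*Y^3*Z*P*Q)*h2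
  have dt : (mx*my*R^3+mx^2*X^3+my^2*Y^3+mx*my*X*Y*R)*(mx*X^2*P+my*Y^2*Q+mz*Z^2*R) = 0 := by
    linear_combination (R)*s3 + (1)*s4 + (R*mz*Z^2)*s2 + ((-1)*mx^3*X^4*Q*R + (-1)*mx^2*my*X^2*P*R^3 + (-1)*mx*my^2*Y^2*Q*R^3 + (-1)*mx*my*mz*Z^2*R^4 + (-1)*mx*mz^2*Z^2*Q^3*R + (-1)*my^3*Y^4*P*R + (-1)*my*mz^2*Z^2*P^3*R)*h2
  have b9 : R*(mz*Z^2+mx*(X*Q)+my*(Y*P))+(mx*X^2*P+my*Y^2*Q+mz*Z^2*R) = 0 := by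
    linear_combination (P)*e7 + (Q)*e8 + (mz*Z^2*R + (-1)*mz*Z*P*Q)*h2
  have b1 : R*(R^2+X*Y)*(g*P^2+g*(Y*Z)+c*mx^2*X^2)+c*mz*Y*Z*(mx*X^2*P+my*Y^2*Q+mz*Z^2*R) = 0 := by
    linear_combination (R*(P^2+Y*Z))*e3 + (c*R*(my*Y^2+mz*(Z*P)+mx*(X*R)))*e8 + (c*Y)*s1 + ((-1)*mx*my*X*Y^2*R^2*c + (-1)*mx*mz*X*Z*P*R^2*c + (-1)*my^2*Y^4*R*c + (-1)*my*mz*Y^2*Z*P*R*c + (-1)*mz^2*Z^2*P^2*R*c)*h2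
  have b2 : R*(R^2+X*Y)*(g*Q^2+g*(Z*X)+c*my^2*Y^2)+c*mz*X*Z*(mx*X^2*P+my*Y^2*Q+mz*Z^2*R) = 0 := by
    linear_combination (R*(Q^2+X*Z))*e3 + (c*R*(mx*X^2+my*(Y*R)+mz*(Z*Q)))*e7 + (c*X)*s1 + ((-1)*mx^2*X^4*R*c + (-1)*mx*my*X^2*Y*R^2*c + (-1)*mx*mz*X^2*Z*Q*R*c + (-1)*my*mz*Y*Z*Q*R^2*c + (-1)*mz^2*Z^2*Q^2*R*c)*h2
  have b4 : (R^2+X*Y)*(g*(Q*R)+g*(X*P)+c*(my*mz)*(Y*Z)) = 0 := by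
    linear_combination (Q*R+X*P)*e3 + (c*mz*Z*R)*e7 + (c*mz*Z*X)*e8 + ((-1)*mx*mz*X^2*Z*R*c + (-1)*mz^2*X*Z^2*P*c + (-1)*mz^2*Z^2*Q*R*c)*h2
  have b5 : (R^2+X*Y)*(g*(R*P)+g*(Y*Q)+c*(mz*mx)*(Z*X)) = 0 := by
    linear_combination (R*P+Y*Q)*e3 + (c*mz*Z*R)*e8 + (c*mz*Z*Y)*e7 + ((-1)*my*mz*Y^2*Z*R*c + (-1)*mz^2*Y*Z^2*Q*c + (-1)*mz^2*Z^2*P*R*c)*h2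
  have b6 : (R^2+X*Y)*(g*(P*Q)+g*(Z*R)+c*(mx*my)*(X*Y))+c*mz*Z*(mx*X^2*P+my*Y^2*Q+mz*Z^2*R) = 0 := by
    linear_combination (P*Q+Z*R)*e3 + (c*mz*Z*P)*e7 + (c*(my*Y*R+mx*X^2))*e8 + (c)*s1 + ((-1)*mx^2*X^3*R*c + (-1)*mx*mz*X^2*Z*P*c + (-1)*my^2*Y^3*R*c + (-1)*my*mz*Y*Z*P*R*c + (-1)*mz^2*Z^2*P*Q*c)*h2
  refine ⟨?_, ?_, ?_, ?_, ?_, ?_, ?_, ?_, ?_, ?_⟩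
  · linear_combination (mx*my*R^3+mx^2*X^3+my^2*Y^3+mx*my*X*Y*R)*b1 - c*mz*Y*Z*dt
  · linear_combination (mx*my*R^3+mx^2*X^3+my^2*Y^3+mx*my*X*Y*R)*b2 - c*mz*X*Z*dt
  · rw [e3, mul_zero]
  · linear_combination (mx*my*R^3+mx^2*X^3+my^2*Y^3+mx*my*X*Y*R)*R*b4
  · linear_combination (mx*my*R^3+mx^2*X^3+my^2*Y^3+mx*my*X*Y*R)*R*b5
  · linear_combination (mx*my*R^3+mx^2*X^3+my^2*Y^3+mx*my*X*Y*R)*R*b6 - c*mz*Z*R*dt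
  · rw [e7, mul_zero]
  · rw [e8, mul_zero]
  · linear_combination (mx*my*R^3+mx^2*X^3+my^2*Y^3+mx*my*X*Y*R)*(R^2+X*Y)*b9 - (R^2+X*Y)*dt
  · rw [e10, mul_zero]

end Alg

end Pool.Agent.Helper553.Uni
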