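import Pool.Agent.Helper553.Uni.Alg

set_option autoImplicit false

open MvPolynomial

namespace Pool.Agent.Helper553.Uni

section Chart

variable {A : Type} [CommRing A]

theorem chartA (h2 : (2 : A) = 0) (β : Fin 4 → A) (v : Coord 1 5 → A) (i : Fin 3)
    (hA1 : eqn β v 0 (i + 1) = 0) (hA2 : eqn β v 0 (i + 2) = 0) (hB : eqn β v 1 i = 0)
    (hC : eqn β v 2 i = 0) (t : Fin 4) (j : Fin 3) :
    gam β v ^ 2 * xx v i ^ 2 * eqn β v t j = 0 := by
  fin_cases i
  · obtain ⟨k1, k2, k3, k4, k5, k6, k7, k8, k9, k10⟩ := chartA_scalar h2 (mm v 0) (mm v 1) (mm v 2)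
      (xx v 0) (xx v 1) (xx v 2) (pp v 0) (pp v 1) (pp v 2) (gam β v) (kap v) hA1 hA2 hB hC
    fin_cases t <;> fin_cases j
    · exact k1
    · exact k2
    · exact k3
    · exact k4
    · exact k5
    · exact k6
    · exact k7
    · exact k8
    · exact k9
    · exact k10
    · exact k10
    · exact k10
  · obtain ⟨k1, k2, k3, k4, k5, k6, k7, k8, k9, k10⟩ := chartA_scalar h2 (mm v 1) (mm v 2) (mm v 0)
      (xx v 1) (xx v 2) (xx v 0) (pp v 1) (pp v 2) (pp v 0) (gam β v) (kap v) hA1 hA2 hB hC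
    have k10' : gam β v ^ 2 * xx v 1 ^ 2 * ED (mm v) (xx v) (pp v) = 0 := by
      unfold ED; linear_combination k10
    fin_cases t <;> fin_cases j
    · exact k3
    · exact k1
    · exact k2
    · exact k6
    · exact k4
    · exact k5
    · exact k9
    · exact k7
    · exact k8
    · exact k10'
    · exact k10'
    · exact k10'
  · obtain ⟨k1, k2, k3, k4, k5, k6, k7, k8, k9, k10⟩ := chartA_scalar h2 (mm v 2) (mm v 0) (mm v 1)
      (xx v 2) (xx v 0) (xx v 1) (pp v 2) (pp v 0) (pp v 1) (gam β v) (kap v) hA1 hA2 hB hC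
    have k10' : gam β v ^ 2 * xx v 2 ^ 2 * ED (mm v) (xx v) (pp v) = 0 := by
      unfold ED; linear_combination k10
    fin_cases t <;> fin_cases j
    · exact k2
    · exact k3
    · exact k1
    · exact k5
    · exact k6
    · exact k4
    · exact k8
    · exact k9
    · exact k7
    · exact k10'
    · exact k10'
    · exact k10'

/-- The function whose nonvanishing defines the second chart at index `i`. -/
def dB (v : Coord 1 5 → A) (i : Fin 3) : A :=
  (mm v (i + 1) * mm v (i + 2) * pp v i ^ 3 + mm v (i + 1) ^ 2 * xx v (i + 1) ^ 3 +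
    mm v (i + 2) ^ 2 * xx v (i + 2) ^ 3 +
    mm v (i + 1) * mm v (i + 2) * xx v (i + 1) * xx v (i + 2) * pp v i) * pp v i *
      (pp v i ^ 2 + xx v (i + 1) * xx v (i + 2))

theorem chartB (h2 : (2 : A) = 0) (β : Fin 4 → A) (v : Coord 1 5 → A) (i : Fin 3)
    (hA : eqn β v 0 i = 0) (hC1 : eqn β v 2 (i + 1) = 0) (hC2 : eqn β v 2 (i + 2) = 0)
    (hD : eqn β v 3 0 = 0) (t : Fin 4) (j : Fin 3) :
    dB v i * eqn β v t j = 0 := by
  fin_cases i
  · obtain ⟨k1, k2, k3, k4, k5, k6, k7, k8, k9, k10⟩ := chartB_scalar h2 (mm v 1) (mm v 2) (mm v 0)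
      (xx v 1) (xx v 2) (xx v 0) (pp v 1) (pp v 2) (pp v 0) (gam β v) (kap v) hA hC1 hC2
      (by have h : ED (mm v) (xx v) (pp v) = 0 := hD
          unfold ED at h; linear_combination h)
    have k10' : dB v 0 * ED (mm v) (xx v) (pp v) = 0 := by
      have h : ED (mm v) (xx v) (pp v) = 0 := hD
      rw [h, mul_zero]
    fin_cases t <;> fin_cases j
    · exact k3
    · exact k1
    · exact k2
    · exact k6
    · exact k4
    · exact k5
    · exact k9
    · exact k7
    · exact k8
    · exact k10'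
    · exact k10'
    · exact k10'
  · obtain ⟨k1, k2, k3, k4, k5, k6, k7, k8, k9, k10⟩ := chartB_scalar h2 (mm v 2) (mm v 0) (mm v 1)
      (xx v 2) (xx v 0) (xx v 1) (pp v 2) (pp v 0) (pp v 1) (gam β v) (kap v) hA hC1 hC2
      (by have h : ED (mm v) (xx v) (pp v) = 0 := hD
          unfold ED at h; linear_combination h)
    have k10' : dB v 1 * ED (mm v) (xx v) (pp v) = 0 := by
      have h : ED (mm v) (xx v) (pp v) = 0 := hD
      rw [h, mul_zero]
    fin_cases t <;> fin_cases j
    · exact k2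
    · exact k3
    · exact k1
    · exact k5
    · exact k6
    · exact k4
    · exact k8
    · exact k9
    · exact k7
    · exact k10'
    · exact k10'
    · exact k10'
  · obtain ⟨k1, k2, k3, k4, k5, k6, k7, k8, k9, k10⟩ := chartB_scalar h2 (mm v 0) (mm v 1) (mm v 2)
      (xx v 0) (xx v 1) (xx v 2) (pp v 0) (pp v 1) (pp v 2) (gam β v) (kap v) hA hC1 hC2
      (by have h : ED (mm v) (xx v) (pp v) = 0 := hD
          unfold ED at h; linear_combination h)
    fin_cases t <;> fin_cases j
    · exact k1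
    · exact k2
    · exact k3
    · exact k4
    · exact k5
    · exact k6
    · exact k7
    · exact k8
    · exact k9
    · exact k10
    · exact k10
    · exact k10

end Chart

end Pool.Agent.Helper553.Uni
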