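import Pool.Agent.Helper553.Uni.Defs

set_option autoImplicit false

namespace Pool.Agent.Helper553.Uni


theorem cd_left {R K : Type} [CommRing R] [IsDomain R] [UniqueFactorizationMonoid R]
    [Field K] [Algebra R K] [IsFractionRing R K] (v : Fin 2 → K) (hl : ∃ i, v i ≠ 0) :
    ∃ (w : Fin 2 → R) (a : K), a ≠ 0 ∧ (∀ i, v i = a * algebraMap R K (w i)) ∧
      ∀ π : R, Prime π → ¬ (π ∣ w 0 ∧ π ∣ w 1) := by
  obtain ⟨b, hb⟩ := IsLocalization.exist_integer_multiples_of_finite (nonZeroDivisors R) v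
  choose x hx using hb
  have hb0 : (algebraMap R K (b : R)) ≠ 0 := by
    simpa using nonZeroDivisors.coe_ne_zero b
  have hx' : ∀ i, v i = (algebraMap R K (b : R))⁻¹ * algebraMap R K (x i) := by
    intro i
    rw [hx i, Algebra.smul_def, inv_mul_cancel_left₀ hb0]
  have key : ∀ i j : Fin 2, x i ≠ 0 → ∃ (p q : R) (a : K), a ≠ 0 ∧ v i = a * algebraMap R K p ∧
      v j = a * algebraMap R K q ∧ ∀ π : R, Prime π → ¬ (π ∣ p ∧ π ∣ q) := by
    intro i j hi
    obtain ⟨a', b', c', hrel, h1, h2⟩ := UniqueFactorizationMonoid.exists_reduced_factors (x i) hi (x j)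
    refine ⟨a', b', (algebraMap R K (b : R))⁻¹ * algebraMap R K c', ?_, ?_, ?_, ?_⟩
    · have hc : c' ≠ 0 := by
        rintro rfl
        exact hi (by rw [← h1, zero_mul])
      exact mul_ne_zero (inv_ne_zero hb0) (by simpa using hc)
    · rw [hx' i, ← h1, map_mul, mul_assoc]
    · rw [hx' j, ← h2, map_mul, mul_assoc]
    · rintro π hπ ⟨d1, d2⟩
      exact hπ.not_unit (hrel d1 d2)
  have hne : x 0 ≠ 0 ∨ x 1 ≠ 0 := by
    by_contra hcon
    push Not at hcon
    obtain ⟨i, hi⟩ := hl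
    apply hi
    rw [hx' i]
    fin_cases i
    · simp [hcon.1]
    · simp [hcon.2]
  rcases hne with h | h
  · obtain ⟨p, q, a, ha, h1, h2, h3⟩ := key 0 1 h
    refine ⟨![p, q], a, ha, ?_, ?_⟩
    · intro i; fin_cases i
      · simpa using h1
      · simpa using h2
    · intro π hπ; simpa using h3 π hπ
  · obtain ⟨p, q, a, ha, h1, h2, h3⟩ := key 1 0 h
    refine ⟨![q, p], a, ha, ?_, ?_⟩
    · intro i; fin_cases i
      · simpa using h2
      · simpa using h1
    · intro π hπ hh; exact h3 π hπ ⟨by simpa using hh.2, by simpa using hh.1⟩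

/-- Clearing denominators in both blocks of coordinates, with the left block coprime. -/
theorem clear_denoms {R K : Type} [CommRing R] [IsDomain R] [UniqueFactorizationMonoid R]
    [Field K] [Algebra R K] [IsFractionRing R K] (v : Coord 1 5 → K)
    (hl : ∃ i, v (Sum.inl i) ≠ 0) :
    ∃ (w : Coord 1 5 → R) (a e : K), a ≠ 0 ∧ e ≠ 0 ∧
      (∀ i, v (Sum.inl i) = a * algebraMap R K (w (Sum.inl i))) ∧
      (∀ j, v (Sum.inr j) = e * algebraMap R K (w (Sum.inr j))) ∧
      ∀ π : R, Prime π → ¬ (π ∣ w (Sum.inl 0) ∧ π ∣ w (Sum.inl 1)) := by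
  obtain ⟨w, a, ha, h1, h2⟩ := cd_left (R := R) (fun i : Fin 2 => v (Sum.inl i)) hl
  obtain ⟨b, hb⟩ := IsLocalization.exist_integer_multiples_of_finite (nonZeroDivisors R)
    (fun j : Fin 6 => v (Sum.inr j))
  choose x hx using hb
  have hb0 : (algebraMap R K (b : R)) ≠ 0 := by
    simpa using nonZeroDivisors.coe_ne_zero b
  refine ⟨Sum.elim w x, a, (algebraMap R K (b : R))⁻¹, ha, inv_ne_zero hb0, ?_, ?_, ?_⟩
  · intro i; simpa using h1 i
  · intro j
    have := hx j
    simp only [Sum.elim_inr]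
    rw [this, Algebra.smul_def, inv_mul_cancel_left₀ hb0]
  · intro π hπ; simpa using h2 π hπ

end Pool.Agent.Helper553.Uni
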