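import Mathlib

set_option autoImplicit false

open MvPolynomial

namespace Pool.Agent.Helper553.Uni

theorem coeff_core_sq {k : Type} [Field k] [CharP k 2] {σ : Type} (h : MvPolynomial σ k)
    (m : σ →₀ ℕ) : coeff (2 • m) (h ^ 2) = (coeff m h) ^ 2 := by
  classical
  induction h using MvPolynomial.induction_on' with
  | monomial u a =>
    rw [monomial_pow, coeff_monomial, coeff_monomial]
    by_cases hu : u = m
    · subst hu
      simp
    · have h2 : ¬ (2 • u = 2 • m) := by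
        intro h2
        apply hu
        ext i
        have := DFunLike.congr_fun h2 i
        simp only [Finsupp.smul_apply, smul_eq_mul] at this
        omega
      rw [if_neg hu, if_neg h2]
      simp
  | add p q hp hq =>
    rw [add_pow_char, coeff_add, coeff_add, hp, hq, add_pow_char]

theorem coeff_core_key {k : Type} [Field k] [CharP k 2] (z α α' a b c a' b' c' : k)
    (h1 : z * c ^ 2 = α * a ^ 2 + α' * b ^ 2) (h1' : z * c' ^ 2 = α * a' ^ 2 + α' * b' ^ 2) :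
    α * (a * b' + a' * b) ^ 2 = z * (c * b' + c' * b) ^ 2 ∧
    α' * (a * b' + a' * b) ^ 2 = z * (c * a' + c' * a) ^ 2 := by
  have h2 : (2 : k) = 0 := CharTwo.two_eq_zero
  constructor
  · rw [add_pow_char, add_pow_char]
    linear_combination (-(b' ^ 2)) * h1 - b ^ 2 * h1' - (α' * b ^ 2 * b' ^ 2) * h2
  · rw [add_pow_char, add_pow_char]
    linear_combination (-(a' ^ 2)) * h1 - a ^ 2 * h1' - (α * a ^ 2 * a' ^ 2) * h2

/-- Coefficient comparison: if `a₃ h₃²` and `a₄ h₄²` are two combinations of `h₁²`, `h₂²` with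
non-square cross-ratio of coefficients, then `h₁`, `h₂` are proportional. -/
theorem coeff_core {k : Type} [Field k] [CharP k 2] {σ : Type} (h₁ h₂ h₃ h₄ : MvPolynomial σ k)
    (a₃ a₄ α α' δ δ' : k) (ha₃ : a₃ ≠ 0) (ha₄ : a₄ ≠ 0)
    (hα' : α' ≠ 0) (hδ : δ ≠ 0) 
    (e3 : C a₃ * h₃ ^ 2 = C α * h₁ ^ 2 + C α' * h₂ ^ 2)
    (e4 : C a₄ * h₄ ^ 2 = C δ * h₁ ^ 2 + C δ' * h₂ ^ 2)
    (hns : ¬ IsSquare (α * δ' / (α' * δ))) :
    ∃ s t : k, ¬ (s = 0 ∧ t = 0) ∧ C s * h₁ + C t * h₂ = 0 := by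
  classical
  have h2 : (2 : k) = 0 := CharTwo.two_eq_zero
  have c3 : ∀ m, a₃ * (coeff m h₃) ^ 2 = α * (coeff m h₁) ^ 2 + α' * (coeff m h₂) ^ 2 := by
    intro m
    have h := congrArg (coeff (2 • m)) e3
    rwa [coeff_add, coeff_C_mul, coeff_C_mul, coeff_C_mul, coeff_core_sq, coeff_core_sq,
      coeff_core_sq] at h
  have c4 : ∀ m, a₄ * (coeff m h₄) ^ 2 = δ * (coeff m h₁) ^ 2 + δ' * (coeff m h₂) ^ 2 := by
    intro m
    have h := congrArg (coeff (2 • m)) e4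
    rwa [coeff_add, coeff_C_mul, coeff_C_mul, coeff_C_mul, coeff_core_sq, coeff_core_sq,
      coeff_core_sq] at h
  have key : ∀ m m', coeff m h₁ * coeff m' h₂ + coeff m' h₁ * coeff m h₂ = 0 := by
    intro m m'
    by_contra hW
    obtain ⟨p1, p2⟩ := coeff_core_key a₃ α α' _ _ _ _ _ _ (c3 m) (c3 m')
    obtain ⟨q1, q2⟩ := coeff_core_key a₄ δ δ' _ _ _ _ _ _ (c4 m) (c4 m')
    set W := coeff m h₁ * coeff m' h₂ + coeff m' h₁ * coeff m h₂ with hWdef
    set x1 := coeff m h₃ * coeff m' h₂ + coeff m' h₃ * coeff m h₂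
    set x2 := coeff m h₃ * coeff m' h₁ + coeff m' h₃ * coeff m h₁
    set y1 := coeff m h₄ * coeff m' h₂ + coeff m' h₄ * coeff m h₂
    set y2 := coeff m h₄ * coeff m' h₁ + coeff m' h₄ * coeff m h₁
    have r2 : α' * δ * W ^ 4 = a₃ * a₄ * (x2 * y1) ^ 2 := by
      calc α' * δ * W ^ 4 = (α' * W ^ 2) * (δ * W ^ 2) := by ring
        _ = _ := by rw [p2, q1]; ring
    have r1 : α * δ' * W ^ 4 = a₃ * a₄ * (x1 * y2) ^ 2 := by
      calc α * δ' * W ^ 4 = (α * W ^ 2) * (δ' * W ^ 2) := by ring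
        _ = _ := by rw [p1, q2]; ring
    have hne : α' * δ * W ^ 4 ≠ 0 := mul_ne_zero (mul_ne_zero hα' hδ) (pow_ne_zero _ hW)
    have hxy : x2 * y1 ≠ 0 := by
      intro h0
      rw [h0] at r2
      apply hne
      rw [r2]
      ring
    apply hns
    refine ⟨(x1 * y2) / (x2 * y1), ?_⟩
    have hWne : W ^ 4 ≠ 0 := pow_ne_zero _ hW
    have e : α * δ' / (α' * δ) = (α * δ' * W ^ 4) / (α' * δ * W ^ 4) := by
      rw [mul_div_mul_right _ _ hWne]
    rw [e, r1, r2]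
    have h34 : a₃ * a₄ ≠ 0 := mul_ne_zero ha₃ ha₄
    rw [mul_div_mul_left _ _ h34]
    rw [← div_pow]
    ring
  by_cases h10 : h₁ = 0
  · refine ⟨1, 0, fun h => one_ne_zero h.1, ?_⟩
    rw [h10]
    simp
  · obtain ⟨m0, hm0⟩ : ∃ m0, coeff m0 h₁ ≠ 0 := by
      by_contra hc
      push Not at hc
      exact h10 (MvPolynomial.ext _ _ fun m => by rw [hc m, coeff_zero])
    refine ⟨coeff m0 h₂, coeff m0 h₁, fun h => hm0 h.2, ?_⟩
    ext m
    rw [coeff_add, coeff_C_mul, coeff_C_mul, coeff_zero]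
    have := key m m0
    linear_combination this


end Pool.Agent.Helper553.Uni
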