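import Mathlib

set_option autoImplicit false

open MvPolynomial

namespace Pool.Agent.Helper553.Uni

/-! ## Closed subschemes of a product of two projective spaces -/

/-- Index set of the homogeneous coordinates of the product of a projective space of dimension
`m` (left summand) and one of dimension `n` (right summand). -/
abbrev Coord (m n : ℕ) := Fin (m + 1) ⊕ Fin (n + 1)

/-- The bidegree of a coordinate: `(1, 0)` for a left one, `(0, 1)` for a right one. -/
def bideg (m n : ℕ) : Coord m n → ℕ × ℕ := Sum.elim (fun _ => (1, 0)) (fun _ => (0, 1))

/-- Bihomogeneous polynomials (of some bidegree). -/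
def Bihomogeneous {k : Type} [Field k] {m n : ℕ} (f : MvPolynomial (Coord m n) k) : Prop :=
  ∃ d : ℕ × ℕ, IsWeightedHomogeneous (bideg m n) f d

/-- A closed subscheme `V` over the field `k` of the product of the projective spaces of
dimensions `m` and `n`: the zero scheme of a set of bihomogeneous polynomials over `k`. -/
structure BiProj (k : Type) [Field k] (m n : ℕ) where
  eqs : Set (MvPolynomial (Coord m n) k)
  bihom : ∀ f ∈ eqs, Bihomogeneous f

variable {k : Type} [Field k] {m n : ℕ}

/-- The coordinate vectors of the `K`-points of `V`, `K` a field extension of `k`: both blocks of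
coordinates are nonzero and all equations hold. -/
def BiProj.points (V : BiProj k m n) (K : Type) [Field K] [Algebra k K] :
    Set (Coord m n → K) :=
  {p | (∃ i, p (Sum.inl i) ≠ 0) ∧ (∃ j, p (Sum.inr j) ≠ 0) ∧ ∀ f ∈ V.eqs, aeval p f = 0}

/-- Two coordinate vectors represent the same point of the product of projective spaces. -/
def SamePoint {K : Type} [Field K] (p q : Coord m n → K) : Prop :=
  ∃ a b : K, a ≠ 0 ∧ b ≠ 0 ∧ (∀ i, q (Sum.inl i) = a * p (Sum.inl i)) ∧
    ∀ j, q (Sum.inr j) = b * p (Sum.inr j)

/-- `V` is smooth over `k` of dimension `d` (Jacobian criterion): near every geometric point its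
ideal is generated by `c = m + n - d` of its elements `F i` (on the open set where `g` does not
vanish), and at the point some `c × c` minor of the Jacobian matrix of `F` is nonzero. -/
def BiProj.SmoothOfDim (V : BiProj k m n) (d : ℕ) : Prop :=
  ∃ c : ℕ, c + d = m + n ∧ ∀ p ∈ V.points (AlgebraicClosure k),
    ∃ (F : Fin c → MvPolynomial (Coord m n) k) (g : MvPolynomial (Coord m n) k)
      (s : Fin c → Coord m n),
      (∀ i, F i ∈ Ideal.span V.eqs) ∧ aeval p g ≠ 0 ∧
      (∀ f ∈ V.eqs, g * f ∈ Ideal.span (Set.range F)) ∧
      (Matrix.of fun i j => aeval p (pderiv (s j) (F i))).det ≠ 0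

/-- `V` is geometrically irreducible: its set of geometric points is nonempty, and a product of
two polynomials over the algebraic closure vanishes on it only if one of the factors does. -/
def BiProj.GeomIrreducible (V : BiProj k m n) : Prop :=
  (V.points (AlgebraicClosure k)).Nonempty ∧
    ∀ f g : MvPolynomial (Coord m n) (AlgebraicClosure k),
      (∀ p ∈ V.points (AlgebraicClosure k), eval p f * eval p g = 0) →
        (∀ p ∈ V.points (AlgebraicClosure k), eval p f = 0) ∨
          ∀ p ∈ V.points (AlgebraicClosure k), eval p g = 0

/-- A morphism from the projective line over `K` to `V`: two blocks of binary forms, of the same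
degree in each block, whose values at every nonzero vector are coordinates of a point of `V`. -/
structure BiProj.LineMap (V : BiProj k m n) (K : Type) [Field K] [Algebra k K] where
  toFun : Coord m n → MvPolynomial (Fin 2) K
  deg₁ : ℕ
  deg₂ : ℕ
  hom₁ : ∀ i, (toFun (Sum.inl i)).IsHomogeneous deg₁
  hom₂ : ∀ j, (toFun (Sum.inr j)).IsHomogeneous deg₂
  mem : ∀ s : Fin 2 → K, s ≠ 0 → (fun c => eval s (toFun c)) ∈ V.points K

/-- The image of the morphism `φ` contains the point with coordinate vector `p`. -/
def BiProj.LineMap.Hits {V : BiProj k m n} {K : Type} [Field K] [Algebra k K]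
    (φ : V.LineMap K) (p : Coord m n → K) : Prop :=
  ∃ s : Fin 2 → K, s ≠ 0 ∧ SamePoint (fun c => eval s (φ.toFun c)) p

/-- `V` is rationally connected: two general geometric points of `V` lie on the image of a
morphism from the projective line over the algebraic closure. `General` means: outside the zero
set of a polynomial `H` in both points which does not vanish on all pairs of points of `V`. -/
def BiProj.RationallyConnected (V : BiProj k m n) : Prop :=
  ∃ H : MvPolynomial (Coord m n ⊕ Coord m n) (AlgebraicClosure k),
    (∃ p ∈ V.points (AlgebraicClosure k), ∃ q ∈ V.points (AlgebraicClosure k),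
      eval (Sum.elim p q) H ≠ 0) ∧
    ∀ p ∈ V.points (AlgebraicClosure k), ∀ q ∈ V.points (AlgebraicClosure k),
      eval (Sum.elim p q) H ≠ 0 →
        ∃ φ : V.LineMap (AlgebraicClosure k), φ.Hits p ∧ φ.Hits q

/-- `V` is `k`-unirational: for some `N` there is a dominant rational map over `k` from the
projective space of dimension `N` to `V`, that is, a point of `V` over the rational function
field in `N` variables at which no bihomogeneous polynomial over `k` vanishes except those which
vanish on all of `V`. -/
def BiProj.Unirational (V : BiProj k m n) : Prop :=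
  ∃ N : ℕ, ∃ p ∈ V.points (FractionRing (MvPolynomial (Fin N) k)),
    ∀ f : MvPolynomial (Coord m n) k, Bihomogeneous f → aeval p f = 0 →
      ∀ q ∈ V.points (AlgebraicClosure k), aeval q f = 0

end Pool.Agent.Helper553.Uni
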