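import Pool.Agent.Helper553.Uni.Ufd

set_option autoImplicit false

open MvPolynomial

namespace Pool.Agent.Helper553.Uni


theorem sqfree_part_aux1 {R : Type} [CommRing R] [IsDomain R] [UniqueFactorizationMonoid R]
    (a : R) : a ≠ 0 → ∃ c x : R, a = c * x ^ 2 ∧ Squarefree c := by
  refine UniqueFactorizationMonoid.induction_on_prime (P := fun a => a ≠ 0 →
    ∃ c x : R, a = c * x ^ 2 ∧ Squarefree c) a (fun h => absurd rfl h) ?_ ?_
  · intro u hu _
    exact ⟨u, 1, by ring, hu.squarefree⟩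
  · intro a p ha hp ih _
    obtain ⟨c, x, rfl, hc⟩ := ih ha
    by_cases hpc : p ∣ c
    · obtain ⟨d, rfl⟩ := hpc
      exact ⟨d, p * x, by ring, hc.of_mul_right⟩
    · refine ⟨p * c, x, by ring, ?_⟩
      rw [squarefree_mul_iff]
      exact ⟨(hp.irreducible.isRelPrime_iff_not_dvd).mpr hpc, hp.irreducible.squarefree, hc⟩

theorem sqfree_part_aux2 {R : Type} [CommRing R] [IsDomain R] [UniqueFactorizationMonoid R]
    (c : R) : Squarefree c → ∀ N : R, (∀ π : R, Prime π → π ∣ c → π ∣ N) → c ∣ N := by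
  refine UniqueFactorizationMonoid.induction_on_prime (P := fun c => Squarefree c → ∀ N : R,
    (∀ π : R, Prime π → π ∣ c → π ∣ N) → c ∣ N) c ?_ ?_ ?_
  · intro h
    exact absurd rfl h.ne_zero
  · intro u hu _ N _
    exact hu.dvd
  · intro c p hc hp ih hsq N hN
    obtain ⟨N', rfl⟩ := hN p hp (dvd_mul_right _ _)
    apply mul_dvd_mul_left
    rw [squarefree_mul_iff] at hsq
    obtain ⟨h1, -, h2⟩ := hsq
    refine ih h2 N' ?_
    intro q hq hqc
    rcases hq.dvd_or_dvd (hN q hq (hqc.mul_left p)) with h | h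
    · exfalso
      have h3 : p ∣ q := (hq.associated_of_dvd hp h).symm.dvd
      exact (hp.irreducible.isRelPrime_iff_not_dvd).mp h1 (h3.trans hqc)
    · exact h

/-- In a UFD, an element in which all primes not dividing `N` have even multiplicity is a divisor
of `N` times a unit times a square. -/
theorem sqfree_part {R : Type} [CommRing R] [IsDomain R] [UniqueFactorizationMonoid R] (N a : R)
    (hN : N ≠ 0) (ha : a ≠ 0)
    (h : ∀ π : R, Prime π → π ∣ a → ¬ π ∣ N → Even (multiplicity π a)) :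
    ∃ c x : R, c ∣ N ∧ a = c * x ^ 2 := by
  obtain ⟨c, x, hcx, hc⟩ := sqfree_part_aux1 a ha
  refine ⟨c, x, sqfree_part_aux2 c hc N ?_, hcx⟩
  intro π hπ hπc
  by_contra hπN
  have h1 := h π hπ (by rw [hcx]; exact hπc.mul_right _) hπN
  have hfin : FiniteMultiplicity π (c * x ^ 2) := by
    rw [← hcx]; exact FiniteMultiplicity.of_prime_left hπ ha
  have hx : x ^ 2 ≠ 0 := by
    intro h0; rw [h0, mul_zero] at hcx; exact ha hcx
  have hx' : x ≠ 0 := by
    intro h0; rw [h0] at hx; simp at hx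
  rw [hcx, multiplicity_mul hπ hfin] at h1
  have h2 : multiplicity π c = 1 := by
    apply multiplicity_eq_of_dvd_of_not_dvd
    · simpa using hπc
    · intro h3
      have h4 : π * π ∣ c := by
        rw [← sq]; exact h3
      exact hπ.not_unit (hc π h4)
  have h3 : multiplicity π (x ^ 2) = 2 * multiplicity π x := by
    have hf : FiniteMultiplicity π x := FiniteMultiplicity.of_prime_left hπ hx'
    rw [hf.multiplicity_pow hπ]
  rw [h2, h3, Nat.even_add, Nat.even_mul] at h1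
  simp at h1



/-- The bad element attached to the parameters `β`. -/
def bad {R : Type} [CommRing R] (β : Fin 4 → R) : R :=
  (∏ j, β j) * (∏ j, (β j + 1)) * ∏ i, ∏ j ∈ Finset.univ.filter (fun j => j ≠ i), (β i + β j)

/-- Primes not dividing `bad β` divide each linear form `b₁ + β_j b₀` to an even power. -/
theorem even_lin {R : Type} [CommRing R] [IsDomain R] [UniqueFactorizationMonoid R] [CharP R 2]
    (β : Fin 4 → R) (b₀ b₁ X Y Z P Q S : R)
    (hcop : ∀ π : R, Prime π → ¬ (π ∣ b₀ ∧ π ∣ b₁))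
    (hne : ¬ (X = 0 ∧ Y = 0 ∧ Z = 0)) (G : R)
    (hG : G = (b₁ + β 0 * b₀) * (b₁ + β 1 * b₀) * (b₁ + β 2 * b₀) * (b₁ + β 3 * b₀))
    (hG0 : G ≠ 0)
    (e1 : G * P ^ 2 + G * (Y * Z) + (b₀ ^ 2 * b₁ ^ 2) * X ^ 2 = 0)
    (e2 : G * Q ^ 2 + G * (Z * X) + (b₀ ^ 2 * (b₀ + b₁) ^ 2) * Y ^ 2 = 0)
    (e3 : G * S ^ 2 + G * (X * Y) + (b₀ ^ 2 * b₀ ^ 2) * Z ^ 2 = 0) (j : Fin 4)
    (π : R) (hπ : Prime π) (hd : π ∣ b₁ + β j * b₀) (hb : ¬ π ∣ bad β) :
    Even (multiplicity π (b₁ + β j * b₀)) := by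
  have htwo : (2 : R) = 0 := CharTwo.two_eq_zero
  have hβ : ∀ i, ¬ π ∣ β i := by
    intro i h
    apply hb
    unfold bad
    exact Dvd.dvd.mul_right (Dvd.dvd.mul_right
      (h.trans (Finset.dvd_prod_of_mem β (Finset.mem_univ i))) _) _
  have hβ1 : ∀ i, ¬ π ∣ (β i + 1) := by
    intro i h
    apply hb
    unfold bad
    exact Dvd.dvd.mul_right (Dvd.dvd.mul_left
      (h.trans (Finset.dvd_prod_of_mem (fun j => β j + 1) (Finset.mem_univ i))) _) _
  have hββ : ∀ i k, k ≠ i → ¬ π ∣ (β i + β k) := by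
    intro i k hk h
    apply hb
    unfold bad
    refine Dvd.dvd.mul_left ?_ _
    refine Dvd.dvd.trans ?_ (Finset.dvd_prod_of_mem
      (fun i => ∏ j ∈ Finset.univ.filter (fun j => j ≠ i), (β i + β j)) (Finset.mem_univ i))
    exact h.trans (Finset.dvd_prod_of_mem (fun j => β i + β j)
      (Finset.mem_filter.mpr ⟨Finset.mem_univ k, hk⟩))
  have hb0 : ¬ π ∣ b₀ := by
    intro h
    refine hcop π hπ ⟨h, ?_⟩
    have h1 : π ∣ (b₁ + β j * b₀) - β j * b₀ := dvd_sub hd (Dvd.dvd.mul_left h _)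
    simpa using h1
  have hb1 : ¬ π ∣ b₁ := by
    intro h
    have h1 : π ∣ (b₁ + β j * b₀) - b₁ := dvd_sub hd h
    have h2 : (b₁ + β j * b₀) - b₁ = β j * b₀ := by ring
    rw [h2] at h1
    rcases hπ.dvd_or_dvd h1 with h3 | h3
    · exact hβ j h3
    · exact hb0 h3
  have hb01 : ¬ π ∣ (b₀ + b₁) := by
    intro h
    have h1 : π ∣ (b₁ + β j * b₀) + (b₀ + b₁) := dvd_add hd h
    have h2 : (b₁ + β j * b₀) + (b₀ + b₁) = (β j + 1) * b₀ := by
      linear_combination b₁ * htwo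
    rw [h2] at h1
    rcases hπ.dvd_or_dvd h1 with h3 | h3
    · exact hβ1 j h3
    · exact hb0 h3
  have hli : ∀ i, i ≠ j → ¬ π ∣ (b₁ + β i * b₀) := by
    intro i hi h
    have h1 : π ∣ (b₁ + β j * b₀) + (b₁ + β i * b₀) := dvd_add hd h
    have h2 : (b₁ + β j * b₀) + (b₁ + β i * b₀) = (β j + β i) * b₀ := by
      linear_combination b₁ * htwo
    rw [h2] at h1
    rcases hπ.dvd_or_dvd h1 with h3 | h3
    · exact hββ j i hi h3
    · exact hb0 h3
  have hGprod : G = ∏ i, (b₁ + β i * b₀) := by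
    rw [hG, Fin.prod_univ_four]
  have hGsplit : G = (b₁ + β j * b₀) * ∏ i ∈ Finset.univ.erase j, (b₁ + β i * b₀) := by
    rw [hGprod, Finset.mul_prod_erase Finset.univ (fun i => b₁ + β i * b₀) (Finset.mem_univ j)]
  have hrest : ¬ π ∣ ∏ i ∈ Finset.univ.erase j, (b₁ + β i * b₀) := by
    intro h
    obtain ⟨i, hi, hdi⟩ := (hπ.dvd_finset_prod_iff _).mp h
    exact hli i (Finset.ne_of_mem_erase hi) hdi
  have hmul : multiplicity π G = multiplicity π (b₁ + β j * b₀) := by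
    have hfin : FiniteMultiplicity π G := FiniteMultiplicity.of_prime_left hπ hG0
    rw [hGsplit] at hfin ⊢
    rw [multiplicity_mul hπ hfin, multiplicity_eq_zero.mpr hrest, add_zero]
  rw [← hmul]
  have hπG : π ∣ G := by
    rw [hGsplit]
    exact Dvd.dvd.mul_right hd _
  have nd : ∀ x y : R, ¬ π ∣ x → ¬ π ∣ y → ¬ π ∣ (x ^ 2 * y ^ 2) := by
    intro x y hx hy h
    rcases hπ.dvd_or_dvd h with h1 | h1
    · exact hx (hπ.dvd_of_dvd_pow h1)
    · exact hy (hπ.dvd_of_dvd_pow h1)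
  exact even_mult hπ G (b₀ ^ 2 * b₁ ^ 2) (b₀ ^ 2 * (b₀ + b₁) ^ 2) (b₀ ^ 2 * b₀ ^ 2) X Y Z P Q S
    (nd _ _ hb0 hb1) (nd _ _ hb0 hb01) (nd _ _ hb0 hb0) hne hπG hG0 e1 e2 e3

end Pool.Agent.Helper553.Uni
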