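import Pool.Agent.Helper553.Uni.Fields
import Pool.Agent.Helper553.Uni.Evl

set_option autoImplicit false

open MvPolynomial

namespace Pool.Agent.Helper553.Uni

theorem uniq {k : Type} [Field k] [CharP k 2] (β : Fin 4 → k) (hβ : Function.Injective β)
    (hns : ¬ IsSquare ((β 2 + β 1) * (β 3 + β 0) / ((β 2 + β 0) * (β 3 + β 1))))
    (c h h' : Fin 4 → k) (hc : ∀ j, c j ≠ 0) (b₀ b₁ b₀' b₁' : k)
    (hl : ∀ j, b₁ + β j * b₀ = c j * h j ^ 2) (hl' : ∀ j, b₁' + β j * b₀' = c j * h' j ^ 2) :
    b₀ * b₁' = b₀' * b₁ := by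
  have h2 : (2 : k) = 0 := CharTwo.two_eq_zero
  have hadd : ∀ i j, i ≠ j → β i + β j ≠ 0 := by
    intro i j hij h0
    apply hij
    apply hβ
    linear_combination h0 - β j * h2
  have r2 : ∀ (x0 x1 : k) (y : Fin 4 → k) (_ : ∀ j, x1 + β j * x0 = c j * y j ^ 2),
      (c 2 * (β 0 + β 1)) * y 2 ^ 2 = ((β 2 + β 1) * c 0) * y 0 ^ 2 +
        ((β 2 + β 0) * c 1) * y 1 ^ 2 := by
    intro x0 x1 y hy
    linear_combination -(β 0 + β 1) * hy 2 + (β 2 + β 1) * hy 0 + (β 2 + β 0) * hy 1 -
      (β 2 * x1 + β 0 * β 1 * x0) * h2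
  have r3 : ∀ (x0 x1 : k) (y : Fin 4 → k) (_ : ∀ j, x1 + β j * x0 = c j * y j ^ 2),
      (c 3 * (β 0 + β 1)) * y 3 ^ 2 = ((β 3 + β 1) * c 0) * y 0 ^ 2 +
        ((β 3 + β 0) * c 1) * y 1 ^ 2 := by
    intro x0 x1 y hy
    linear_combination -(β 0 + β 1) * hy 3 + (β 3 + β 1) * hy 0 + (β 3 + β 0) * hy 1 -
      (β 3 * x1 + β 0 * β 1 * x0) * h2
  obtain ⟨k1, k2⟩ := coeff_core_key _ _ _ _ _ _ _ _ _ (r2 b₀ b₁ h hl) (r2 b₀' b₁' h' hl')
  obtain ⟨k3, k4⟩ := coeff_core_key _ _ _ _ _ _ _ _ _ (r3 b₀ b₁ h hl) (r3 b₀' b₁' h' hl')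
  by_cases hD : h 0 * h' 1 + h' 0 * h 1 = 0
  · have e0 := hl 0
    have e1 := hl 1
    have e0' := hl' 0
    have e1' := hl' 1
    have h5 : (β 0 + β 1) * (b₀ * b₁' + b₀' * b₁) = 0 := by
      have h6 : (b₁ + β 0 * b₀) * (b₁' + β 1 * b₀') + (b₁' + β 0 * b₀') * (b₁ + β 1 * b₀) =
          c 0 * c 1 * (h 0 * h' 1 + h' 0 * h 1) ^ 2 - c 0 * c 1 * (h 0 * h' 1 * h' 0 * h 1) * 2 := by
        rw [e0, e1, e0', e1']
        ring
      rw [hD, h2] at h6
      linear_combination h6 - (b₁ * b₁' + β 0 * β 1 * b₀ * b₀') * h2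
    rcases mul_eq_zero.1 h5 with h7 | h7
    · exact absurd h7 (hadd 0 1 (by decide))
    · linear_combination h7 - b₀' * b₁ * h2
  · exfalso
    apply hns
    have a21 := hadd 2 1 (by decide)
    have a20 := hadd 2 0 (by decide)
    have a31 := hadd 3 1 (by decide)
    have a30 := hadd 3 0 (by decide)
    have n2 : h 2 * h' 0 + h' 2 * h 0 ≠ 0 := by
      intro h0
      rw [h0] at k2
      have : (β 2 + β 0) * c 1 * (h 0 * h' 1 + h' 0 * h 1) ^ 2 ≠ 0 :=
        mul_ne_zero (mul_ne_zero a20 (hc 1)) (pow_ne_zero _ hD)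
      exact this (by rw [k2]; ring)
    have n3 : h 3 * h' 1 + h' 3 * h 1 ≠ 0 := by
      intro h0
      rw [h0] at k3
      have : (β 3 + β 1) * c 0 * (h 0 * h' 1 + h' 0 * h 1) ^ 2 ≠ 0 :=
        mul_ne_zero (mul_ne_zero a31 (hc 0)) (pow_ne_zero _ hD)
      exact this (by rw [k3]; ring)
    refine ⟨((h 2 * h' 1 + h' 2 * h 1) / (h 2 * h' 0 + h' 2 * h 0)) *
      ((h 3 * h' 0 + h' 3 * h 0) / (h 3 * h' 1 + h' 3 * h 1)), ?_⟩
    have q1 : ((β 2 + β 1) * c 0) * (h 2 * h' 0 + h' 2 * h 0) ^ 2 =
        ((β 2 + β 0) * c 1) * (h 2 * h' 1 + h' 2 * h 1) ^ 2 := by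
      have hz : c 2 * (β 0 + β 1) * (h 0 * h' 1 + h' 0 * h 1) ^ 2 ≠ 0 :=
        mul_ne_zero (mul_ne_zero (hc 2) (hadd 0 1 (by decide))) (pow_ne_zero _ hD)
      apply mul_left_cancel₀ hz
      linear_combination -((β 2 + β 1) * c 0 * (h 0 * h' 1 + h' 0 * h 1) ^ 2) * k2 +
        ((β 2 + β 0) * c 1 * (h 0 * h' 1 + h' 0 * h 1) ^ 2) * k1
    have q2 : ((β 3 + β 1) * c 0) * (h 3 * h' 0 + h' 3 * h 0) ^ 2 =
        ((β 3 + β 0) * c 1) * (h 3 * h' 1 + h' 3 * h 1) ^ 2 := by
      have hz : c 3 * (β 0 + β 1) * (h 0 * h' 1 + h' 0 * h 1) ^ 2 ≠ 0 :=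
        mul_ne_zero (mul_ne_zero (hc 3) (hadd 0 1 (by decide))) (pow_ne_zero _ hD)
      apply mul_left_cancel₀ hz
      linear_combination -((β 3 + β 1) * c 0 * (h 0 * h' 1 + h' 0 * h 1) ^ 2) * k4 +
        ((β 3 + β 0) * c 1 * (h 0 * h' 1 + h' 0 * h 1) ^ 2) * k3
    have c0 := hc 0
    have c1 := hc 1
    clear k1 k2 k3 k4 r2 r3 hl hl'
    generalize h 2 * h' 1 + h' 2 * h 1 = u at *
    generalize h 2 * h' 0 + h' 2 * h 0 = w at *
    generalize h 3 * h' 0 + h' 3 * h 0 = u' at *
    generalize h 3 * h' 1 + h' 3 * h 1 = w' at *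
    rw [div_eq_iff (mul_ne_zero a20 a31)]
    generalize β 2 + β 1 = A at *
    generalize β 2 + β 0 = A' at *
    generalize β 3 + β 1 = B at *
    generalize β 3 + β 0 = B' at *
    field_simp
    apply mul_left_cancel₀ (mul_ne_zero c0 c1)
    linear_combination (B' * c 1 * w' ^ 2) * q1 - (A' * c 1 * u ^ 2) * q2

/-- All rational points of the surface over the fraction field of a suitable factorial ring lie
in finitely many fibres. -/
theorem finite_fibres {R : Type} [CommRing R] [IsDomain R] [UniqueFactorizationMonoid R]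
    [CharP R 2] [Finite Rˣ] {K : Type} [Field K] [Algebra R K] [IsFractionRing R K] [CharP K 2]
    (β : Fin 4 → R) (hbad : bad β ≠ 0)
    (hβ : Function.Injective fun j => algebraMap R K (β j))
    (hns : ¬ IsSquare ((algebraMap R K (β 2) + algebraMap R K (β 1)) *
      (algebraMap R K (β 3) + algebraMap R K (β 0)) /
      ((algebraMap R K (β 2) + algebraMap R K (β 0)) *
        (algebraMap R K (β 3) + algebraMap R K (β 1))))) :
    ∃ T : Finset (K × K), (∀ q ∈ T, ¬ (q.1 = 0 ∧ q.2 = 0)) ∧
      ∀ v ∈ (surface fun j => algebraMap R K (β j)).points K,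
        ∃ q ∈ T, q.1 * v (Sum.inl 0) + q.2 * v (Sum.inl 1) = 0 := by
  classical
  have h2 : (2 : K) = 0 := CharTwo.two_eq_zero
  have hinj : Function.Injective (algebraMap R K) := IsFractionRing.injective _ _
  have : Finite {c : R // c ∣ bad β} := by
    have := Fintype.ofFinite Rˣ
    have := UniqueFactorizationMonoid.fintypeSubtypeDvd (bad β) hbad
    infer_instance
  have := Fintype.ofFinite {c : R // c ∣ bad β}
  let Pr : (Fin 4 → {c : R // c ∣ bad β}) → K × K → Prop := fun c b =>
    ¬ (b.1 = 0 ∧ b.2 = 0) ∧ ∃ h : Fin 4 → K, ∀ j,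
      b.2 + algebraMap R K (β j) * b.1 = algebraMap R K (c j).1 * h j ^ 2
  let rep : (Fin 4 → {c : R // c ∣ bad β}) → K × K := fun c =>
    if hc : ∃ b, Pr c b then ((Classical.choose hc).2, (Classical.choose hc).1) else (1, 0)
  have rep1 : ∀ c (hc : ∃ b, Pr c b), rep c =
      ((Classical.choose hc).2, (Classical.choose hc).1) := fun c hc => dif_pos hc
  have rep0 : ∀ c (_ : ¬ ∃ b, Pr c b), rep c = (1, 0) := fun c hc => dif_neg hc
  refine ⟨Finset.univ.image rep ∪ Finset.univ.image fun j : Fin 4 => (algebraMap R K (β j), 1),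
    ?_, ?_⟩
  · intro q hq
    rw [Finset.mem_union, Finset.mem_image, Finset.mem_image] at hq
    rcases hq with ⟨c, _, rfl⟩ | ⟨j, _, rfl⟩
    · by_cases hc : ∃ b, Pr c b
      · have h3 := (Classical.choose_spec hc).1
        rw [rep1 c hc]
        exact fun h => h3 ⟨h.2, h.1⟩
      · rw [rep0 c hc]
        exact fun h => one_ne_zero h.1
    · simp
  · intro v hv
    rw [mem_points] at hv
    obtain ⟨hl, hrr, hv⟩ := hv
    obtain ⟨w, a, e, ha, he, hwl, hwr, hcop⟩ := clear_denoms (R := R) (K := K) v hl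
    have hw : ∀ t i, eqn β w t i = 0 := by
      intro t i
      apply hinj
      rw [map_eqn, map_zero]
      have h3 := hv t i
      rw [eqn_scale _ v (fun c => algebraMap _ _ (w c)) a e hwl hwr t i] at h3
      exact (mul_eq_zero.1 h3).resolve_left (mul_ne_zero (pow_ne_zero _ ha) (pow_ne_zero _ he))
    have hA : ∀ i, EA (gam β w) (kap w) (mm w) (xx w) (pp w) i = 0 := fun i => hw 0 i
    by_cases hg : gam β w = 0
    · obtain ⟨j, hj⟩ : ∃ j, w (Sum.inl 1) + β j * w (Sum.inl 0) = 0 := by
        unfold gam at hg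
        rcases mul_eq_zero.1 hg with hg | hg
        · rcases mul_eq_zero.1 hg with hg | hg
          · rcases mul_eq_zero.1 hg with hg | hg
            · exact ⟨0, hg⟩
            · exact ⟨1, hg⟩
          · exact ⟨2, hg⟩
        · exact ⟨3, hg⟩
      refine ⟨(algebraMap R K (β j), 1), ?_, ?_⟩
      · rw [Finset.mem_union]
        right
        exact Finset.mem_image_of_mem _ (Finset.mem_univ j)
      · have h5 := congrArg (algebraMap R K) hj
        rw [map_add, map_mul, map_zero] at h5
        rw [hwl, hwl]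
        linear_combination a * h5
    · have hne : ¬ (xx w 0 = 0 ∧ xx w 1 = 0 ∧ xx w 2 = 0) := by
        intro hne
        have hx : ∀ i, xx w i = 0 := by
          intro i; fin_cases i
          · exact hne.1
          · exact hne.2.1
          · exact hne.2.2
        obtain ⟨j, hj⟩ := hrr
        apply hj
        rw [hwr]
        have hp0 : ∀ i, pp w i = 0 := by
          intro i
          have h := hA i
          unfold EA at h
          rw [hx, hx, hx] at h
          have h3 : gam β w * pp w i ^ 2 = 0 := by linear_combination h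
          exact pow_eq_zero_iff (two_ne_zero) |>.1 ((mul_eq_zero.1 h3).resolve_left hg)
        have : w (Sum.inr j) = 0 := by
          fin_cases j
          · exact hx 0
          · exact hx 1
          · exact hx 2
          · exact hp0 0
          · exact hp0 1
          · exact hp0 2
        rw [this, map_zero, mul_zero]
      have hlin : ∀ j, w (Sum.inl 1) + β j * w (Sum.inl 0) ≠ 0 := by
        intro j hj
        apply hg
        unfold gam
        fin_cases j
        · change w (Sum.inl 1) + β 0 * w (Sum.inl 0) = 0 at hj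
          rw [hj]; ring
        · change w (Sum.inl 1) + β 1 * w (Sum.inl 0) = 0 at hj
          rw [hj]; ring
        · change w (Sum.inl 1) + β 2 * w (Sum.inl 0) = 0 at hj
          rw [hj]; ring
        · change w (Sum.inl 1) + β 3 * w (Sum.inl 0) = 0 at hj
          rw [hj]; ring
      have hcl : ∀ j, ∃ c x : R, c ∣ bad β ∧ w (Sum.inl 1) + β j * w (Sum.inl 0) = c * x ^ 2 :=
        fun j => sqfree_part (bad β) _ hbad (hlin j) fun π hπ hd hb =>
          even_lin β (w (Sum.inl 0)) (w (Sum.inl 1)) (xx w 0) (xx w 1) (xx w 2) (pp w 0) (pp w 1)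
            (pp w 2) hcop hne (gam β w) rfl hg (hA 0) (hA 1) (hA 2) j π hπ hd hb
      choose c x hc hx using hcl
      have hPr : Pr (fun j => ⟨c j, hc j⟩) (algebraMap R K (w (Sum.inl 0)),
          algebraMap R K (w (Sum.inl 1))) := by
        refine ⟨?_, fun j => algebraMap R K (x j), ?_⟩
        · rintro ⟨h5, h6⟩
          replace h5 : algebraMap R K (w (Sum.inl 0)) = 0 := h5
          replace h6 : algebraMap R K (w (Sum.inl 1)) = 0 := h6
          obtain ⟨i, hi⟩ := hl
          apply hi
          rw [hwl]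
          fin_cases i
          · change a * algebraMap R K (w (Sum.inl 0)) = 0
            rw [h5, mul_zero]
          · change a * algebraMap R K (w (Sum.inl 1)) = 0
            rw [h6, mul_zero]
        · intro j
          have h5 := congrArg (algebraMap R K) (hx j)
          rw [map_add, map_mul, map_mul, map_pow] at h5
          exact h5
      have hex : ∃ b, Pr (fun j => ⟨c j, hc j⟩) b := ⟨_, hPr⟩
      refine ⟨rep fun j => ⟨c j, hc j⟩, ?_, ?_⟩
      · rw [Finset.mem_union]
        left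
        exact Finset.mem_image_of_mem _ (Finset.mem_univ _)
      · obtain ⟨h5, h', h6⟩ := Classical.choose_spec hex
        obtain ⟨h7, h, h8⟩ := hPr
        have hc0 : ∀ j, algebraMap R K (c j) ≠ 0 := by
          intro j h0
          have h9 : c j = 0 := hinj (by rw [h0, map_zero])
          have h10 := hc j
          rw [h9, zero_dvd_iff] at h10
          exact hbad h10
        have h9 := uniq (fun j => algebraMap R K (β j)) hβ hns (fun j => algebraMap R K (c j)) h h'
          hc0 (algebraMap R K (w (Sum.inl 0))) (algebraMap R K (w (Sum.inl 1)))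
          (Classical.choose hex).1 (Classical.choose hex).2 h8 h6
        have h10 := rep1 _ hex
        rw [h10, hwl, hwl]
        linear_combination a * h9 + a * ((Classical.choose hex).1 *
          algebraMap R K (w (Sum.inl 1))) * h2

/-- The parameters over the polynomial ring. -/
noncomputable def betR : Fin 4 → Polynomial (ZMod 2) :=
  ![Polynomial.X, Polynomial.X + 1, Polynomial.X ^ 2, Polynomial.X ^ 2 + Polynomial.X + 1]

/-- The rational function field in one variable over the field with two elements. -/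
abbrev KX : Type := FractionRing (Polynomial (ZMod 2))

instance : CharP KX 2 := charP_of_injective_algebraMap (algebraMap (ZMod 2) KX).injective 2

/-- The variable. -/
noncomputable def tX : KX := algebraMap (Polynomial (ZMod 2)) KX Polynomial.X

theorem tX_nonsquare : ¬ IsSquare tX := by
  rintro ⟨y, hy⟩
  obtain ⟨a, b, hb, rfl⟩ := IsFractionRing.div_surjective (A := Polynomial (ZMod 2)) y
  have hb0 : b ≠ 0 := nonZeroDivisors.ne_zero hb
  have hinj : Function.Injective (algebraMap (Polynomial (ZMod 2)) KX) :=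
    IsFractionRing.injective _ _
  have hb1 : algebraMap (Polynomial (ZMod 2)) KX b ≠ 0 := by
    intro h
    exact hb0 (hinj (by rw [h, map_zero]))
  have h1 : (Polynomial.X : Polynomial (ZMod 2)) * b ^ 2 = a ^ 2 := by
    apply hinj
    rw [map_mul, map_pow, map_pow]
    change tX * _ = _
    rw [hy]
    field_simp
  have ha0 : a ≠ 0 := by
    rintro rfl
    rw [zero_pow two_ne_zero] at h1
    exact (mul_ne_zero Polynomial.X_ne_zero (pow_ne_zero _ hb0)) h1
  have h2 := congrArg Polynomial.natDegree h1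
  rw [Polynomial.natDegree_mul Polynomial.X_ne_zero (pow_ne_zero _ hb0), Polynomial.natDegree_pow,
    Polynomial.natDegree_pow, Polynomial.natDegree_X] at h2
  omega

theorem betR_map : (fun j => algebraMap (Polynomial (ZMod 2)) KX (betR j)) = bet tX := by
  funext j
  fin_cases j
  · rfl
  · change algebraMap (Polynomial (ZMod 2)) KX (Polynomial.X + 1) = tX + 1
    rw [map_add, map_one]; rfl
  · change algebraMap (Polynomial (ZMod 2)) KX (Polynomial.X ^ 2) = tX ^ 2
    rw [map_pow]; rfl
  · change algebraMap (Polynomial (ZMod 2)) KX (Polynomial.X ^ 2 + Polynomial.X + 1) =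
      tX ^ 2 + tX + 1
    rw [map_add, map_add, map_pow, map_one]; rfl

theorem map_bad {R S : Type} [CommRing R] [CommRing S] (φ : R →+* S) (β : Fin 4 → R) :
    φ (bad β) = bad fun j => φ (β j) := by
  simp [bad, map_prod]

theorem bad_ne_zero {k : Type} [Field k] [CharP k 2] (β : Fin 4 → k) (hβ : Function.Injective β)
    (h0 : ∀ j, β j ≠ 0) (h1 : ∀ j, β j ≠ 1) : bad β ≠ 0 := by
  have h2 : (2 : k) = 0 := CharTwo.two_eq_zero
  unfold bad
  refine mul_ne_zero (mul_ne_zero ?_ ?_) ?_
  · exact Finset.prod_ne_zero_iff.2 fun j _ => h0 j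
  · exact Finset.prod_ne_zero_iff.2 fun j _ h => h1 j (by linear_combination h - h2)
  · refine Finset.prod_ne_zero_iff.2 fun i _ => Finset.prod_ne_zero_iff.2 fun j hj h => ?_
    rw [Finset.mem_filter] at hj
    exact hj.2 (hβ (by linear_combination h - β i * h2))

instance : Finite (Polynomial (ZMod 2))ˣ := by
  refine Finite.of_injective (fun u => (u : Polynomial (ZMod 2)).coeff 0) ?_
  intro u v huv
  obtain ⟨a, _, ha⟩ := Polynomial.isUnit_iff.1 u.isUnit
  obtain ⟨b, _, hb⟩ := Polynomial.isUnit_iff.1 v.isUnit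
  apply Units.ext
  have h : (u : Polynomial (ZMod 2)).coeff 0 = (v : Polynomial (ZMod 2)).coeff 0 := huv
  rw [← ha, ← hb] at h ⊢
  simpa using h

/-- The rational points of the surface over `𝔽₂(t)` lie in finitely many fibres. -/
theorem finite_fibres_KX :
    ∃ T : Finset (KX × KX), (∀ q ∈ T, ¬ (q.1 = 0 ∧ q.2 = 0)) ∧
      ∀ v ∈ (surface (bet tX)).points KX,
        ∃ q ∈ T, q.1 * v (Sum.inl 0) + q.2 * v (Sum.inl 1) = 0 := by
  have hm := betR_map
  have hc := bet_cross tX tX_nonsquare
  have hi := bet_injective tX tX_nonsquare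
  have hb := bad_ne_zero (bet tX) hi (bet_ne_zero tX tX_nonsquare) (bet_ne_one tX tX_nonsquare)
  rw [← hm] at hc hi hb ⊢
  refine finite_fibres betR ?_ hi hc
  intro h
  apply hb
  rw [← map_bad, h, map_zero]

/-- A product of nonzero linear forms in the left coordinates does not vanish on the surface. -/
theorem prod_lin {k : Type} [Field k] [CharP k 2] (β : Fin 4 → k) (h0 : ∀ j, β j ≠ 0)
    (h1 : ∀ j, β j ≠ 1) (T : Finset (k × k)) (hT : ∀ q ∈ T, ¬ (q.1 = 0 ∧ q.2 = 0)) :
    ¬ ∀ p ∈ (surface β).points (AlgebraicClosure k),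
      aeval p (∏ q ∈ T, (C q.1 * X (Sum.inl 0) + C q.2 * X (Sum.inl 1)) :
        MvPolynomial (Coord 1 5) k) = 0 := by
  classical
  obtain ⟨r, hr⟩ := exists_r β
  have hpt := points_iff β h0 h1 r hr
  have m0 := (hpt (par r ![1, 0] ![1, 0, 0])).2 ⟨_, _, fun h => one_ne_zero (congrFun h 0),
      fun h => one_ne_zero (congrFun h 0), JJ_ex0, rfl⟩
  have m1 := (hpt (par r ![1, 1] ![0, 1, 0])).2 ⟨_, _, fun h => one_ne_zero (congrFun h 0),
      fun h => one_ne_zero (congrFun h 1), JJ_ex1 CharTwo.two_eq_zero, rfl⟩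
  have hirr := (irreducible_surface β h0 h1).2
  have heval : ∀ (f : MvPolynomial (Coord 1 5) k) (p : Coord 1 5 → AlgebraicClosure k),
      aeval p f = eval p (map (algebraMap k (AlgebraicClosure k)) f) := by
    intro f p
    rw [eval_map, aeval_def]
  induction T using Finset.induction_on with
  | empty =>
    intro h
    have := h _ m0
    simp at this
  | insert q T hq ih =>
    intro h
    have hq1 := hT q (Finset.mem_insert_self q T)
    have ih' := ih fun q' hq' => hT q' (Finset.mem_insert_of_mem hq')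
    rcases hirr (map (algebraMap k (AlgebraicClosure k))
      (C q.1 * X (Sum.inl 0) + C q.2 * X (Sum.inl 1)))
      (map (algebraMap k (AlgebraicClosure k))
        (∏ q ∈ T, (C q.1 * X (Sum.inl 0) + C q.2 * X (Sum.inl 1)))) (by
        intro p hp
        have h3 := h p hp
        rw [Finset.prod_insert hq, map_mul, heval, heval] at h3
        exact h3) with h3 | h3
    · have z0 := h3 _ m0
      have z1 := h3 _ m1
      rw [← heval] at z0 z1
      simp [par] at z0 z1
      rw [z0] at z1
      simp at z1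
      exact hq1 ⟨z0, z1⟩
    · exact ih' fun p hp => by rw [heval]; exact h3 p hp

theorem prod_bihom {k : Type} [Field k] (T : Finset (k × k)) :
    Bihomogeneous (∏ q ∈ T, (C q.1 * X (Sum.inl 0) + C q.2 * X (Sum.inl 1)) :
      MvPolynomial (Coord 1 5) k) := by
  classical
  induction T using Finset.induction_on with
  | empty => exact ⟨0, by rw [Finset.prod_empty]; exact isWeightedHomogeneous_one k _⟩
  | insert q T hq ih =>
    obtain ⟨d, hd⟩ := ih
    rw [Finset.prod_insert hq]
    refine ⟨(1, 0) + d, IsWeightedHomogeneous.mul ?_ hd⟩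
    have a0 := (isWeightedHomogeneous_C (bideg 1 5) q.1).mul
      (isWeightedHomogeneous_X k (bideg 1 5) (Sum.inl 0))
    have a1 := (isWeightedHomogeneous_C (bideg 1 5) q.2).mul
      (isWeightedHomogeneous_X k (bideg 1 5) (Sum.inl 1))
    rw [zero_add] at a0 a1
    exact a0.add a1

end Pool.Agent.Helper553.Uni
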