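import Pool.Agent.Helper553.Uni.Main

set_option autoImplicit false

open MvPolynomial

namespace Pool.Agent.Helper553.Uni

/-- The four parameters attached to a non-square `τ`. -/
def bet {k : Type} [Field k] (τ : k) : Fin 4 → k := ![τ, τ + 1, τ ^ 2, τ ^ 2 + τ + 1]

section

variable {k : Type} [Field k] [CharP k 2] (τ : k) (hτ : ¬ IsSquare τ)

include hτ

theorem tau_ne_zero : τ ≠ 0 := fun h => hτ ⟨0, by rw [h, mul_zero]⟩

theorem tau_ne_one : τ ≠ 1 := fun h => hτ ⟨1, by rw [h, mul_one]⟩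

theorem tau_add_one : τ + 1 ≠ 0 := fun h =>
  tau_ne_one τ hτ (by have h2 : (2 : k) = 0 := CharTwo.two_eq_zero; linear_combination h - h2)

theorem tau_quad : τ ^ 2 + τ + 1 ≠ 0 := fun h =>
  hτ ⟨τ + 1, by have h2 : (2 : k) = 0 := CharTwo.two_eq_zero; linear_combination - h + τ * h2 - τ * h2⟩

theorem bet_ne_zero (j : Fin 4) : bet τ j ≠ 0 := by
  fin_cases j
  · exact tau_ne_zero τ hτ
  · exact tau_add_one τ hτ
  · exact pow_ne_zero _ (tau_ne_zero τ hτ)
  · exact tau_quad τ hτ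

theorem bet_ne_one (j : Fin 4) : bet τ j ≠ 1 := by
  have h2 : (2 : k) = 0 := CharTwo.two_eq_zero
  fin_cases j
  · exact tau_ne_one τ hτ
  · intro h
    have h3 : τ + 1 = 1 := h
    exact tau_ne_zero τ hτ (by linear_combination h3)
  · intro h
    have h3 : τ ^ 2 = 1 := h
    have h4 : (τ + 1) ^ 2 = 0 := by linear_combination h3 + (τ + 1) * h2
    exact tau_add_one τ hτ (pow_eq_zero_iff (two_ne_zero) |>.1 h4)
  · intro h
    have h3 : τ ^ 2 + τ + 1 = 1 := h
    have h4 : τ * (τ + 1) = 0 := by linear_combination h3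
    rcases mul_eq_zero.1 h4 with h5 | h5
    · exact tau_ne_zero τ hτ h5
    · exact tau_add_one τ hτ h5

theorem bet_injective : Function.Injective (bet τ) := by
  have h2 : (2 : k) = 0 := CharTwo.two_eq_zero
  have t0 := tau_ne_zero τ hτ
  have t1 := tau_add_one τ hτ
  have t2 := tau_quad τ hτ
  have h01 : bet τ 0 ≠ bet τ 1 := by
    intro h
    have h3 : τ = τ + 1 := h
    exact one_ne_zero (α := k) (by linear_combination -h3)
  have h02 : bet τ 0 ≠ bet τ 2 := by
    intro h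
    have h3 : τ = τ ^ 2 := h
    have h4 : τ * (τ + 1) = 0 := by linear_combination -h3 + τ * h2
    rcases mul_eq_zero.1 h4 with h5 | h5
    · exact t0 h5
    · exact t1 h5
  have h03 : bet τ 0 ≠ bet τ 3 := by
    intro h
    have h3 : τ = τ ^ 2 + τ + 1 := h
    have h4 : (τ + 1) ^ 2 = 0 := by linear_combination -h3 + τ * h2
    exact t1 (pow_eq_zero_iff (two_ne_zero) |>.1 h4)
  have h12 : bet τ 1 ≠ bet τ 2 := by
    intro h
    have h3 : τ + 1 = τ ^ 2 := h
    exact t2 (by linear_combination -h3 + (τ + 1) * h2)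
  have h13 : bet τ 1 ≠ bet τ 3 := by
    intro h
    have h3 : τ + 1 = τ ^ 2 + τ + 1 := h
    exact t0 (pow_eq_zero_iff (two_ne_zero) |>.1 (by linear_combination -h3 : τ ^ 2 = 0))
  have h23 : bet τ 2 ≠ bet τ 3 := by
    intro h
    have h3 : τ ^ 2 = τ ^ 2 + τ + 1 := h
    exact t1 (by linear_combination -h3)
  intro a b hab
  fin_cases a <;> fin_cases b
  · rfl
  · exact absurd hab h01
  · exact absurd hab h02
  · exact absurd hab h03
  · exact absurd hab.symm h01
  · rfl
  · exact absurd hab h12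
  · exact absurd hab h13
  · exact absurd hab.symm h02
  · exact absurd hab.symm h12
  · rfl
  · exact absurd hab h23
  · exact absurd hab.symm h03
  · exact absurd hab.symm h13
  · exact absurd hab.symm h23
  · rfl

theorem bet_cross : ¬ IsSquare ((bet τ 2 + bet τ 1) * (bet τ 3 + bet τ 0) /
    ((bet τ 2 + bet τ 0) * (bet τ 3 + bet τ 1))) := by
  have h2 : (2 : k) = 0 := CharTwo.two_eq_zero
  have t0 := tau_ne_zero τ hτ
  have t1 := tau_add_one τ hτ
  have t2 := tau_quad τ hτ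
  have e1 : bet τ 2 + bet τ 1 = τ ^ 2 + τ + 1 := by
    change τ ^ 2 + (τ + 1) = _
    ring
  have e2 : bet τ 3 + bet τ 0 = (τ + 1) ^ 2 := by
    change τ ^ 2 + τ + 1 + τ = _
    ring
  have e3 : bet τ 2 + bet τ 0 = τ * (τ + 1) := by
    change τ ^ 2 + τ = _
    ring
  have e4 : bet τ 3 + bet τ 1 = τ ^ 2 := by
    change τ ^ 2 + τ + 1 + (τ + 1) = _
    linear_combination (τ + 1) * h2
  rw [e1, e2, e3, e4]
  rintro ⟨y, hy⟩
  rw [div_eq_iff (mul_ne_zero (mul_ne_zero t0 t1) (pow_ne_zero _ t0))] at hy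
  -- (τ²+τ+1)(τ+1)² = y² τ³ (τ+1)
  have h3 : (τ ^ 2 + τ + 1) * (τ + 1) = y * y * τ ^ 3 := by
    apply mul_right_cancel₀ t1
    linear_combination hy
  -- τ³ + 1 + 2(...) = y² τ³, so τ (τ + yτ)² = 1
  apply hτ
  have h4 : τ * (τ + y * τ) ^ 2 = 1 := by
    linear_combination -h3 + (τ ^ 3 + y * τ ^ 3 + τ ^ 2 + τ) * h2
  have h5 : τ + y * τ ≠ 0 := by
    intro h
    rw [h] at h4
    simp at h4
  refine ⟨(τ + y * τ)⁻¹, ?_⟩
  rw [← mul_inv]
  exact eq_inv_of_mul_eq_one_left (by linear_combination h4)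

end

theorem infinite_of_nonsquare {k : Type} [Field k] [CharP k 2] (τ : k) (hτ : ¬ IsSquare τ) :
    Infinite k := by
  by_contra h
  rw [not_infinite_iff_finite] at h
  exact hτ (FiniteField.isSquare_of_char_two (by
    haveI := Fintype.ofFinite k
    exact ringChar.eq k 2 |>.symm ▸ rfl) τ)

theorem ratfunc_nonsquare :
    ∃ τ : FractionRing (Polynomial (ZMod 2)), ¬ IsSquare τ := by
  refine ⟨algebraMap (Polynomial (ZMod 2)) _ Polynomial.X, ?_⟩
  rintro ⟨y, hy⟩
  obtain ⟨a, b, hb, rfl⟩ := IsFractionRing.div_surjective (A := Polynomial (ZMod 2)) y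
  have hb0 : b ≠ 0 := nonZeroDivisors.ne_zero hb
  have hinj : Function.Injective (algebraMap (Polynomial (ZMod 2))
    (FractionRing (Polynomial (ZMod 2)))) := IsFractionRing.injective _ _
  have hb1 : algebraMap (Polynomial (ZMod 2)) (FractionRing (Polynomial (ZMod 2))) b ≠ 0 := by
    intro h
    exact hb0 (hinj (by rw [h, map_zero]))
  have h1 : (Polynomial.X : Polynomial (ZMod 2)) * b ^ 2 = a ^ 2 := by
    apply hinj
    rw [map_mul, map_pow, map_pow, hy]
    field_simp
  have ha0 : a ≠ 0 := by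
    rintro rfl
    rw [zero_pow two_ne_zero] at h1
    exact (mul_ne_zero Polynomial.X_ne_zero (pow_ne_zero _ hb0)) h1
  have h2 := congrArg Polynomial.natDegree h1
  rw [Polynomial.natDegree_mul Polynomial.X_ne_zero (pow_ne_zero _ hb0), Polynomial.natDegree_pow,
    Polynomial.natDegree_pow, Polynomial.natDegree_X] at h2
  omega

end Pool.Agent.Helper553.Uni
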