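import Pool.Agent.Helper553.Uni.Surf

set_option autoImplicit false

open MvPolynomial

namespace Pool.Agent.Helper553.Uni



theorem irr_nat {K : Type} [Field K] {A : Type} [CommRing A] [Algebra K A] (ψ : A →ₐ[K] K)
    (Φ : Coord 1 5 → A) (f : MvPolynomial (Coord 1 5) K) :
    ψ (aeval Φ f) = eval (fun c => ψ (Φ c)) f := by
  rw [comp_aeval_apply, MvPolynomial.aeval_eq_eval]

theorem irr_par {A A' : Type} [CommRing A] [CommRing A'] (φ : A →+* A') (r : Fin 4 → A)
    (B : Fin 2 → A) (u : Fin 3 → A) (c : Coord 1 5) :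
    φ (par r B u c) = par (fun i => φ (r i)) (fun i => φ (B i)) (fun i => φ (u i)) c := by
  rcases c with c | c
  · fin_cases c <;> simp [par]
  · fin_cases c <;> simp [par, GG]

theorem irr_main {K : Type} [Field K] [CharP K 2] [Infinite K] (r : Fin 4 → K)
    (f : MvPolynomial (Coord 1 5) K)
    (hf : ∀ t x y z : K, eval (par r ![t * (x ^ 3 + y ^ 3), t * (y ^ 3 + z ^ 3)] ![x, y, z]) f = 0)
    (B : Fin 2 → K) (u : Fin 3 → K) (hu : u ≠ 0) (hJ : JJ B u = 0) :
    eval (par r B u) f = 0 := by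
  have two : (2 : K) = 0 := by exact_mod_cast CharP.cast_eq_zero K 2
  have hB2 : B = ![B 0, B 1] := by ext i; fin_cases i <;> rfl
  have hu3 : u = ![u 0, u 1, u 2] := by ext i; fin_cases i <;> rfl
  have hJ' : B 1 * (u 0 ^ 3 + u 1 ^ 3) = B 0 * (u 1 ^ 3 + u 2 ^ 3) := by
    unfold JJ at hJ
    linear_combination hJ - (B 0 * (u 1 ^ 3 + u 2 ^ 3)) * two
  by_cases h0 : u 0 ^ 3 + u 1 ^ 3 = 0
  · by_cases h1 : u 1 ^ 3 + u 2 ^ 3 = 0
    · -- singular case
      have e1 : u 0 ^ 3 = u 1 ^ 3 := by linear_combination h0 - u 1 ^ 3 * two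
      have e2 : u 2 ^ 3 = u 1 ^ 3 := by linear_combination h1 - u 1 ^ 3 * two
      have hu1 : u 1 ≠ 0 := by
        intro h
        rw [h, zero_pow (by norm_num)] at e1 e2
        apply hu
        rw [hu3, h, (pow_eq_zero_iff (by norm_num)).1 e1, (pow_eq_zero_iff (by norm_num)).1 e2]
        ext i; fin_cases i <;> rfl
      have hu0 : u 0 ≠ 0 := by
        intro h
        rw [h, zero_pow (by norm_num)] at e1
        exact hu1 ((pow_eq_zero_iff (by norm_num)).1 e1.symm)
      have hu2 : u 2 ≠ 0 := by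
        intro h
        rw [h, zero_pow (by norm_num)] at e2
        exact hu1 ((pow_eq_zero_iff (by norm_num)).1 e2.symm)
      let c0 : Polynomial K := Polynomial.C (B 0) + Polynomial.X * Polynomial.C (B 0 ^ 2 / u 0 ^ 3)
        + Polynomial.X ^ 2 * Polynomial.C (B 0 ^ 3 / u 0 ^ 6)
      let c1 : Polynomial K := Polynomial.C (B 1) + Polynomial.X * Polynomial.C (B 1 ^ 2 / u 2 ^ 3)
        + Polynomial.X ^ 2 * Polynomial.C (B 1 ^ 3 / u 2 ^ 6)
      let x' : Polynomial K := Polynomial.C (u 0) + Polynomial.X * Polynomial.C (B 0 / u 0 ^ 2)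
      let y' : Polynomial K := Polynomial.C (u 1)
      let z' : Polynomial K := Polynomial.C (u 2) + Polynomial.X * Polynomial.C (B 1 / u 2 ^ 2)
      let Φ : Coord 1 5 → Polynomial K := par (fun i => Polynomial.C (r i)) ![c0, c1] ![x', y', z']
      let P : Polynomial K := aeval Φ f
      have hP : ∀ s : K, P.eval s = eval (par r ![B 0 + s * (B 0 ^ 2 / u 0 ^ 3) +
          s ^ 2 * (B 0 ^ 3 / u 0 ^ 6), B 1 + s * (B 1 ^ 2 / u 2 ^ 3) +
          s ^ 2 * (B 1 ^ 3 / u 2 ^ 6)] ![u 0 + s * (B 0 / u 0 ^ 2), u 1,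
          u 2 + s * (B 1 / u 2 ^ 2)]) f := by
        intro s
        have h2 := irr_nat (Polynomial.aeval s : Polynomial K →ₐ[K] K) Φ f
        rw [Polynomial.coe_aeval_eq_eval] at h2
        show Polynomial.eval s (aeval Φ f) = _
        rw [h2]
        congr 2
        funext c
        show (Polynomial.evalRingHom s) (par (fun i => Polynomial.C (r i)) ![c0, c1] ![x', y', z'] c) = _
        rw [irr_par]
        congr 1
        · funext i; simp
        · funext i; fin_cases i <;> simp [c0, c1] <;> ring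
        · funext i; fin_cases i <;> simp [x', y', z'] <;> ring
      have hPs : ∀ s : K, s ≠ 0 → P.eval s = 0 := by
        intro s hs
        rw [hP]
        have h2 := hf (1 / s) (u 0 + s * (B 0 / u 0 ^ 2)) (u 1) (u 2 + s * (B 1 / u 2 ^ 2))
        rw [← h2]
        have three : (3 : K) = 1 := by linear_combination two
        have g0 : 1 / s * ((u 0 + s * (B 0 / u 0 ^ 2)) ^ 3 + u 1 ^ 3) =
            B 0 + s * (B 0 ^ 2 / u 0 ^ 3) + s ^ 2 * (B 0 ^ 3 / u 0 ^ 6) := by
          have : (u 0 + s * (B 0 / u 0 ^ 2)) ^ 3 + u 1 ^ 3 =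
              (u 0 ^ 3 + u 1 ^ 3) + s * (3 * B 0 + 3 * (s * (B 0 ^ 2 / u 0 ^ 3)) +
                s ^ 2 * (B 0 ^ 3 / u 0 ^ 6)) := by
            field_simp
            ring
          rw [this, h0, three]
          field_simp
          ring
        have g1 : 1 / s * (u 1 ^ 3 + (u 2 + s * (B 1 / u 2 ^ 2)) ^ 3) =
            B 1 + s * (B 1 ^ 2 / u 2 ^ 3) + s ^ 2 * (B 1 ^ 3 / u 2 ^ 6) := by
          have : u 1 ^ 3 + (u 2 + s * (B 1 / u 2 ^ 2)) ^ 3 =
              (u 1 ^ 3 + u 2 ^ 3) + s * (3 * B 1 + 3 * (s * (B 1 ^ 2 / u 2 ^ 3)) +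
                s ^ 2 * (B 1 ^ 3 / u 2 ^ 6)) := by
            field_simp
            ring
          rw [this, h1, three]
          field_simp
          ring
        rw [g0, g1]
      have hPX : P * Polynomial.X = 0 := by
        apply Polynomial.funext
        intro s
        rw [Polynomial.eval_mul, Polynomial.eval_X, Polynomial.eval_zero]
        by_cases hs : s = 0
        · rw [hs, mul_zero]
        · rw [hPs s hs, zero_mul]
      have hP0 : P = 0 := by
        rcases mul_eq_zero.1 hPX with h2 | h2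
        · exact h2
        · exact absurd h2 Polynomial.X_ne_zero
      have h2 := hP 0
      rw [hP0, Polynomial.eval_zero] at h2
      rw [hB2, hu3]
      simp only [zero_mul, add_zero, zero_pow (two_ne_zero)] at h2
      exact h2.symm
    · have h2 := hf (B 1 / (u 1 ^ 3 + u 2 ^ 3)) (u 0) (u 1) (u 2)
      have g0 : B 1 / (u 1 ^ 3 + u 2 ^ 3) * (u 0 ^ 3 + u 1 ^ 3) = B 0 := by
        rw [div_mul_eq_mul_div, div_eq_iff h1, hJ']
      have g1 : B 1 / (u 1 ^ 3 + u 2 ^ 3) * (u 1 ^ 3 + u 2 ^ 3) = B 1 := div_mul_cancel₀ _ h1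
      rw [g0, g1, ← hB2, ← hu3] at h2
      exact h2
  · have h2 := hf (B 0 / (u 0 ^ 3 + u 1 ^ 3)) (u 0) (u 1) (u 2)
    have g0 : B 0 / (u 0 ^ 3 + u 1 ^ 3) * (u 0 ^ 3 + u 1 ^ 3) = B 0 := div_mul_cancel₀ _ h0
    have g1 : B 0 / (u 0 ^ 3 + u 1 ^ 3) * (u 1 ^ 3 + u 2 ^ 3) = B 1 := by
      rw [div_mul_eq_mul_div, div_eq_iff h0, hJ']
    rw [g0, g1, ← hB2, ← hu3] at h2
    exact h2

/-- Irreducibility of the image of the parametrisation. -/
theorem par_irred {K : Type} [Field K] [CharP K 2] [Infinite K] (r : Fin 4 → K)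
    (f g : MvPolynomial (Coord 1 5) K)
    (h : ∀ (B : Fin 2 → K) (u : Fin 3 → K), B ≠ 0 → u ≠ 0 → JJ B u = 0 →
      eval (par r B u) f * eval (par r B u) g = 0) :
    (∀ (B : Fin 2 → K) (u : Fin 3 → K), B ≠ 0 → u ≠ 0 → JJ B u = 0 →
      eval (par r B u) f = 0) ∨
    (∀ (B : Fin 2 → K) (u : Fin 3 → K), B ≠ 0 → u ≠ 0 → JJ B u = 0 →
      eval (par r B u) g = 0) := by
  have two : (2 : K) = 0 := by exact_mod_cast CharP.cast_eq_zero K 2
  let Φ : Coord 1 5 → MvPolynomial (Fin 4) K := par (fun i => C (r i))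
    ![X 0 * (X 1 ^ 3 + X 2 ^ 3), X 0 * (X 2 ^ 3 + X 3 ^ 3)] ![X 1, X 2, X 3]
  have hΦ : ∀ (w : Fin 4 → K) (p : MvPolynomial (Coord 1 5) K), eval w (aeval Φ p) =
      eval (par r ![w 0 * (w 1 ^ 3 + w 2 ^ 3), w 0 * (w 2 ^ 3 + w 3 ^ 3)] ![w 1, w 2, w 3]) p := by
    intro w p
    have h2 := irr_nat (aeval w : MvPolynomial (Fin 4) K →ₐ[K] K) Φ p
    rw [MvPolynomial.aeval_eq_eval] at h2
    rw [h2]
    congr 2
    funext c
    show (eval w) (par (fun i => C (r i))
      ![X 0 * (X 1 ^ 3 + X 2 ^ 3), X 0 * (X 2 ^ 3 + X 3 ^ 3)] ![X 1, X 2, X 3] c) = _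
    rw [irr_par]
    congr 1
    · funext i; simp
    · funext i; fin_cases i <;> simp
    · funext i; fin_cases i <;> simp
  have hprod : aeval Φ f * aeval Φ g * (X 0 * (X 1 ^ 3 + X 2 ^ 3)) = 0 := by
    apply MvPolynomial.funext
    intro w
    rw [map_zero, map_mul, map_mul, hΦ, hΦ]
    by_cases hw : w 0 * (w 1 ^ 3 + w 2 ^ 3) = 0
    · have : eval w (X 0 * (X 1 ^ 3 + X 2 ^ 3)) = 0 := by simpa using hw
      rw [this, mul_zero]
    · rw [h, zero_mul]
      · intro h0
        exact hw (congrFun h0 0)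
      · intro h0
        apply hw
        have e1 : w 1 = 0 := congrFun h0 0
        have e2 : w 2 = 0 := congrFun h0 1
        rw [e1, e2]; ring
      · unfold JJ
        simp only [Matrix.cons_val_zero, Matrix.cons_val_one, Matrix.cons_val]
        linear_combination (w 0 * (w 1 ^ 3 + w 2 ^ 3) * (w 2 ^ 3 + w 3 ^ 3)) * two
  have hne : (X 0 * (X 1 ^ 3 + X 2 ^ 3) : MvPolynomial (Fin 4) K) ≠ 0 := by
    intro h0
    have h2 := congrArg (eval ![1, 1, 0, 0]) h0
    simp at h2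
  rcases mul_eq_zero.1 hprod with h1 | h1
  · rcases mul_eq_zero.1 h1 with h2 | h2
    · left
      intro B u _ hu hJ
      refine irr_main r f (fun t x y z => ?_) B u hu hJ
      have := hΦ ![t, x, y, z] f
      rw [h2, map_zero] at this
      exact this.symm
    · right
      intro B u _ hu hJ
      refine irr_main r g (fun t x y z => ?_) B u hu hJ
      have := hΦ ![t, x, y, z] g
      rw [h2, map_zero] at this
      exact this.symm
  · exact absurd h1 hne

end Pool.Agent.Helper553.Uni
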