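import Pool.Agent.Helper553.Uni.Surf

set_option autoImplicit false

open MvPolynomial

namespace Pool.Agent.Helper553.Uni



/-- The coordinate of `xx v i`. -/
def xcol (i : Fin 3) : Coord 1 5 := Sum.inr (![0, 1, 2] i)

/-- The coordinate of `pp v i`. -/
def pcol (i : Fin 3) : Coord 1 5 := Sum.inr (![3, 4, 5] i)

/-- partial derivative evaluated at `v` -/
noncomputable def ddJ {k K : Type} [Field k] [Field K] [Algebra k K] (v : Coord 1 5 → K)
    (s : Coord 1 5) (f : MvPolynomial (Coord 1 5) k) : K := aeval v (pderiv s f)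

section ddJ
variable {k K : Type} [Field k] [Field K] [Algebra k K] (v : Coord 1 5 → K) (s : Coord 1 5)

theorem ddJ_add (f g : MvPolynomial (Coord 1 5) k) : ddJ v s (f + g) = ddJ v s f + ddJ v s g := by
  simp [ddJ]

theorem ddJ_mul (f g : MvPolynomial (Coord 1 5) k) :
    ddJ v s (f * g) = ddJ v s f * aeval v g + aeval v f * ddJ v s g := by
  simp only [ddJ]
  rw [pderiv_mul, map_add, map_mul, map_mul]

theorem ddJ_X (t : Coord 1 5) : ddJ (k := k) v s (X t) = if t = s then 1 else 0 := by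
  simp only [ddJ]
  rw [pderiv_X, Pi.single_apply]
  split_ifs <;> simp

theorem ddJ_C (a : k) : ddJ v s (C a) = 0 := by
  simp [ddJ]

theorem ddJ_sq [CharP K 2] (f : MvPolynomial (Coord 1 5) k) : ddJ v s (f ^ 2) = 0 := by
  have h2 : (2 : K) = 0 := by exact_mod_cast CharP.cast_eq_zero K 2
  rw [pow_two, ddJ_mul]
  linear_combination (ddJ v s f * aeval v f) * h2

theorem ddJ_cube [CharP K 2] (f : MvPolynomial (Coord 1 5) k) :
    ddJ v s (f ^ 3) = aeval v f ^ 2 * ddJ v s f := by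
  rw [pow_succ, ddJ_mul, ddJ_sq, map_pow]
  ring

end ddJ

theorem det4J {K : Type} [Field K] (M : Matrix (Fin 4) (Fin 4) K) (h01 : M 0 1 = 0)
    (h02 : M 0 2 = 0) (h03 : M 0 3 = 0) (h12 : M 1 2 = 0) (h13 : M 1 3 = 0)
    (h32 : M 3 2 = 0) (a0 : M 0 0 ≠ 0) (a1 : M 1 1 ≠ 0) (a2 : M 2 2 ≠ 0) (a3 : M 3 3 ≠ 0) :
    M.det ≠ 0 := by
  have h : M.det = M 0 0 * M 1 1 * M 2 2 * M 3 3 := by
    have e : M = !![M 0 0, 0, 0, 0; M 1 0, M 1 1, 0, 0; M 2 0, M 2 1, M 2 2, M 2 3;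
        M 3 0, M 3 1, 0, M 3 3] := by
      ext a b
      fin_cases a <;> fin_cases b <;> simp [h01, h02, h03, h12, h13, h32]
    rw [e]
    simp [Matrix.det_succ_row_zero, Fin.sum_univ_succ, Fin.succAbove]
    ring
  rw [h]
  exact mul_ne_zero (mul_ne_zero (mul_ne_zero a0 a1) a2) a3

theorem det4S {k K : Type} [Field k] [Field K] [Algebra k K] (v : Coord 1 5 → K)
    (S0 S1 S2 S3 : Coord 1 5) (P0 P1 P2 P3 : MvPolynomial (Coord 1 5) k)
    (h01 : ddJ v S1 P0 = 0) (h02 : ddJ v S2 P0 = 0) (h03 : ddJ v S3 P0 = 0)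
    (h12 : ddJ v S2 P1 = 0) (h13 : ddJ v S3 P1 = 0) (h32 : ddJ v S2 P3 = 0)
    (a0 : ddJ v S0 P0 ≠ 0) (a1 : ddJ v S1 P1 ≠ 0) (a2 : ddJ v S2 P2 ≠ 0) (a3 : ddJ v S3 P3 ≠ 0) :
    (Matrix.of fun a b => aeval v (pderiv ((![S0, S1, S2, S3] : Fin 4 → Coord 1 5) b)
      ((![P0, P1, P2, P3] : Fin 4 → MvPolynomial (Coord 1 5) k) a))).det ≠ 0 :=
  det4J _ h01 h02 h03 h12 h13 h32 a0 a1 a2 a3

theorem jacA_e1 {k K : Type} [Field k] [Field K] [Algebra k K] [CharP k 2] [CharP K 2]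
    (β : Fin 4 → k) (v : Coord 1 5 → K) (i : Fin 3) :
    ddJ v (xcol (i + 1)) (eqn (fun j => C (β j)) X 0 (i + 1)) = 0 ∧
    ddJ v (pcol i) (eqn (fun j => C (β j)) X 0 (i + 1)) = 0 ∧
    ddJ v (pcol i) (eqn (fun j => C (β j)) X 0 (i + 2)) = 0 ∧
    ddJ v (pcol i) (eqn (fun j => C (β j)) X 2 i) = 0 ∧
    ddJ v (xcol (i + 2)) (eqn (fun j => C (β j)) X 0 (i + 1)) =
        gam (fun j => algebraMap k K (β j)) v * xx v i ∧
    ddJ v (xcol (i + 1)) (eqn (fun j => C (β j)) X 0 (i + 2)) =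
        gam (fun j => algebraMap k K (β j)) v * xx v i ∧
    ddJ v (pcol i) (eqn (fun j => C (β j)) X 1 i) =
        gam (fun j => algebraMap k K (β j)) v * xx v i := by
  obtain rfl | rfl | rfl : i = 0 ∨ i = 1 ∨ i = 2 := by fin_cases i <;> simp
  · refine ⟨?_, ?_, ?_, ?_, ?_, ?_, ?_⟩ <;>
      simp [eqn, EA, EB, EC, mm, xx, pp, gam, kap, xcol, pcol, ddJ_add, ddJ_mul, ddJ_X, ddJ_C, ddJ_sq]
  · refine ⟨?_, ?_, ?_, ?_, ?_, ?_, ?_⟩ <;>
      simp [eqn, EA, EB, EC, mm, xx, pp, gam, kap, xcol, pcol, ddJ_add, ddJ_mul, ddJ_X, ddJ_C, ddJ_sq]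
  · refine ⟨?_, ?_, ?_, ?_, ?_, ?_, ?_⟩ <;>
      simp [eqn, EA, EB, EC, mm, xx, pp, gam, kap, xcol, pcol, ddJ_add, ddJ_mul, ddJ_X, ddJ_C, ddJ_sq]


theorem aev_xx {k K : Type} [Field k] [Field K] [Algebra k K] (v : Coord 1 5 → K) (i : Fin 3) :
    aeval v (xx (X : Coord 1 5 → MvPolynomial (Coord 1 5) k) i) = xx v i := by
  fin_cases i <;> simp [xx]

theorem aev_pp {k K : Type} [Field k] [Field K] [Algebra k K] (v : Coord 1 5 → K) (i : Fin 3) :
    aeval v (pp (X : Coord 1 5 → MvPolynomial (Coord 1 5) k) i) = pp v i := by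
  fin_cases i <;> simp [pp]

theorem aev_mm {k K : Type} [Field k] [Field K] [Algebra k K] (v : Coord 1 5 → K) (i : Fin 3) :
    aeval v (mm (X : Coord 1 5 → MvPolynomial (Coord 1 5) k) i) = mm v i := by
  fin_cases i <;> simp [mm]

theorem ddJ_xx_inl {k K : Type} [Field k] [Field K] [Algebra k K] (v : Coord 1 5 → K) (i : Fin 3)
    (c : Fin 2) : ddJ v (Sum.inl c) (xx (X : Coord 1 5 → MvPolynomial (Coord 1 5) k) i) = 0 := by
  fin_cases i <;> simp [xx, ddJ_X]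

theorem ddJ_pp_inl {k K : Type} [Field k] [Field K] [Algebra k K] (v : Coord 1 5 → K) (i : Fin 3)
    (c : Fin 2) : ddJ v (Sum.inl c) (pp (X : Coord 1 5 → MvPolynomial (Coord 1 5) k) i) = 0 := by
  fin_cases i <;> simp [pp, ddJ_X]

theorem jacA_e2 {k K : Type} [Field k] [Field K] [Algebra k K] [CharP k 2] [CharP K 2]
    (β : Fin 4 → k) (v : Coord 1 5 → K) (j : Fin 3) (c : Fin 2)
    (h1 : pp v j = 0) (h2 : xx v (j + 1) * xx v (j + 2) = 0) (h3 : xx v j = 0 ) :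
    ddJ v (Sum.inl c) (eqn (fun j => C (β j)) X 0 j) = 0 := by
  simp only [eqn, EA, Matrix.cons_val_zero, ddJ_add, ddJ_mul, ddJ_sq, ddJ_xx_inl, map_mul, map_pow,
    aev_xx, aev_pp, aev_mm, kap, h1, h3]
  linear_combination (ddJ v (Sum.inl c) (gam (fun j => C (β j)) X)) * h2

theorem jacA_e3 {k K : Type} [Field k] [Field K] [Algebra k K] [CharP k 2] [CharP K 2]
    (β : Fin 4 → k) (v : Coord 1 5 → K) (i : Fin 3) :
    (∀ l, ddJ v (pcol l) (eqn (fun j => C (β j)) X 0 (i + 1)) = 0) ∧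
    (∀ l, ddJ v (pcol l) (eqn (fun j => C (β j)) X 0 (i + 2)) = 0) ∧
    ddJ v (pcol (i + 2)) (eqn (fun j => C (β j)) X 2 i) = mm v (i + 1) * xx v (i + 1) ∧
    ddJ v (pcol (i + 1)) (eqn (fun j => C (β j)) X 2 i) = mm v (i + 2) * xx v (i + 2) := by
  obtain rfl | rfl | rfl : i = 0 ∨ i = 1 ∨ i = 2 := by fin_cases i <;> simp
  · refine ⟨?_, ?_, ?_, ?_⟩
    · intro l
      fin_cases l <;>
      simp [eqn, EA, EB, EC, mm, xx, pp, gam, kap, xcol, pcol, ddJ_add, ddJ_mul, ddJ_X, ddJ_C, ddJ_sq]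
    · intro l
      fin_cases l <;>
      simp [eqn, EA, EB, EC, mm, xx, pp, gam, kap, xcol, pcol, ddJ_add, ddJ_mul, ddJ_X, ddJ_C, ddJ_sq]
    all_goals
      simp [eqn, EA, EB, EC, mm, xx, pp, gam, kap, xcol, pcol, ddJ_add, ddJ_mul, ddJ_X, ddJ_C, ddJ_sq]
  · refine ⟨?_, ?_, ?_, ?_⟩
    · intro l
      fin_cases l <;>
      simp [eqn, EA, EB, EC, mm, xx, pp, gam, kap, xcol, pcol, ddJ_add, ddJ_mul, ddJ_X, ddJ_C, ddJ_sq]
    · intro l
      fin_cases l <;>
      simp [eqn, EA, EB, EC, mm, xx, pp, gam, kap, xcol, pcol, ddJ_add, ddJ_mul, ddJ_X, ddJ_C, ddJ_sq]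
    all_goals
      simp [eqn, EA, EB, EC, mm, xx, pp, gam, kap, xcol, pcol, ddJ_add, ddJ_mul, ddJ_X, ddJ_C, ddJ_sq]
  · refine ⟨?_, ?_, ?_, ?_⟩
    · intro l
      fin_cases l <;>
      simp [eqn, EA, EB, EC, mm, xx, pp, gam, kap, xcol, pcol, ddJ_add, ddJ_mul, ddJ_X, ddJ_C, ddJ_sq]
    · intro l
      fin_cases l <;>
      simp [eqn, EA, EB, EC, mm, xx, pp, gam, kap, xcol, pcol, ddJ_add, ddJ_mul, ddJ_X, ddJ_C, ddJ_sq]
    all_goals
      simp [eqn, EA, EB, EC, mm, xx, pp, gam, kap, xcol, pcol, ddJ_add, ddJ_mul, ddJ_X, ddJ_C, ddJ_sq]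

/-- derivative of `EC i` in a left direction -/
theorem jacA_e4 {k K : Type} [Field k] [Field K] [Algebra k K] [CharP k 2] [CharP K 2]
    (β : Fin 4 → k) (v : Coord 1 5 → K) (i : Fin 3) (h1 : xx v (i + 1) = 0) (h2 : xx v (i + 2) = 0) :
    ddJ v (Sum.inl (![1, 1, 0] i)) (eqn (fun j => C (β j)) X 2 i) = xx v i ^ 2 := by
  obtain rfl | rfl | rfl : i = 0 ∨ i = 1 ∨ i = 2 := by fin_cases i <;> simp
  · simp only [xx] at h1 h2
    simp [-map_add] at h1 h2
    simp [eqn, EA, EB, EC, mm, xx, pp, gam, kap, xcol, pcol, ddJ_add, ddJ_mul, ddJ_X, ddJ_C, ddJ_sq,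
      h1, h2]
  · simp only [xx] at h1 h2
    simp [-map_add] at h1 h2
    simp [eqn, EA, EB, EC, mm, xx, pp, gam, kap, xcol, pcol, ddJ_add, ddJ_mul, ddJ_X, ddJ_C, ddJ_sq,
      h1, h2]
  · simp only [xx] at h1 h2
    simp [-map_add] at h1 h2
    simp [eqn, EA, EB, EC, mm, xx, pp, gam, kap, xcol, pcol, ddJ_add, ddJ_mul, ddJ_X, ddJ_C, ddJ_sq,
      h1, h2]

/-- Jacobian in the first kind of chart. -/
theorem jacA {k K : Type} [Field k] [Field K] [Algebra k K] [CharP k 2] [CharP K 2]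
    (β : Fin 4 → k) (v : Coord 1 5 → K) (i : Fin 3) (hl : ∃ i, v (Sum.inl i) ≠ 0)
    (hv : ∀ t i, eqn (fun j => algebraMap k K (β j)) v t i = 0)
    (hg : gam (fun j => algebraMap k K (β j)) v ≠ 0) (hx : xx v i ≠ 0) :
    ∃ s : Fin 4 → Coord 1 5, (Matrix.of fun a b => aeval v (pderiv (s b)
      ((![eqn (fun j => C (β j)) X 0 (i + 1), eqn (fun j => C (β j)) X 0 (i + 2),
        eqn (fun j => C (β j)) X 1 i, eqn (fun j => C (β j)) X 2 i] :
          Fin 4 → MvPolynomial (Coord 1 5) k) a))).det ≠ 0 := by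
  obtain ⟨e1, e2, e3, e4, e5, e6, e7⟩ := jacA_e1 (K := K) β v i
  obtain ⟨f1, f2, f3, f4⟩ := jacA_e3 (K := K) β v i
  have hgx : gam (fun j => algebraMap k K (β j)) v * xx v i ≠ 0 := mul_ne_zero hg hx
  by_cases c1 : mm v (i + 1) * xx v (i + 1) = 0
  · by_cases c2 : mm v (i + 2) * xx v (i + 2) = 0
    · have hA := hv 0
      have hC := hv 2 i
      simp only [eqn, Matrix.cons_val_zero, EA] at hA
      simp only [eqn, EC, Matrix.cons_val] at hC
      have hm : mm v i = 0 := by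
        have : mm v i * xx v i ^ 2 = 0 := by
          linear_combination hC - pp v (i + 2) * c1 - pp v (i + 1) * c2
        rcases mul_eq_zero.mp this with h | h
        · exact h
        · exact absurd (pow_eq_zero_iff (two_ne_zero) |>.mp h) hx
      have hmm : mm v (i + 1) ≠ 0 ∧ mm v (i + 2) ≠ 0 := by
        have h2 : (2 : K) = 0 := by exact_mod_cast CharP.cast_eq_zero K 2
        obtain ⟨l, hl⟩ := hl
        have key : ¬ (v (Sum.inl 0) = 0 ∧ v (Sum.inl 1) = 0) := by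
          rintro ⟨q0, q1⟩
          fin_cases l
          · exact hl q0
          · exact hl q1
        obtain rfl | rfl | rfl : i = 0 ∨ i = 1 ∨ i = 2 := by fin_cases i <;> simp
        · simp [mm] at hm ⊢
          constructor
          · intro h
            exact key ⟨by linear_combination h - hm, hm⟩
          · intro h
            exact key ⟨h, hm⟩
        · simp [mm] at hm ⊢
          constructor
          · intro h
            exact key ⟨h, by linear_combination hm - h⟩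
          · intro h
            exact key ⟨by linear_combination hm - h, h⟩
        · simp [mm] at hm ⊢
          constructor
          · intro h
            exact key ⟨hm, h⟩
          · intro h
            exact key ⟨hm, by linear_combination h - hm⟩
      have x1 : xx v (i + 1) = 0 := (mul_eq_zero.mp c1).resolve_left hmm.1
      have x2 : xx v (i + 2) = 0 := (mul_eq_zero.mp c2).resolve_left hmm.2
      have i3 : i + 1 + 2 = i := by fin_cases i <;> rfl
      have i4 : i + 2 + 1 = i := by fin_cases i <;> rfl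
      have i5 : i + 1 + 1 = i + 2 := by fin_cases i <;> rfl
      have i6 : i + 2 + 2 = i + 1 := by fin_cases i <;> rfl
      have p1 : pp v (i + 1) = 0 := by
        have h := hA (i + 1)
        rw [i5, i3, x1, x2] at h
        have : gam (fun j => algebraMap k K (β j)) v * pp v (i + 1) ^ 2 = 0 := by
          linear_combination h
        rcases mul_eq_zero.mp this with h | h
        · exact absurd h hg
        · exact pow_eq_zero_iff (two_ne_zero) |>.mp h
      have p2 : pp v (i + 2) = 0 := by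
        have h := hA (i + 2)
        rw [i4, i6, x1, x2] at h
        have : gam (fun j => algebraMap k K (β j)) v * pp v (i + 2) ^ 2 = 0 := by
          linear_combination h
        rcases mul_eq_zero.mp this with h | h
        · exact absurd h hg
        · exact pow_eq_zero_iff (two_ne_zero) |>.mp h
      refine ⟨![xcol (i + 2), xcol (i + 1), pcol i, Sum.inl (![1, 1, 0] i)],
        det4S v _ _ _ _ _ _ _ _ e1 e2 ?_ e3 ?_ e4 ?_ ?_ ?_ ?_⟩
      · exact jacA_e2 β v (i + 1) _ p1 (by rw [i5, x2, zero_mul]) x1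
      · exact jacA_e2 β v (i + 2) _ p2 (by rw [i6, x1, mul_zero]) x2
      · rw [e5]; exact hgx
      · rw [e6]; exact hgx
      · rw [e7]; exact hgx
      · rw [jacA_e4 β v i x1 x2]
        exact pow_ne_zero 2 hx
    · refine ⟨![xcol (i + 2), xcol (i + 1), pcol i, pcol (i + 1)],
        det4S v _ _ _ _ _ _ _ _ e1 e2 (f1 _) e3 (f2 _) e4 ?_ ?_ ?_ ?_⟩
      · rw [e5]; exact hgx
      · rw [e6]; exact hgx
      · rw [e7]; exact hgx
      · rw [f4]; exact c2
  · refine ⟨![xcol (i + 2), xcol (i + 1), pcol i, pcol (i + 2)],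
      det4S v _ _ _ _ _ _ _ _ e1 e2 (f1 _) e3 (f2 _) e4 ?_ ?_ ?_ ?_⟩
    · rw [e5]; exact hgx
    · rw [e6]; exact hgx
    · rw [e7]; exact hgx
    · rw [f3]; exact c1


theorem ddJ_gam {k K : Type} [Field k] [Field K] [Algebra k K]
    (β : Fin 4 → k) (v : Coord 1 5 → K) (L : Fin 4 → K)
    (hL : ∀ j, v (Sum.inl 1) + algebraMap k K (β j) * v (Sum.inl 0) = L j) :
    ddJ v (Sum.inl 1) (gam (fun j => C (β j)) X) =
      L 1 * L 2 * L 3 + L 0 * L 2 * L 3 + L 0 * L 1 * L 3 + L 0 * L 1 * L 2 := by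
  simp [gam, ddJ_add, ddJ_mul, ddJ_X, ddJ_C, hL]
  ring

theorem gamB {k K : Type} [Field k] [Field K] [Algebra k K] [CharP k 2] [CharP K 2]
    (β : Fin 4 → k) (hβ : Function.Injective β) (h0 : ∀ j, β j ≠ 0) (h1 : ∀ j, β j ≠ 1)
    (v : Coord 1 5 → K) (hl : ∃ i, v (Sum.inl i) ≠ 0)
    (hg : gam (fun j => algebraMap k K (β j)) v = 0) :
    ddJ v (Sum.inl 1) (gam (fun j => C (β j)) X) ≠ 0 ∧ ∀ l, mm v l ≠ 0 := by
  have h2 : (2 : K) = 0 := by exact_mod_cast CharP.cast_eq_zero K 2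
  obtain ⟨L, hL⟩ : ∃ L : Fin 4 → K, ∀ j, v (Sum.inl 1) + algebraMap k K (β j) * v (Sum.inl 0) = L j :=
    ⟨_, fun j => rfl⟩
  rw [ddJ_gam β v L hL]
  simp only [gam, hL] at hg
  obtain ⟨j, hj⟩ : ∃ j, L j = 0 := by
    rcases mul_eq_zero.mp hg with h | h
    · rcases mul_eq_zero.mp h with h | h
      · rcases mul_eq_zero.mp h with h | h
        · exact ⟨0, h⟩
        · exact ⟨1, h⟩
      · exact ⟨2, h⟩
    · exact ⟨3, h⟩
  have hb0 : v (Sum.inl 0) ≠ 0 := by
    intro h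
    have hj' := hL j
    rw [hj, h, mul_zero, add_zero] at hj'
    obtain ⟨i, hi⟩ := hl
    fin_cases i
    · exact hi h
    · exact hi hj'
  have hinj : Function.Injective (algebraMap k K) := (algebraMap k K).injective
  have hne : ∀ l, l ≠ j → L l ≠ 0 := by
    intro l hlj h
    have e : (algebraMap k K (β l) - algebraMap k K (β j)) * v (Sum.inl 0) = 0 := by
      linear_combination hL l - hL j + h - hj
    rcases mul_eq_zero.mp e with e | e
    · exact hlj (hβ (hinj (sub_eq_zero.mp e)))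
    · exact hb0 e
  refine ⟨?_, ?_⟩
  · obtain rfl | rfl | rfl | rfl : j = 0 ∨ j = 1 ∨ j = 2 ∨ j = 3 := by fin_cases j <;> simp
    · have := mul_ne_zero (mul_ne_zero (hne 1 (by decide)) (hne 2 (by decide))) (hne 3 (by decide))
      simpa [hj] using this
    · have := mul_ne_zero (mul_ne_zero (hne 0 (by decide)) (hne 2 (by decide))) (hne 3 (by decide))
      simpa [hj] using this
    · have := mul_ne_zero (mul_ne_zero (hne 0 (by decide)) (hne 1 (by decide))) (hne 3 (by decide))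
      simpa [hj] using this
    · have := mul_ne_zero (mul_ne_zero (hne 0 (by decide)) (hne 1 (by decide))) (hne 2 (by decide))
      simpa [hj] using this
  · have hj' := hL j
    rw [hj] at hj'
    intro l
    fin_cases l
    · show v (Sum.inl 1) ≠ 0
      intro h
      rw [h, zero_add] at hj'
      rcases mul_eq_zero.mp hj' with e | e
      · exact h0 j (hinj (by rw [e, map_zero]))
      · exact hb0 e
    · show v (Sum.inl 0) + v (Sum.inl 1) ≠ 0
      intro h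
      have e : (algebraMap k K (β j) - 1) * v (Sum.inl 0) = 0 := by
        linear_combination hj' - h
      rcases mul_eq_zero.mp e with e | e
      · exact h1 j (hinj (by rw [map_one]; exact sub_eq_zero.mp e))
      · exact hb0 e
    · exact hb0

theorem jacB_p {k K : Type} [Field k] [Field K] [Algebra k K] [CharP k 2] [CharP K 2]
    (β : Fin 4 → k) (v : Coord 1 5 → K) (i : Fin 3)
    (hx : ∀ j, xx v j = 0) :
    ddJ v (xcol (i + 1)) (eqn (fun j => C (β j)) X 2 (i + 1)) = 0 ∧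
    ddJ v (pcol i) (eqn (fun j => C (β j)) X 2 (i + 1)) = 0 ∧
    ddJ v (xcol (i + 1)) (eqn (fun j => C (β j)) X 3 0) = 0 ∧
    ddJ v (xcol (i + 2)) (eqn (fun j => C (β j)) X 2 (i + 1)) = mm v (i + 2) * pp v i ∧
    ddJ v (xcol (i + 1)) (eqn (fun j => C (β j)) X 2 (i + 2)) = mm v (i + 1) * pp v i ∧
    ddJ v (pcol i) (eqn (fun j => C (β j)) X 3 0) = mm v (i + 1) * mm v (i + 2) * pp v i ^ 2 := by
  have h0 := hx 0
  have h1 := hx 1
  have h2 := hx 2
  simp [xx] at h0 h1 h2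
  obtain rfl | rfl | rfl : i = 0 ∨ i = 1 ∨ i = 2 := by fin_cases i <;> simp
  · refine ⟨?_, ?_, ?_, ?_, ?_, ?_⟩ <;>
      simp [eqn, EA, EB, EC, ED, mm, xx, pp, xcol, pcol, ddJ_add, ddJ_mul, ddJ_X, ddJ_sq,
        ddJ_cube, h0, h1, h2]
  · refine ⟨?_, ?_, ?_, ?_, ?_, ?_⟩ <;>
      simp [eqn, EA, EB, EC, ED, mm, xx, pp, xcol, pcol, ddJ_add, ddJ_mul, ddJ_X, ddJ_sq,
        ddJ_cube, h0, h1, h2]
    ring_nf
    simp
  · refine ⟨?_, ?_, ?_, ?_, ?_, ?_⟩ <;>
      simp [eqn, EA, EB, EC, ED, mm, xx, pp, xcol, pcol, ddJ_add, ddJ_mul, ddJ_X, ddJ_sq,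
        ddJ_cube, h0, h1, h2]

theorem ddJ_kap {k K : Type} [Field k] [Field K] [Algebra k K] [CharP k 2] [CharP K 2]
    (v : Coord 1 5 → K) (s : Coord 1 5) :
    ddJ v s (kap (X : Coord 1 5 → MvPolynomial (Coord 1 5) k)) = 0 := by
  simp [kap, ddJ_sq]

theorem aev_gam {k K : Type} [Field k] [Field K] [Algebra k K] (β : Fin 4 → k)
    (v : Coord 1 5 → K) :
    aeval v (gam (fun j => C (β j)) (X : Coord 1 5 → MvPolynomial (Coord 1 5) k)) =
      gam (fun j => algebraMap k K (β j)) v := by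
  simp [gam]

theorem jacB_q {k K : Type} [Field k] [Field K] [Algebra k K] [CharP k 2] [CharP K 2]
    (β : Fin 4 → k) (v : Coord 1 5 → K) (i : Fin 3)
    (hx : ∀ j, xx v j = 0) (s : Coord 1 5) :
    ddJ v s (eqn (fun j => C (β j)) X 0 i) =
      ddJ v s (gam (fun j => C (β j)) X) * pp v i ^ 2 := by
  simp [eqn, EA, ddJ_add, ddJ_mul, ddJ_sq, ddJ_kap, aev_xx, aev_pp, aev_mm, hx]

theorem ddJ_gam_inr {k K : Type} [Field k] [Field K] [Algebra k K]
    (β : Fin 4 → k) (v : Coord 1 5 → K) (c : Fin 6) :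
    ddJ v (Sum.inr c) (gam (fun j => C (β j)) X) = 0 := by
  simp [gam, ddJ_add, ddJ_mul, ddJ_X, ddJ_C]

/-- Jacobian in the second kind of chart. -/
theorem jacB {k K : Type} [Field k] [Field K] [Algebra k K] [CharP k 2] [CharP K 2]
    (β : Fin 4 → k) (hβ : Function.Injective β) (h0 : ∀ j, β j ≠ 0) (h1 : ∀ j, β j ≠ 1)
    (v : Coord 1 5 → K) (i : Fin 3) (hl : ∃ i, v (Sum.inl i) ≠ 0)
    (hg : gam (fun j => algebraMap k K (β j)) v = 0) (hx : ∀ j, xx v j = 0)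
    (hp : pp v i ≠ 0) :
    ∃ s : Fin 4 → Coord 1 5, (Matrix.of fun a b => aeval v (pderiv (s b)
      ((![eqn (fun j => C (β j)) X 0 i, eqn (fun j => C (β j)) X 2 (i + 1),
        eqn (fun j => C (β j)) X 2 (i + 2), eqn (fun j => C (β j)) X 3 0] :
          Fin 4 → MvPolynomial (Coord 1 5) k) a))).det ≠ 0 := by
  obtain ⟨hG, hm⟩ := gamB β hβ h0 h1 v hl hg
  obtain ⟨e1, e2, e3, e4, e5, e6⟩ := jacB_p β v i hx
  have hq := jacB_q β v i hx
  refine ⟨![Sum.inl 1, xcol (i + 2), xcol (i + 1), pcol i],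
    det4S v _ _ _ _ _ _ _ _ ?_ ?_ ?_ e1 e2 e3 ?_ ?_ ?_ ?_⟩
  · rw [hq, xcol, ddJ_gam_inr, zero_mul]
  · rw [hq, xcol, ddJ_gam_inr, zero_mul]
  · rw [hq, pcol, ddJ_gam_inr, zero_mul]
  · rw [hq]; exact mul_ne_zero hG (pow_ne_zero 2 hp)
  · rw [e4]; exact mul_ne_zero (hm _) hp
  · rw [e5]; exact mul_ne_zero (hm _) hp
  · rw [e6]; exact mul_ne_zero (mul_ne_zero (hm _) (hm _)) (pow_ne_zero 2 hp)

end Pool.Agent.Helper553.Uni
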