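import Pool.Agent.Helper553.Uni.Surf

set_option autoImplicit false

open MvPolynomial

namespace Pool.Agent.Helper553.Uni



theorem um_EA0 {A : Type} [CommRing A] (h2 : (2 : A) = 0) (G : A) (B : Fin 2 → A) (u : Fin 3 → A)
    (hJ : (B 1 * u 0 ^ 3 + (B 0 + B 1) * u 1 ^ 3 + B 0 * u 2 ^ 3) = 0) :
    (G ^ 2) * (G * (u 1 * u 2) ^ 2 + B 0 ^ 2 * B 1 ^ 2 * u 0 ^ 4) ^ 2 + (G ^ 2) * ((G * u 1 ^ 4) * (G * u 2 ^ 4)) + ((B 0 ^ 2) ^ 2) * ((B 1) ^ 2) ^ 2 * (G * u 0 ^ 4) ^ 2 = 0 := by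
  linear_combination (0) * hJ + (G ^ 2 * (B 0) ^ 4 * (B 1) ^ 4 * (u 0) ^ 8 + G ^ 3 * (B 0) ^ 2 * (B 1) ^ 2 * (u 0) ^ 4 * (u 1) ^ 2 * (u 2) ^ 2 + G ^ 4 * (u 1) ^ 4 * (u 2) ^ 4) * h2

theorem um_EA1 {A : Type} [CommRing A] (h2 : (2 : A) = 0) (G : A) (B : Fin 2 → A) (u : Fin 3 → A)
    (hJ : (B 1 * u 0 ^ 3 + (B 0 + B 1) * u 1 ^ 3 + B 0 * u 2 ^ 3) = 0) :
    (G ^ 2) * (G * (u 2 * u 0) ^ 2 + B 0 ^ 2 * (B 0 ^ 2 + B 1 ^ 2) * u 1 ^ 4) ^ 2 + (G ^ 2) * ((G * u 2 ^ 4) * (G * u 0 ^ 4)) + ((B 0 ^ 2) ^ 2) * ((B 0) ^ 2 + (B 1) ^ 2) ^ 2 * (G * u 1 ^ 4) ^ 2 = 0 := by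
  linear_combination (0) * hJ + (G ^ 2 * (B 0) ^ 4 * (B 1) ^ 4 * (u 1) ^ 8 + (2) * G ^ 2 * (B 0) ^ 6 * (B 1) ^ 2 * (u 1) ^ 8 + G ^ 2 * (B 0) ^ 8 * (u 1) ^ 8 + G ^ 3 * (B 0) ^ 2 * (B 1) ^ 2 * (u 0) ^ 2 * (u 1) ^ 4 * (u 2) ^ 2 + G ^ 3 * (B 0) ^ 4 * (u 0) ^ 2 * (u 1) ^ 4 * (u 2) ^ 2 + G ^ 4 * (u 0) ^ 4 * (u 2) ^ 4) * h2

theorem um_EA2 {A : Type} [CommRing A] (h2 : (2 : A) = 0) (G : A) (B : Fin 2 → A) (u : Fin 3 → A)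
    (hJ : (B 1 * u 0 ^ 3 + (B 0 + B 1) * u 1 ^ 3 + B 0 * u 2 ^ 3) = 0) :
    (G ^ 2) * (G * (u 0 * u 1) ^ 2 + B 0 ^ 2 * B 0 ^ 2 * u 2 ^ 4) ^ 2 + (G ^ 2) * ((G * u 0 ^ 4) * (G * u 1 ^ 4)) + ((B 0 ^ 2) ^ 2) * ((B 0) ^ 2) ^ 2 * (G * u 2 ^ 4) ^ 2 = 0 := by
  linear_combination (0) * hJ + (G ^ 2 * (B 0) ^ 8 * (u 2) ^ 8 + G ^ 3 * (B 0) ^ 4 * (u 0) ^ 2 * (u 1) ^ 2 * (u 2) ^ 4 + G ^ 4 * (u 0) ^ 4 * (u 1) ^ 4) * h2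

theorem um_EB0 {A : Type} [CommRing A] (h2 : (2 : A) = 0) (G : A) (B : Fin 2 → A) (u : Fin 3 → A)
    (hJ : (B 1 * u 0 ^ 3 + (B 0 + B 1) * u 1 ^ 3 + B 0 * u 2 ^ 3) = 0) :
    (G ^ 2) * ((G * (u 2 * u 0) ^ 2 + B 0 ^ 2 * (B 0 ^ 2 + B 1 ^ 2) * u 1 ^ 4) * (G * (u 0 * u 1) ^ 2 + B 0 ^ 2 * B 0 ^ 2 * u 2 ^ 4)) + (G ^ 2) * ((G * u 0 ^ 4) * (G * (u 1 * u 2) ^ 2 + B 0 ^ 2 * B 1 ^ 2 * u 0 ^ 4)) + ((B 0 ^ 2) ^ 2) * (((B 0) ^ 2 + (B 1) ^ 2) * ((B 0) ^ 2)) * ((G * u 1 ^ 4) * (G * u 2 ^ 4)) = 0 := by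
  linear_combination ((G ^ 3 * B 0 ^ 2 * u 0 ^ 2) * (B 1 * u 0 ^ 3 + (B 0 + B 1) * u 1 ^ 3 + B 0 * u 2 ^ 3)) * hJ + (G ^ 2 * (B 0) ^ 6 * (B 1) ^ 2 * (u 1) ^ 4 * (u 2) ^ 4 + G ^ 2 * (B 0) ^ 8 * (u 1) ^ 4 * (u 2) ^ 4 + (-1) * G ^ 3 * (B 0) ^ 2 * (B 1) ^ 2 * (u 0) ^ 5 * (u 1) ^ 3 + (-1) * G ^ 3 * (B 0) ^ 3 * (B 1) * (u 0) ^ 2 * (u 1) ^ 3 * (u 2) ^ 3 + (-1) * G ^ 3 * (B 0) ^ 3 * (B 1) * (u 0) ^ 2 * (u 1) ^ 6 + (-1) * G ^ 3 * (B 0) ^ 3 * (B 1) * (u 0) ^ 5 * (u 2) ^ 3 + (-1) * G ^ 3 * (B 0) ^ 3 * (B 1) * (u 0) ^ 5 * (u 1) ^ 3 + (-1) * G ^ 3 * (B 0) ^ 4 * (u 0) ^ 2 * (u 1) ^ 3 * (u 2) ^ 3 + G ^ 4 * (u 0) ^ 4 * (u 1) ^ 2 * (u 2) ^ 2) * h2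

theorem um_EB1 {A : Type} [CommRing A] (h2 : (2 : A) = 0) (G : A) (B : Fin 2 → A) (u : Fin 3 → A)
    (hJ : (B 1 * u 0 ^ 3 + (B 0 + B 1) * u 1 ^ 3 + B 0 * u 2 ^ 3) = 0) :
    (G ^ 2) * ((G * (u 0 * u 1) ^ 2 + B 0 ^ 2 * B 0 ^ 2 * u 2 ^ 4) * (G * (u 1 * u 2) ^ 2 + B 0 ^ 2 * B 1 ^ 2 * u 0 ^ 4)) + (G ^ 2) * ((G * u 1 ^ 4) * (G * (u 2 * u 0) ^ 2 + B 0 ^ 2 * (B 0 ^ 2 + B 1 ^ 2) * u 1 ^ 4)) + ((B 0 ^ 2) ^ 2) * (((B 0) ^ 2) * ((B 1) ^ 2)) * ((G * u 2 ^ 4) * (G * u 0 ^ 4)) = 0 := by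
  linear_combination ((G ^ 3 * B 0 ^ 2 * u 1 ^ 2) * (B 1 * u 0 ^ 3 + (B 0 + B 1) * u 1 ^ 3 + B 0 * u 2 ^ 3)) * hJ + (G ^ 2 * (B 0) ^ 6 * (B 1) ^ 2 * (u 0) ^ 4 * (u 2) ^ 4 + (-1) * G ^ 3 * (B 0) ^ 2 * (B 1) ^ 2 * (u 0) ^ 3 * (u 1) ^ 5 + (-1) * G ^ 3 * (B 0) ^ 3 * (B 1) * (u 1) ^ 5 * (u 2) ^ 3 + (-1) * G ^ 3 * (B 0) ^ 3 * (B 1) * (u 1) ^ 8 + (-1) * G ^ 3 * (B 0) ^ 3 * (B 1) * (u 0) ^ 3 * (u 1) ^ 2 * (u 2) ^ 3 + (-1) * G ^ 3 * (B 0) ^ 3 * (B 1) * (u 0) ^ 3 * (u 1) ^ 5 + (-1) * G ^ 3 * (B 0) ^ 4 * (u 1) ^ 5 * (u 2) ^ 3 + G ^ 4 * (u 0) ^ 2 * (u 1) ^ 4 * (u 2) ^ 2) * h2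

theorem um_EB2 {A : Type} [CommRing A] (h2 : (2 : A) = 0) (G : A) (B : Fin 2 → A) (u : Fin 3 → A)
    (hJ : (B 1 * u 0 ^ 3 + (B 0 + B 1) * u 1 ^ 3 + B 0 * u 2 ^ 3) = 0) :
    (G ^ 2) * ((G * (u 1 * u 2) ^ 2 + B 0 ^ 2 * B 1 ^ 2 * u 0 ^ 4) * (G * (u 2 * u 0) ^ 2 + B 0 ^ 2 * (B 0 ^ 2 + B 1 ^ 2) * u 1 ^ 4)) + (G ^ 2) * ((G * u 2 ^ 4) * (G * (u 0 * u 1) ^ 2 + B 0 ^ 2 * B 0 ^ 2 * u 2 ^ 4)) + ((B 0 ^ 2) ^ 2) * (((B 1) ^ 2) * ((B 0) ^ 2 + (B 1) ^ 2)) * ((G * u 0 ^ 4) * (G * u 1 ^ 4)) = 0 := by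
  linear_combination ((G ^ 3 * B 0 ^ 2 * u 2 ^ 2) * (B 1 * u 0 ^ 3 + (B 0 + B 1) * u 1 ^ 3 + B 0 * u 2 ^ 3)) * hJ + (G ^ 2 * (B 0) ^ 4 * (B 1) ^ 4 * (u 0) ^ 4 * (u 1) ^ 4 + G ^ 2 * (B 0) ^ 6 * (B 1) ^ 2 * (u 0) ^ 4 * (u 1) ^ 4 + (-1) * G ^ 3 * (B 0) ^ 2 * (B 1) ^ 2 * (u 0) ^ 3 * (u 1) ^ 3 * (u 2) ^ 2 + (-1) * G ^ 3 * (B 0) ^ 3 * (B 1) * (u 1) ^ 3 * (u 2) ^ 5 + (-1) * G ^ 3 * (B 0) ^ 3 * (B 1) * (u 1) ^ 6 * (u 2) ^ 2 + (-1) * G ^ 3 * (B 0) ^ 3 * (B 1) * (u 0) ^ 3 * (u 2) ^ 5 + (-1) * G ^ 3 * (B 0) ^ 3 * (B 1) * (u 0) ^ 3 * (u 1) ^ 3 * (u 2) ^ 2 + (-1) * G ^ 3 * (B 0) ^ 4 * (u 1) ^ 3 * (u 2) ^ 5 + G ^ 4 * (u 0) ^ 2 * (u 1) ^ 2 * (u 2) ^ 4) * h2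

theorem um_EC0 {A : Type} [CommRing A] (h2 : (2 : A) = 0) (G : A) (B : Fin 2 → A) (u : Fin 3 → A)
    (hJ : (B 1 * u 0 ^ 3 + (B 0 + B 1) * u 1 ^ 3 + B 0 * u 2 ^ 3) = 0) :
    ((B 1) ^ 2) * (G * u 0 ^ 4) ^ 2 + ((B 0) ^ 2 + (B 1) ^ 2) * ((G * u 1 ^ 4) * (G * (u 0 * u 1) ^ 2 + B 0 ^ 2 * B 0 ^ 2 * u 2 ^ 4)) + ((B 0) ^ 2) * ((G * u 2 ^ 4) * (G * (u 2 * u 0) ^ 2 + B 0 ^ 2 * (B 0 ^ 2 + B 1 ^ 2) * u 1 ^ 4)) = 0 := by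
  linear_combination ((G ^ 2 * u 0 ^ 2) * (B 1 * u 0 ^ 3 + (B 0 + B 1) * u 1 ^ 3 + B 0 * u 2 ^ 3)) * hJ + (G * (B 0) ^ 4 * (B 1) ^ 2 * (u 1) ^ 4 * (u 2) ^ 4 + G * (B 0) ^ 6 * (u 1) ^ 4 * (u 2) ^ 4 + (-1) * G ^ 2 * (B 1) ^ 2 * (u 0) ^ 5 * (u 1) ^ 3 + (-1) * G ^ 2 * (B 0) * (B 1) * (u 0) ^ 2 * (u 1) ^ 3 * (u 2) ^ 3 + (-1) * G ^ 2 * (B 0) * (B 1) * (u 0) ^ 2 * (u 1) ^ 6 + (-1) * G ^ 2 * (B 0) * (B 1) * (u 0) ^ 5 * (u 2) ^ 3 + (-1) * G ^ 2 * (B 0) * (B 1) * (u 0) ^ 5 * (u 1) ^ 3 + (-1) * G ^ 2 * (B 0) ^ 2 * (u 0) ^ 2 * (u 1) ^ 3 * (u 2) ^ 3) * h2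

theorem um_EC1 {A : Type} [CommRing A] (h2 : (2 : A) = 0) (G : A) (B : Fin 2 → A) (u : Fin 3 → A)
    (hJ : (B 1 * u 0 ^ 3 + (B 0 + B 1) * u 1 ^ 3 + B 0 * u 2 ^ 3) = 0) :
    ((B 0) ^ 2 + (B 1) ^ 2) * (G * u 1 ^ 4) ^ 2 + ((B 0) ^ 2) * ((G * u 2 ^ 4) * (G * (u 1 * u 2) ^ 2 + B 0 ^ 2 * B 1 ^ 2 * u 0 ^ 4)) + ((B 1) ^ 2) * ((G * u 0 ^ 4) * (G * (u 0 * u 1) ^ 2 + B 0 ^ 2 * B 0 ^ 2 * u 2 ^ 4)) = 0 := by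
  linear_combination ((G ^ 2 * u 1 ^ 2) * (B 1 * u 0 ^ 3 + (B 0 + B 1) * u 1 ^ 3 + B 0 * u 2 ^ 3)) * hJ + (G * (B 0) ^ 4 * (B 1) ^ 2 * (u 0) ^ 4 * (u 2) ^ 4 + (-1) * G ^ 2 * (B 1) ^ 2 * (u 0) ^ 3 * (u 1) ^ 5 + (-1) * G ^ 2 * (B 0) * (B 1) * (u 1) ^ 5 * (u 2) ^ 3 + (-1) * G ^ 2 * (B 0) * (B 1) * (u 1) ^ 8 + (-1) * G ^ 2 * (B 0) * (B 1) * (u 0) ^ 3 * (u 1) ^ 2 * (u 2) ^ 3 + (-1) * G ^ 2 * (B 0) * (B 1) * (u 0) ^ 3 * (u 1) ^ 5 + (-1) * G ^ 2 * (B 0) ^ 2 * (u 1) ^ 5 * (u 2) ^ 3) * h2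

theorem um_EC2 {A : Type} [CommRing A] (h2 : (2 : A) = 0) (G : A) (B : Fin 2 → A) (u : Fin 3 → A)
    (hJ : (B 1 * u 0 ^ 3 + (B 0 + B 1) * u 1 ^ 3 + B 0 * u 2 ^ 3) = 0) :
    ((B 0) ^ 2) * (G * u 2 ^ 4) ^ 2 + ((B 1) ^ 2) * ((G * u 0 ^ 4) * (G * (u 2 * u 0) ^ 2 + B 0 ^ 2 * (B 0 ^ 2 + B 1 ^ 2) * u 1 ^ 4)) + ((B 0) ^ 2 + (B 1) ^ 2) * ((G * u 1 ^ 4) * (G * (u 1 * u 2) ^ 2 + B 0 ^ 2 * B 1 ^ 2 * u 0 ^ 4)) = 0 := by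
  linear_combination ((G ^ 2 * u 2 ^ 2) * (B 1 * u 0 ^ 3 + (B 0 + B 1) * u 1 ^ 3 + B 0 * u 2 ^ 3)) * hJ + (G * (B 0) ^ 2 * (B 1) ^ 4 * (u 0) ^ 4 * (u 1) ^ 4 + G * (B 0) ^ 4 * (B 1) ^ 2 * (u 0) ^ 4 * (u 1) ^ 4 + (-1) * G ^ 2 * (B 1) ^ 2 * (u 0) ^ 3 * (u 1) ^ 3 * (u 2) ^ 2 + (-1) * G ^ 2 * (B 0) * (B 1) * (u 1) ^ 3 * (u 2) ^ 5 + (-1) * G ^ 2 * (B 0) * (B 1) * (u 1) ^ 6 * (u 2) ^ 2 + (-1) * G ^ 2 * (B 0) * (B 1) * (u 0) ^ 3 * (u 2) ^ 5 + (-1) * G ^ 2 * (B 0) * (B 1) * (u 0) ^ 3 * (u 1) ^ 3 * (u 2) ^ 2 + (-1) * G ^ 2 * (B 0) ^ 2 * (u 1) ^ 3 * (u 2) ^ 5) * h2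

theorem um_ED0 {A : Type} [CommRing A] (h2 : (2 : A) = 0) (G : A) (B : Fin 2 → A) (u : Fin 3 → A)
    (hJ : (B 1 * u 0 ^ 3 + (B 0 + B 1) * u 1 ^ 3 + B 0 * u 2 ^ 3) = 0) :
    ((B 0) ^ 2 + (B 1) ^ 2) * ((B 0) ^ 2) * (G * (u 1 * u 2) ^ 2 + B 0 ^ 2 * B 1 ^ 2 * u 0 ^ 4) ^ 3 + ((B 1) ^ 2) * ((B 0) ^ 2) * (G * (u 2 * u 0) ^ 2 + B 0 ^ 2 * (B 0 ^ 2 + B 1 ^ 2) * u 1 ^ 4) ^ 3 + ((B 1) ^ 2) * ((B 0) ^ 2 + (B 1) ^ 2) * (G * (u 0 * u 1) ^ 2 + B 0 ^ 2 * B 0 ^ 2 * u 2 ^ 4) ^ 3 + ((B 0) ^ 2 + (B 1) ^ 2) * ((B 0) ^ 2) * ((G * u 1 ^ 4) * (G * u 2 ^ 4)) * (G * (u 1 * u 2) ^ 2 + B 0 ^ 2 * B 1 ^ 2 * u 0 ^ 4) + ((B 1) ^ 2) * ((B 0) ^ 2) * ((G * u 0 ^ 4) * (G * u 2 ^ 4)) * (G * (u 2 * u 0) ^ 2 + B 0 ^ 2 * (B 0 ^ 2 + B 1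 ^ 2) * u 1 ^ 4) + ((B 1) ^ 2) * ((B 0) ^ 2 + (B 1) ^ 2) * ((G * u 0 ^ 4) * (G * u 1 ^ 4)) * (G * (u 0 * u 1) ^ 2 + B 0 ^ 2 * B 0 ^ 2 * u 2 ^ 4) = 0 := by
  linear_combination ((B 0 ^ 4 * (((B 1) ^ 2) * ((B 0) ^ 2 + (B 1) ^ 2) * ((B 0) ^ 2)) * (G * (u 0 * u 1 * u 2) ^ 2 + B 0 ^ 2 * (B 1 * u 0 ^ 3 + (B 0 + B 1) * u 1 ^ 3 + B 0 * u 2 ^ 3) ^ 2)) * (B 1 * u 0 ^ 3 + (B 0 + B 1) * u 1 ^ 3 + B 0 * u 2 ^ 3)) * hJ + ((-2) * (B 0) ^ 8 * (B 1) ^ 8 * (u 0) ^ 3 * (u 1) ^ 9 + (-3) * (B 0) ^ 8 * (B 1) ^ 8 * (u 0) ^ 6 * (u 1) ^ 6 + (-2) * (B 0) ^ 8 * (B 1) ^ 8 * (u 0) ^ 9 * (u 1) ^ 3 + (-2) * (B 0) ^ 9 * (B 1) ^ 7 * (u 1) ^ 9 * (u 2) ^ 3 + (-2) * (B 0) ^ 9 * (B 1) ^ 7 * (u 1) ^ 12 + (-6) * (B 0) ^ 9 * (B 1) ^ 7 * (u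 0) ^ 3 * (u 1) ^ 6 * (u 2) ^ 3 + (-6) * (B 0) ^ 9 * (B 1) ^ 7 * (u 0) ^ 3 * (u 1) ^ 9 + (-6) * (B 0) ^ 9 * (B 1) ^ 7 * (u 0) ^ 6 * (u 1) ^ 3 * (u 2) ^ 3 + (-6) * (B 0) ^ 9 * (B 1) ^ 7 * (u 0) ^ 6 * (u 1) ^ 6 + (-2) * (B 0) ^ 9 * (B 1) ^ 7 * (u 0) ^ 9 * (u 2) ^ 3 + (-2) * (B 0) ^ 9 * (B 1) ^ 7 * (u 0) ^ 9 * (u 1) ^ 3 + (-3) * (B 0) ^ 10 * (B 1) ^ 6 * (u 1) ^ 6 * (u 2) ^ 6 + (-6) * (B 0) ^ 10 * (B 1) ^ 6 * (u 1) ^ 9 * (u 2) ^ 3 + (-2) * (B 0) ^ 10 * (B 1) ^ 6 * (u 1) ^ 12 + (-6) * (B 0) ^ 10 * (B 1) ^ 6 * (u 0) ^ 3 * (u 1) ^ 3 * (u 2) ^ 6 + (-12) * (B 0) ^ 10 * (B 1) ^ 6 * (u 0) ^ 3 * (u 1) ^ 6 * (u 2) ^ 3 + (-8) * (B 0) ^ 10 * (B 1) ^ 6 * (u 0) ^ 3 * (u 1) ^ 9 + (-3) * (B 0) ^ 10 * (B 1) ^ 6 * (u 0)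 ^ 6 * (u 2) ^ 6 + (-6) * (B 0) ^ 10 * (B 1) ^ 6 * (u 0) ^ 6 * (u 1) ^ 3 * (u 2) ^ 3 + (-6) * (B 0) ^ 10 * (B 1) ^ 6 * (u 0) ^ 6 * (u 1) ^ 6 + (-2) * (B 0) ^ 10 * (B 1) ^ 6 * (u 0) ^ 9 * (u 1) ^ 3 + (-2) * (B 0) ^ 11 * (B 1) ^ 5 * (u 1) ^ 3 * (u 2) ^ 9 + (-6) * (B 0) ^ 11 * (B 1) ^ 5 * (u 1) ^ 6 * (u 2) ^ 6 + (-8) * (B 0) ^ 11 * (B 1) ^ 5 * (u 1) ^ 9 * (u 2) ^ 3 + (-4) * (B 0) ^ 11 * (B 1) ^ 5 * (u 1) ^ 12 + (-2) * (B 0) ^ 11 * (B 1) ^ 5 * (u 0) ^ 3 * (u 2) ^ 9 + (-6) * (B 0) ^ 11 * (B 1) ^ 5 * (u 0) ^ 3 * (u 1) ^ 3 * (u 2) ^ 6 + (-12) * (B 0) ^ 11 * (B 1) ^ 5 * (u 0) ^ 3 * (u 1) ^ 6 * (u 2) ^ 3 + (-8) * (B 0) ^ 11 * (B 1) ^ 5 * (u 0) ^ 3 * (u 1) ^ 9 + (-6) * (B 0) ^ 11 * (B 1) ^ 5 * (u 0) ^ 6 * (u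 1) ^ 3 * (u 2) ^ 3 + (-6) * (B 0) ^ 11 * (B 1) ^ 5 * (u 0) ^ 6 * (u 1) ^ 6 + (-2) * (B 0) ^ 11 * (B 1) ^ 5 * (u 0) ^ 9 * (u 2) ^ 3 + (-2) * (B 0) ^ 11 * (B 1) ^ 5 * (u 0) ^ 9 * (u 1) ^ 3 + (-2) * (B 0) ^ 12 * (B 1) ^ 4 * (u 1) ^ 3 * (u 2) ^ 9 + (-6) * (B 0) ^ 12 * (B 1) ^ 4 * (u 1) ^ 6 * (u 2) ^ 6 + (-8) * (B 0) ^ 12 * (B 1) ^ 4 * (u 1) ^ 9 * (u 2) ^ 3 + (-2) * (B 0) ^ 12 * (B 1) ^ 4 * (u 1) ^ 12 + (-6) * (B 0) ^ 12 * (B 1) ^ 4 * (u 0) ^ 3 * (u 1) ^ 3 * (u 2) ^ 6 + (-12) * (B 0) ^ 12 * (B 1) ^ 4 * (u 0) ^ 3 * (u 1) ^ 6 * (u 2) ^ 3 + (-6) * (B 0) ^ 12 * (B 1) ^ 4 * (u 0) ^ 3 * (u 1) ^ 9 + (-3) * (B 0) ^ 12 * (B 1) ^ 4 * (u 0) ^ 6 * (u 2) ^ 6 + (-6) * (B 0) ^ 12 * (B 1) ^ 4 * (u 0) ^ 6 * (u 1) ^ 3 *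 (u 2) ^ 3 + (-3) * (B 0) ^ 12 * (B 1) ^ 4 * (u 0) ^ 6 * (u 1) ^ 6 + (-2) * (B 0) ^ 13 * (B 1) ^ 3 * (u 1) ^ 3 * (u 2) ^ 9 + (-6) * (B 0) ^ 13 * (B 1) ^ 3 * (u 1) ^ 6 * (u 2) ^ 6 + (-6) * (B 0) ^ 13 * (B 1) ^ 3 * (u 1) ^ 9 * (u 2) ^ 3 + (-2) * (B 0) ^ 13 * (B 1) ^ 3 * (u 1) ^ 12 + (-2) * (B 0) ^ 13 * (B 1) ^ 3 * (u 0) ^ 3 * (u 2) ^ 9 + (-6) * (B 0) ^ 13 * (B 1) ^ 3 * (u 0) ^ 3 * (u 1) ^ 3 * (u 2) ^ 6 + (-6) * (B 0) ^ 13 * (B 1) ^ 3 * (u 0) ^ 3 * (u 1) ^ 6 * (u 2) ^ 3 + (-2) * (B 0) ^ 13 * (B 1) ^ 3 * (u 0) ^ 3 * (u 1) ^ 9 + (-2) * (B 0) ^ 14 * (B 1) ^ 2 * (u 1) ^ 3 * (u 2) ^ 9 + (-3) * (B 0) ^ 14 * (B 1) ^ 2 * (u 1) ^ 6 * (u 2) ^ 6 + (-2) * (B 0) ^ 14 * (B 1) ^ 2 * (u 1) ^ 9 * (u 2) ^ 3 + G * (B 0)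 ^ 6 * (B 1) ^ 6 * (u 0) ^ 2 * (u 1) ^ 8 * (u 2) ^ 2 + (-1) * G * (B 0) ^ 6 * (B 1) ^ 6 * (u 0) ^ 5 * (u 1) ^ 5 * (u 2) ^ 2 + G * (B 0) ^ 6 * (B 1) ^ 6 * (u 0) ^ 8 * (u 1) ^ 2 * (u 2) ^ 2 + (-1) * G * (B 0) ^ 7 * (B 1) ^ 5 * (u 0) ^ 2 * (u 1) ^ 5 * (u 2) ^ 5 + (-1) * G * (B 0) ^ 7 * (B 1) ^ 5 * (u 0) ^ 2 * (u 1) ^ 8 * (u 2) ^ 2 + (-1) * G * (B 0) ^ 7 * (B 1) ^ 5 * (u 0) ^ 5 * (u 1) ^ 2 * (u 2) ^ 5 + (-1) * G * (B 0) ^ 7 * (B 1) ^ 5 * (u 0) ^ 5 * (u 1) ^ 5 * (u 2) ^ 2 + G * (B 0) ^ 8 * (B 1) ^ 4 * (u 0) ^ 2 * (u 1) ^ 2 * (u 2) ^ 8 + (-1) * G * (B 0) ^ 8 * (B 1) ^ 4 * (u 0) ^ 2 * (u 1) ^ 5 * (u 2) ^ 5 + (2) * G * (B 0) ^ 8 * (B 1) ^ 4 * (u 0) ^ 2 * (u 1) ^ 8 * (u 2) ^ 2 + (-1) * G * (B 0) ^ 8 * (B 1)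 ^ 4 * (u 0) ^ 5 * (u 1) ^ 5 * (u 2) ^ 2 + G * (B 0) ^ 8 * (B 1) ^ 4 * (u 0) ^ 8 * (u 1) ^ 2 * (u 2) ^ 2 + (-1) * G * (B 0) ^ 9 * (B 1) ^ 3 * (u 0) ^ 2 * (u 1) ^ 5 * (u 2) ^ 5 + (-1) * G * (B 0) ^ 9 * (B 1) ^ 3 * (u 0) ^ 2 * (u 1) ^ 8 * (u 2) ^ 2 + (-1) * G * (B 0) ^ 9 * (B 1) ^ 3 * (u 0) ^ 5 * (u 1) ^ 2 * (u 2) ^ 5 + (-1) * G * (B 0) ^ 9 * (B 1) ^ 3 * (u 0) ^ 5 * (u 1) ^ 5 * (u 2) ^ 2 + G * (B 0) ^ 10 * (B 1) ^ 2 * (u 0) ^ 2 * (u 1) ^ 2 * (u 2) ^ 8 + (-1) * G * (B 0) ^ 10 * (B 1) ^ 2 * (u 0) ^ 2 * (u 1) ^ 5 * (u 2) ^ 5 + G * (B 0) ^ 10 * (B 1) ^ 2 * (u 0) ^ 2 * (u 1) ^ 8 * (u 2) ^ 2 + (6) * G ^ 2 * (B 0) ^ 4 * (B 1) ^ 4 * (u 0) ^ 4 * (u 1) ^ 4 * (u 2) ^ 4 + (6) * G ^ 2 * (B 0) ^ 6 * (B 1) ^ 2 * (u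 0) ^ 4 * (u 1) ^ 4 * (u 2) ^ 4 + G ^ 3 * (B 1) ^ 4 * (u 0) ^ 6 * (u 1) ^ 6 + G ^ 3 * (B 0) ^ 2 * (B 1) ^ 2 * (u 1) ^ 6 * (u 2) ^ 6 + G ^ 3 * (B 0) ^ 2 * (B 1) ^ 2 * (u 0) ^ 6 * (u 2) ^ 6 + G ^ 3 * (B 0) ^ 2 * (B 1) ^ 2 * (u 0) ^ 6 * (u 1) ^ 6 + G ^ 3 * (B 0) ^ 4 * (u 1) ^ 6 * (u 2) ^ 6) * h2

theorem um_gam {A : Type} [CommRing A] (h2 : (2 : A) = 0) (r : Fin 4 → A) (B : Fin 2 → A)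
    (u : Fin 3 → A) : gam (fun j => r j ^ 2) (par r B u) = (GG r B) ^ 2 := by
  have h : ∀ j, B 1 ^ 2 + r j ^ 2 * B 0 ^ 2 = (B 1 + r j * B 0) ^ 2 := by
    intro j
    linear_combination (-(r j * B 0 * B 1)) * h2
  show (B 1 ^ 2 + r 0 ^ 2 * B 0 ^ 2) * (B 1 ^ 2 + r 1 ^ 2 * B 0 ^ 2) *
    (B 1 ^ 2 + r 2 ^ 2 * B 0 ^ 2) * (B 1 ^ 2 + r 3 ^ 2 * B 0 ^ 2) = _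
  rw [h, h, h, h]
  unfold GG
  ring

/-- The parametrisation satisfies the ten equations. -/
theorem par_eqn {A : Type} [CommRing A] (h2 : (2 : A) = 0) (r : Fin 4 → A) (B : Fin 2 → A)
    (u : Fin 3 → A) (hJ : JJ B u = 0) (t : Fin 4) (i : Fin 3) :
    eqn (fun j => r j ^ 2) (par r B u) t i = 0 := by
  have hg := um_gam h2 r B u
  have hJ' : B 1 * u 0 ^ 3 + (B 0 + B 1) * u 1 ^ 3 + B 0 * u 2 ^ 3 = 0 := hJ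
  fin_cases t
  · show EA (gam (fun j => r j ^ 2) (par r B u)) (kap (par r B u)) (mm (par r B u))
      (xx (par r B u)) (pp (par r B u)) i = 0
    rw [hg]
    fin_cases i
    · exact um_EA0 h2 (GG r B) B u hJ'
    · exact um_EA1 h2 (GG r B) B u hJ'
    · exact um_EA2 h2 (GG r B) B u hJ'
  · show EB (gam (fun j => r j ^ 2) (par r B u)) (kap (par r B u)) (mm (par r B u))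
      (xx (par r B u)) (pp (par r B u)) i = 0
    rw [hg]
    fin_cases i
    · exact um_EB0 h2 (GG r B) B u hJ'
    · exact um_EB1 h2 (GG r B) B u hJ'
    · exact um_EB2 h2 (GG r B) B u hJ'
  · show EC (mm (par r B u)) (xx (par r B u)) (pp (par r B u)) i = 0
    fin_cases i
    · exact um_EC0 h2 (GG r B) B u hJ'
    · exact um_EC1 h2 (GG r B) B u hJ'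
    · exact um_EC2 h2 (GG r B) B u hJ'
  · show ED (mm (par r B u)) (xx (par r B u)) (pp (par r B u)) = 0
    exact um_ED0 h2 (GG r B) B u hJ'

/-- The values of the parametrisation have nonzero blocks. -/
theorem par_ne {K : Type} [Field K] [CharP K 2] (r : Fin 4 → K)
    (h0 : ∀ j, r j ≠ 0) (h1 : ∀ j, r j ≠ 1) (B : Fin 2 → K) (u : Fin 3 → K) (hB : B ≠ 0)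
    (hu : u ≠ 0) :
    (∃ i, par r B u (Sum.inl i) ≠ 0) ∧ ∃ j, par r B u (Sum.inr j) ≠ 0 := by
  have h2 : (2 : K) = 0 := by
    have := CharP.cast_eq_zero K 2
    exact_mod_cast this
  constructor
  · by_contra hcon
    push Not at hcon
    apply hB
    funext i
    fin_cases i
    · have h : B 0 ^ 2 = 0 := hcon 0
      exact pow_eq_zero_iff (two_ne_zero) |>.1 h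
    · have h : B 1 ^ 2 = 0 := hcon 1
      exact pow_eq_zero_iff (two_ne_zero) |>.1 h
  · by_contra hcon
    push Not at hcon
    have c0 : GG r B * u 0 ^ 4 = 0 := hcon 0
    have c1 : GG r B * u 1 ^ 4 = 0 := hcon 1
    have c2 : GG r B * u 2 ^ 4 = 0 := hcon 2
    have c3 : GG r B * (u 1 * u 2) ^ 2 + B 0 ^ 2 * B 1 ^ 2 * u 0 ^ 4 = 0 := hcon 3
    have c4 : GG r B * (u 2 * u 0) ^ 2 + B 0 ^ 2 * (B 0 ^ 2 + B 1 ^ 2) * u 1 ^ 4 = 0 := hcon 4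
    have c5 : GG r B * (u 0 * u 1) ^ 2 + B 0 ^ 2 * B 0 ^ 2 * u 2 ^ 4 = 0 := hcon 5
    have hG : GG r B = 0 := by
      by_contra hG
      apply hu
      funext i
      fin_cases i
      · exact pow_eq_zero_iff (by norm_num) |>.1 ((mul_eq_zero.1 c0).resolve_left hG)
      · exact pow_eq_zero_iff (by norm_num) |>.1 ((mul_eq_zero.1 c1).resolve_left hG)
      · exact pow_eq_zero_iff (by norm_num) |>.1 ((mul_eq_zero.1 c2).resolve_left hG)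
    rw [hG, zero_mul, zero_add] at c3 c4 c5
    obtain ⟨j, hj⟩ : ∃ j, B 1 + r j * B 0 = 0 := by
      unfold GG at hG
      rcases mul_eq_zero.1 hG with h | h
      · rcases mul_eq_zero.1 h with h | h
        · rcases mul_eq_zero.1 h with h | h
          · exact ⟨0, h⟩
          · exact ⟨1, h⟩
        · exact ⟨2, h⟩
      · exact ⟨3, h⟩
    have hB0 : B 0 ≠ 0 := by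
      intro h
      apply hB
      rw [h, mul_zero, add_zero] at hj
      funext i
      fin_cases i
      · exact h
      · exact hj
    have hB1 : B 1 = r j * B 0 := by linear_combination hj - (r j * B 0) * h2
    have hB1' : B 1 ≠ 0 := by rw [hB1]; exact mul_ne_zero (h0 j) hB0
    have hB2 : B 0 ^ 2 + B 1 ^ 2 ≠ 0 := by
      have e : B 0 ^ 2 + B 1 ^ 2 = B 0 ^ 2 * (r j - 1) ^ 2 := by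
        rw [hB1]
        linear_combination (B 0 ^ 2 * r j) * h2
      rw [e]
      exact mul_ne_zero (pow_ne_zero _ hB0) (pow_ne_zero _ (sub_ne_zero.2 (h1 j)))
    apply hu
    funext i
    fin_cases i
    · exact pow_eq_zero_iff (by norm_num) |>.1 ((mul_eq_zero.1 c3).resolve_left
        (mul_ne_zero (pow_ne_zero _ hB0) (pow_ne_zero _ hB1')))
    · exact pow_eq_zero_iff (by norm_num) |>.1 ((mul_eq_zero.1 c4).resolve_left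
        (mul_ne_zero (pow_ne_zero _ hB0) hB2))
    · exact pow_eq_zero_iff (by norm_num) |>.1 ((mul_eq_zero.1 c5).resolve_left
        (mul_ne_zero (pow_ne_zero _ hB0) (pow_ne_zero _ hB0)))

end Pool.Agent.Helper553.Uni
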