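import Pool.Agent.Helper553.Uni.Ufd
import Pool.Agent.Helper553.Uni.Coeff

set_option autoImplicit false

open MvPolynomial

namespace Pool.Agent.Helper553.Uni

theorem ni_sqf {k : Type} [Field k] [CharP k 2] {N : ℕ} (β : Fin 4 → k)
    (hβ : Function.Injective β) (h0 : ∀ j, β j ≠ 0) (h1 : ∀ j, β j ≠ 1)
    (b₀ b₁ X Y Z P Q S : MvPolynomial (Fin N) k)
    (hcop : ∀ π : MvPolynomial (Fin N) k, Prime π → ¬ (π ∣ b₀ ∧ π ∣ b₁))
    (hne : ¬ (X = 0 ∧ Y = 0 ∧ Z = 0)) (G : MvPolynomial (Fin N) k)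
    (hG : G = (b₁ + C (β 0) * b₀) * (b₁ + C (β 1) * b₀) * (b₁ + C (β 2) * b₀) *
      (b₁ + C (β 3) * b₀))
    (e1 : G * P ^ 2 + G * (Y * Z) + (b₀ ^ 2 * b₁ ^ 2) * X ^ 2 = 0)
    (e2 : G * Q ^ 2 + G * (Z * X) + (b₀ ^ 2 * (b₀ + b₁) ^ 2) * Y ^ 2 = 0)
    (e3 : G * S ^ 2 + G * (X * Y) + (b₀ ^ 2 * b₀ ^ 2) * Z ^ 2 = 0)
    (hl : ∀ j, b₁ + C (β j) * b₀ ≠ 0) (j : Fin 4) :
    ∃ c : k, c ≠ 0 ∧ ∃ h : MvPolynomial (Fin N) k, b₁ + C (β j) * b₀ = C c * h ^ 2 := by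
  classical
  have hGp : G = ∏ i, (b₁ + C (β i) * b₀) := by rw [hG, Fin.prod_univ_four]
  have hG0 : G ≠ 0 := by
    rw [hGp]
    exact Finset.prod_ne_zero_iff.2 fun i _ => hl i
  have hunit : ∀ (c : k), c ≠ 0 → ∀ (π x : MvPolynomial (Fin N) k), π ∣ C c * x → π ∣ x := by
    intro c hc π x hx
    have hu : C c⁻¹ * (C c * x) = x := by
      rw [← mul_assoc, ← C_mul, inv_mul_cancel₀ hc, C_1, one_mul]
    rw [← hu]
    exact hx.mul_left _
  obtain ⟨u, h, huh⟩ := unit_mul_sq (b₁ + C (β j) * b₀) (hl j) (by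
    intro π hπ hd
    have n0 : ¬ π ∣ b₀ := by
      intro hb
      refine hcop π hπ ⟨hb, ?_⟩
      exact (dvd_add_left (hb.mul_left _)).1 hd
    have n1 : ¬ π ∣ b₁ := by
      intro hb
      exact n0 (hunit _ (h0 j) _ _ ((dvd_add_right hb).1 hd))
    have n2 : ¬ π ∣ b₀ + b₁ := by
      intro hb
      have h3 : C (β j - 1) * b₀ = (b₁ + C (β j) * b₀) - (b₀ + b₁) := by
        rw [C_sub, C_1]; ring
      refine n0 (hunit (β j - 1) (sub_ne_zero.2 (h1 j)) π _ ?_)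
      rw [h3]
      exact dvd_sub hd hb
    have n3 : ∀ i, i ≠ j → ¬ π ∣ b₁ + C (β i) * b₀ := by
      intro i hij hb
      have h3 : C (β j - β i) * b₀ = (b₁ + C (β j) * b₀) - (b₁ + C (β i) * b₀) := by
        rw [C_sub]; ring
      refine n0 (hunit (β j - β i) (sub_ne_zero.2 fun h => hij (hβ h.symm)) π _ ?_)
      rw [h3]
      exact dvd_sub hd hb
    have m1 : ¬ π ∣ b₀ ^ 2 * b₁ ^ 2 := by
      intro h
      rcases hπ.dvd_or_dvd h with h | h
      · exact n0 (hπ.dvd_of_dvd_pow h)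
      · exact n1 (hπ.dvd_of_dvd_pow h)
    have m2 : ¬ π ∣ b₀ ^ 2 * (b₀ + b₁) ^ 2 := by
      intro h
      rcases hπ.dvd_or_dvd h with h | h
      · exact n0 (hπ.dvd_of_dvd_pow h)
      · exact n2 (hπ.dvd_of_dvd_pow h)
    have m3 : ¬ π ∣ b₀ ^ 2 * b₀ ^ 2 := by
      intro h
      rcases hπ.dvd_or_dvd h with h | h
      · exact n0 (hπ.dvd_of_dvd_pow h)
      · exact n0 (hπ.dvd_of_dvd_pow h)
    have hprod : G = (b₁ + C (β j) * b₀) * ∏ i ∈ Finset.univ.erase j, (b₁ + C (β i) * b₀) := by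
      rw [hGp, Finset.mul_prod_erase Finset.univ (fun i => b₁ + C (β i) * b₀) (Finset.mem_univ j)]
    have hnd : ¬ π ∣ ∏ i ∈ Finset.univ.erase j, (b₁ + C (β i) * b₀) := by
      intro h
      obtain ⟨i, hi, h⟩ := (hπ.dvd_finsetProd_iff _).1 h
      exact n3 i (Finset.ne_of_mem_erase hi) h
    have hev := even_mult hπ G _ _ _ X Y Z P Q S m1 m2 m3 hne
      (by rw [hprod]; exact hd.mul_right _) hG0 e1 e2 e3
    have hfin : FiniteMultiplicity π ((b₁ + C (β j) * b₀) *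
        ∏ i ∈ Finset.univ.erase j, (b₁ + C (β i) * b₀)) := by
      rw [← hprod]
      exact FiniteMultiplicity.of_prime_left hπ hG0
    rw [hprod, multiplicity_mul hπ hfin, multiplicity_eq_zero.mpr hnd, add_zero] at hev
    exact hev)
  obtain ⟨c, hc, hcu⟩ := (MvPolynomial.isUnit_iff_eq_C_of_isReduced).1 u.isUnit
  refine ⟨c, hc.ne_zero, h, ?_⟩
  rw [huh, hcu]

/-- The main arithmetic step: integral solutions of the three conics of the first family over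
`k[t₁, …, t_N]`, with coprime `b 0`, `b 1`, have `b 0`, `b 1` proportional over `k`. -/
theorem nonuni_int {k : Type} [Field k] [CharP k 2] {N : ℕ} (β : Fin 4 → k)
    (hβ : Function.Injective β) (h0 : ∀ j, β j ≠ 0) (h1 : ∀ j, β j ≠ 1)
    (hns : ¬ IsSquare ((β 2 + β 1) * (β 3 + β 0) / ((β 2 + β 0) * (β 3 + β 1))))
    (b₀ b₁ X Y Z P Q S : MvPolynomial (Fin N) k)
    (hcop : ∀ π : MvPolynomial (Fin N) k, Prime π → ¬ (π ∣ b₀ ∧ π ∣ b₁))
    (hne : ¬ (X = 0 ∧ Y = 0 ∧ Z = 0)) (G : MvPolynomial (Fin N) k)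
    (hG : G = (b₁ + C (β 0) * b₀) * (b₁ + C (β 1) * b₀) * (b₁ + C (β 2) * b₀) *
      (b₁ + C (β 3) * b₀))
    (e1 : G * P ^ 2 + G * (Y * Z) + (b₀ ^ 2 * b₁ ^ 2) * X ^ 2 = 0)
    (e2 : G * Q ^ 2 + G * (Z * X) + (b₀ ^ 2 * (b₀ + b₁) ^ 2) * Y ^ 2 = 0)
    (e3 : G * S ^ 2 + G * (X * Y) + (b₀ ^ 2 * b₀ ^ 2) * Z ^ 2 = 0) :
    ∃ s t : k, ¬ (s = 0 ∧ t = 0) ∧ C s * b₀ + C t * b₁ = 0 := by
  classical
  by_cases hl : ∀ j, b₁ + C (β j) * b₀ ≠ 0
  swap
  · push Not at hl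
    obtain ⟨j, hj⟩ := hl
    refine ⟨β j, 1, fun h => one_ne_zero h.2, ?_⟩
    rw [C_1, one_mul, add_comm]
    exact hj
  choose c hc h hh using ni_sqf β hβ h0 h1 b₀ b₁ X Y Z P Q S hcop hne G hG e1 e2 e3 hl
  have h2k : (2 : k) = 0 := CharTwo.two_eq_zero
  have h2 : (2 : MvPolynomial (Fin N) k) = 0 := CharTwo.two_eq_zero
  have hadd : ∀ i j : Fin 4, i ≠ j → β i + β j ≠ 0 := by
    intro i j hij h
    apply hij
    apply hβ
    linear_combination h - β j * h2k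
  set D : k := β 0 + β 1 with hD
  have hD0 : D ≠ 0 := hadd 0 1 (by decide)
  have comb : ∀ i, b₁ + C (β i) * b₀ = C ((β i + β 1) / D) * (b₁ + C (β 0) * b₀) +
      C ((β i + β 0) / D) * (b₁ + C (β 1) * b₀) := by
    intro i
    have q1 : (β i + β 1) / D + (β i + β 0) / D = 1 := by
      rw [← add_div, div_eq_one_iff_eq hD0, hD]
      linear_combination β i * h2k
    have q2 : (β i + β 1) / D * β 0 + (β i + β 0) / D * β 1 = β i := by
      rw [div_mul_eq_mul_div, div_mul_eq_mul_div, ← add_div, div_eq_iff hD0, hD]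
      linear_combination β 0 * β 1 * h2k
    calc b₁ + C (β i) * b₀ = C ((β i + β 1) / D + (β i + β 0) / D) * b₁ +
          C ((β i + β 1) / D * β 0 + (β i + β 0) / D * β 1) * b₀ := by
            rw [q1, q2, C_1, one_mul]
      _ = _ := by
            simp only [C_add, C_mul]
            ring
  obtain ⟨s, t, hst, hrel⟩ := coeff_core (h 0) (h 1) (h 2) (h 3) (c 2) (c 3)
    ((β 2 + β 1) / D * c 0) ((β 2 + β 0) / D * c 1) ((β 3 + β 1) / D * c 0)
    ((β 3 + β 0) / D * c 1) (hc 2) (hc 3)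
    (mul_ne_zero (div_ne_zero (hadd 2 0 (by decide)) hD0) (hc 1))
    (mul_ne_zero (div_ne_zero (hadd 3 1 (by decide)) hD0) (hc 0))
    (by
      rw [← hh 2, comb 2, hh 0, hh 1]
      simp only [C_mul]
      ring)
    (by
      rw [← hh 3, comb 3, hh 0, hh 1]
      simp only [C_mul]
      ring)
    (by
      have e : (β 2 + β 1) / D * c 0 * ((β 3 + β 0) / D * c 1) /
          ((β 2 + β 0) / D * c 1 * ((β 3 + β 1) / D * c 0)) =
          (β 2 + β 1) * (β 3 + β 0) / ((β 2 + β 0) * (β 3 + β 1)) := by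
        have := hc 0
        have := hc 1
        have := hadd 2 0 (by decide)
        have := hadd 3 1 (by decide)
        field_simp
      rw [e]
      exact hns)
  have hsq : C (s ^ 2) * h 0 ^ 2 + C (t ^ 2) * h 1 ^ 2 = 0 := by
    have : (C s * h 0 + C t * h 1) ^ 2 = 0 := by rw [hrel]; ring
    simp only [C_pow]
    linear_combination this - (C s * h 0 * (C t * h 1)) * h2
  refine ⟨s ^ 2 * c 1 * β 0 + t ^ 2 * c 0 * β 1, s ^ 2 * c 1 + t ^ 2 * c 0, ?_, ?_⟩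
  · rintro ⟨z1, z2⟩
    have z3 : t ^ 2 * (c 0 * (β 1 - β 0)) = 0 := by linear_combination z1 - β 0 * z2
    have z4 : c 0 * (β 1 - β 0) ≠ 0 :=
      mul_ne_zero (hc 0) (sub_ne_zero.2 fun h => absurd (hβ h) (by decide))
    have z5 : t = 0 := by
      have := (mul_eq_zero.1 z3).resolve_right z4
      exact pow_eq_zero_iff (two_ne_zero) |>.1 this
    have z6 : s = 0 := by
      rw [z5] at z2
      have z7 : s ^ 2 * c 1 = 0 := by linear_combination z2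
      exact pow_eq_zero_iff (two_ne_zero) |>.1 ((mul_eq_zero.1 z7).resolve_right (hc 1))
    exact hst ⟨z6, z5⟩
  · have r0 := hh 0
    have r1 := hh 1
    simp only [C_add, C_mul, C_pow] at hsq ⊢
    linear_combination (C s ^ 2 * C (c 1)) * r0 + (C t ^ 2 * C (c 0)) * r1 +
      (C (c 0) * C (c 1)) * hsq

end Pool.Agent.Helper553.Uni
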