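import Pool.Agent.Helper553.Uni.Surf

set_option autoImplicit false

open MvPolynomial

namespace Pool.Agent.Helper553.Uni



/-- Determinant of the rows `(X, Y, Z)` of `p`, `(X, Y, Z)` of `q` and `(1, a, b)`. -/
def det3 {A : Type} [CommRing A] (x y : Fin 3 → A) (a b : A) : A :=
  x 0 * (y 1 * b - y 2 * a) - x 1 * (y 0 * b - y 2) + x 2 * (y 0 * a - y 1)

theorem rc_aux_par_smul_l {K : Type} [Field K] (r : Fin 4 → K) (t : K) (F : Fin 2 → K)
    (u : Fin 3 → K) (i : Fin 2) :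
    par r (fun i => t * F i) u (Sum.inl i) = t ^ 2 * par r F u (Sum.inl i) := by
  fin_cases i <;> simp [par] <;> ring

theorem rc_aux_par_smul_r {K : Type} [Field K] (r : Fin 4 → K) (t : K) (F : Fin 2 → K)
    (u : Fin 3 → K) (j : Fin 6) :
    par r (fun i => t * F i) u (Sum.inr j) = t ^ 4 * par r F u (Sum.inr j) := by
  fin_cases j <;> simp [par, GG] <;> ring

theorem rc_aux_eval_par {K : Type} [Field K] (r : Fin 4 → K)
    (F : Fin 2 → MvPolynomial (Fin 2) K)
    (L : Fin 3 → MvPolynomial (Fin 2) K) (s : Fin 2 → K) (c : Coord 1 5) :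
    eval s (par (fun i => C (r i)) F L c) =
      par r (fun i => eval s (F i)) (fun i => eval s (L i)) c := by
  rcases c with i | j
  · fin_cases i <;> simp [par]
  · fin_cases j <;> simp [par, GG]

theorem rc_aux_GG_hom {K : Type} [Field K] (r : Fin 4 → K)
    (F : Fin 2 → MvPolynomial (Fin 2) K) (hF : ∀ i, (F i).IsHomogeneous 3) :
    (GG (fun i => C (r i)) F).IsHomogeneous 12 := by
  have h1 : ∀ i, (F 1 + C (r i) * F 0).IsHomogeneous 3 := by
    intro i
    have h2 : (C (r i) * F 0).IsHomogeneous (0 + 3) := (isHomogeneous_C _ _).mul (hF 0)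
    exact (hF 1).add h2
  exact (((h1 0).mul (h1 1)).mul (h1 2)).mul (h1 3)

theorem rc_aux_hom_l {K : Type} [Field K] (r : Fin 4 → K)
    (F : Fin 2 → MvPolynomial (Fin 2) K) (hF : ∀ i, (F i).IsHomogeneous 3)
    (L : Fin 3 → MvPolynomial (Fin 2) K) (i : Fin 2) :
    (par (fun i => C (r i)) F L (Sum.inl i)).IsHomogeneous 6 := by
  fin_cases i
  · exact (hF 0).pow 2
  · exact (hF 1).pow 2

theorem rc_aux_hom_r {K : Type} [Field K] (r : Fin 4 → K)
    (F : Fin 2 → MvPolynomial (Fin 2) K) (hF : ∀ i, (F i).IsHomogeneous 3)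
    (L : Fin 3 → MvPolynomial (Fin 2) K) (hL : ∀ i, (L i).IsHomogeneous 1) (j : Fin 6) :
    (par (fun i => C (r i)) F L (Sum.inr j)).IsHomogeneous 16 := by
  have hG := rc_aux_GG_hom r F hF
  have h4 : ∀ i, (GG (fun i => C (r i)) F * L i ^ 4).IsHomogeneous 16 :=
    fun i => hG.mul ((hL i).pow 4)
  have h22 : ∀ i j, (GG (fun i => C (r i)) F * (L i * L j) ^ 2).IsHomogeneous 16 :=
    fun i j => hG.mul (((hL i).mul (hL j)).pow 2)
  have hq : ∀ i, (F i ^ 2).IsHomogeneous 6 := fun i => (hF i).pow 2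
  have hqq : ∀ (P Q : MvPolynomial (Fin 2) K) (i : Fin 3), P.IsHomogeneous 6 →
      Q.IsHomogeneous 6 → (P * Q * L i ^ 4).IsHomogeneous 16 :=
    fun P Q i hP hQ => (hP.mul hQ).mul ((hL i).pow 4)
  fin_cases j
  · exact h4 0
  · exact h4 1
  · exact h4 2
  · exact (h22 1 2).add (hqq _ _ 0 (hq 0) (hq 1))
  · exact (h22 2 0).add (hqq _ _ 1 (hq 0) ((hq 0).add (hq 1)))
  · exact (h22 0 1).add (hqq _ _ 2 (hq 0) (hq 0))

theorem rc_aux_det3 {K : Type} [Field K] [CharP K 2] (x y : Fin 3 → K) (a b : K) :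
    det3 x y a b = x 0 * (y 1 * b) + x 0 * (y 2 * a) + x 1 * (y 0 * b) + x 1 * y 2 +
      x 2 * (y 0 * a) + x 2 * y 1 := by
  unfold det3
  simp only [CharTwo.sub_eq_add]
  ring

theorem rc_aux_pow4 {K : Type} [Field K] [CharP K 2] (x y : K) :
    (x + y) ^ 4 = x ^ 4 + y ^ 4 := by
  have h : ∀ z : K, z ^ 4 = (z ^ 2) ^ 2 := fun z => by ring
  rw [h, CharTwo.add_sq, CharTwo.add_sq, ← h, ← h]

theorem rc_aux_frob {K : Type} [Field K] [CharP K 2] (x y : Fin 3 → K) (g g' a b : K)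
    (ha : a ^ 4 = a) (hb : b ^ 4 = b) :
    det3 (fun i => g * x i ^ 4) (fun i => g' * y i ^ 4) a b = g * g' * det3 x y a b ^ 4 := by
  rw [rc_aux_det3, rc_aux_det3]
  simp only [rc_aux_pow4, mul_pow, ha, hb]
  ring

theorem rc_aux_dep {K : Type} [Field K] (x y : Fin 3 → K) (a b l : K) (s : Fin 2 → K)
    (hs : s ≠ 0) (h0 : s 0 * x 0 + s 1 * y 0 = l) (h1 : s 0 * x 1 + s 1 * y 1 = l * a)
    (h2 : s 0 * x 2 + s 1 * y 2 = l * b) : det3 x y a b = 0 := by
  have e0 : s 0 * det3 x y a b = 0 := by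
    unfold det3
    linear_combination (y 1 * b - y 2 * a) * h0 - (y 0 * b - y 2) * h1 + (y 0 * a - y 1) * h2
  have e1 : s 1 * det3 x y a b = 0 := by
    unfold det3
    linear_combination -(x 1 * b - x 2 * a) * h0 + (x 0 * b - x 2) * h1 - (x 0 * a - x 1) * h2
  by_contra hcon
  apply hs
  funext i
  fin_cases i
  · simpa [hcon] using e0
  · simpa [hcon] using e1

theorem rc_aux_root {K : Type} [Field K] (ω : K) (hω : ω ^ 2 + ω + 1 = 0) (x : K)
    (hx : x ^ 3 = 1) : ∃ a : Fin 3, x = ω ^ a.val := by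
  have h : (x - 1) * ((x - ω) * (x - ω ^ 2)) = 0 := by
    have h3 : ω ^ 3 = 1 := by linear_combination (ω - 1) * hω
    linear_combination hx - (x - 1) * x * hω + (x - 1) * h3
  rcases mul_eq_zero.1 h with h | h
  · exact ⟨0, by simpa using sub_eq_zero.1 h⟩
  · rcases mul_eq_zero.1 h with h | h
    · exact ⟨1, by simpa using sub_eq_zero.1 h⟩
    · exact ⟨2, by simpa using sub_eq_zero.1 h⟩

/-- the pencil through a point -/
def rcF {A : Type} [CommRing A] (L : Fin 3 → A) : Fin 2 → A :=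
  ![L 0 ^ 3 + L 1 ^ 3, L 1 ^ 3 + L 2 ^ 3]

theorem rc_aux_JJ {K : Type} [Field K] [CharP K 2] (L : Fin 3 → K) : JJ (rcF L) L = 0 := by
  have h2 : (2 : K) = 0 := CharTwo.two_eq_zero
  simp only [JJ, rcF, Matrix.cons_val_zero, Matrix.cons_val_one]
  linear_combination (L 1 ^ 3 * L 0 ^ 3 + L 2 ^ 3 * L 0 ^ 3 + L 1 ^ 3 * L 2 ^ 3 +
    L 1 ^ 6) * h2

theorem rc_aux_same {K : Type} [Field K] [CharP K 2] (r : Fin 4 → K) (B : Fin 2 → K)
    (u : Fin 3 → K) (hB : B ≠ 0) (hJ : JJ B u = 0) (hF : rcF u ≠ 0) :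
    SamePoint (par r (rcF u) u) (par r B u) := by
  have h2 : (2 : K) = 0 := CharTwo.two_eq_zero
  set F := rcF u with hFdef
  have hJ' : B 0 * F 1 = B 1 * F 0 := by
    have e0 : F 0 = u 0 ^ 3 + u 1 ^ 3 := rfl
    have e1 : F 1 = u 1 ^ 3 + u 2 ^ 3 := rfl
    unfold JJ at hJ
    rw [e0, e1]
    linear_combination hJ - (B 1 * u 0 ^ 3 + B 1 * u 1 ^ 3) * h2
  obtain ⟨t, ht⟩ : ∃ t : K, B = fun i => t * F i := by
    by_cases h0 : F 0 = 0
    · have h1 : F 1 ≠ 0 := by
        intro h1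
        apply hF
        funext i
        fin_cases i
        · exact h0
        · exact h1
      refine ⟨B 1 / F 1, ?_⟩
      funext i
      fin_cases i
      · show B 0 = B 1 / F 1 * F 0
        rw [h0, mul_zero] at hJ' ⊢
        exact (mul_eq_zero.1 hJ').resolve_right h1
      · show B 1 = B 1 / F 1 * F 1
        field_simp
    · refine ⟨B 0 / F 0, ?_⟩
      funext i
      fin_cases i
      · show B 0 = B 0 / F 0 * F 0
        field_simp
      · show B 1 = B 0 / F 0 * F 1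
        field_simp
        linear_combination -hJ'
  have ht0 : t ≠ 0 := by
    intro h
    apply hB
    rw [ht]
    funext i
    simp [h]
  refine ⟨t ^ 2, t ^ 4, pow_ne_zero _ ht0, pow_ne_zero _ ht0, ?_, ?_⟩
  · intro i
    rw [ht]
    exact rc_aux_par_smul_l r t F u i
  · intro j
    rw [ht]
    exact rc_aux_par_smul_r r t F u j

theorem rc_core {K : Type} [Field K] [CharP K 2] [IsAlgClosed K] (r : Fin 4 → K)
    (ω : K) (hω : ω ^ 2 + ω + 1 = 0)
    (B B' : Fin 2 → K) (u u' : Fin 3 → K) (hB : B ≠ 0) (hB' : B' ≠ 0) (hu : u ≠ 0)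
    (hu' : u' ≠ 0) (hJ : JJ B u = 0) (hJ' : JJ B' u' = 0)
    (hdet : ∀ a b : Fin 3, det3 (xx (par r B u)) (xx (par r B' u')) (ω ^ a.val) (ω ^ b.val) ≠ 0) :
    ∃ φ : Coord 1 5 → MvPolynomial (Fin 2) K,
      (∀ i, (φ (Sum.inl i)).IsHomogeneous 6) ∧ (∀ j, (φ (Sum.inr j)).IsHomogeneous 16) ∧
      (∀ s : Fin 2 → K, s ≠ 0 → ∃ (C : Fin 2 → K) (w : Fin 3 → K), C ≠ 0 ∧ w ≠ 0 ∧ JJ C w = 0 ∧
        (fun c => eval s (φ c)) = par r C w) ∧
      (∃ s : Fin 2 → K, s ≠ 0 ∧ SamePoint (fun c => eval s (φ c)) (par r B u)) ∧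
      (∃ s : Fin 2 → K, s ≠ 0 ∧ SamePoint (fun c => eval s (φ c)) (par r B' u')) := by
  have h2 : (2 : K) = 0 := CharTwo.two_eq_zero
  have hω3 : ω ^ 3 = 1 := by linear_combination (ω - 1) * hω
  have hω4 : ∀ a : Fin 3, (ω ^ a.val) ^ 4 = ω ^ a.val := by
    intro a
    calc (ω ^ a.val) ^ 4 = (ω ^ 3) ^ a.val * ω ^ a.val := by ring
      _ = ω ^ a.val := by rw [hω3, one_pow, one_mul]
  have hd : ∀ a b : Fin 3, det3 u u' (ω ^ a.val) (ω ^ b.val) ≠ 0 := by
    intro a b hcon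
    apply hdet a b
    have e1 : xx (par r B u) = fun i => GG r B * u i ^ 4 := by
      funext i
      fin_cases i <;> rfl
    have e2 : xx (par r B' u') = fun i => GG r B' * u' i ^ 4 := by
      funext i
      fin_cases i <;> rfl
    rw [e1, e2, rc_aux_frob _ _ _ _ _ _ (hω4 a) (hω4 b), hcon]
    ring
  -- linear forms
  set L : Fin 3 → MvPolynomial (Fin 2) K := fun i => C (u i) * X 0 + C (u' i) * X 1 with hL
  have hLhom : ∀ i, (L i).IsHomogeneous 1 := by
    intro i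
    have e1 : (C (u i) * X 0 : MvPolynomial (Fin 2) K).IsHomogeneous (0 + 1) :=
      (isHomogeneous_C _ _).mul (isHomogeneous_X _ _)
    have e2 : (C (u' i) * X 1 : MvPolynomial (Fin 2) K).IsHomogeneous (0 + 1) :=
      (isHomogeneous_C _ _).mul (isHomogeneous_X _ _)
    exact e1.add e2
  have hFhom : ∀ i, (rcF L i).IsHomogeneous 3 := by
    intro i
    fin_cases i
    · exact ((hLhom 0).pow 3).add ((hLhom 1).pow 3)
    · exact ((hLhom 1).pow 3).add ((hLhom 2).pow 3)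
  have hLev : ∀ (s : Fin 2 → K) i, eval s (L i) = s 0 * u i + s 1 * u' i := by
    intro s i
    simp only [hL, map_add, map_mul, eval_C, eval_X]
    ring
  have hFev : ∀ (s : Fin 2 → K), (fun i => eval s (rcF L i)) =
      rcF (fun i => s 0 * u i + s 1 * u' i) := by
    intro s
    funext i
    fin_cases i
    · show eval s (L 0 ^ 3 + L 1 ^ 3) = _
      rw [map_add, map_pow, map_pow, hLev, hLev]
      rfl
    · show eval s (L 1 ^ 3 + L 2 ^ 3) = _
      rw [map_add, map_pow, map_pow, hLev, hLev]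
      rfl
  have hev : ∀ s : Fin 2 → K, (fun c => eval s (par (fun i => C (r i)) (rcF L) L c)) =
      par r (rcF (fun i => s 0 * u i + s 1 * u' i)) (fun i => s 0 * u i + s 1 * u' i) := by
    intro s
    funext c
    rw [rc_aux_eval_par, hFev]
    simp only [hLev]
  have hLne : ∀ s : Fin 2 → K, s ≠ 0 → (fun i => s 0 * u i + s 1 * u' i) ≠ 0 := by
    intro s hs hcon
    apply hd 0 0
    exact rc_aux_dep u u' _ _ 0 s hs (congrFun hcon 0)
      ((congrFun hcon 1).trans (by simp)) ((congrFun hcon 2).trans (by simp))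
  have hFne : ∀ s : Fin 2 → K, s ≠ 0 → rcF (fun i => s 0 * u i + s 1 * u' i) ≠ 0 := by
    intro s hs hcon
    have hc0 := congrFun hcon 0
    have hc1 := congrFun hcon 1
    have hLs := hLne s hs
    set l : Fin 3 → K := fun i => s 0 * u i + s 1 * u' i with hl
    have hc0' : l 0 ^ 3 + l 1 ^ 3 = 0 := hc0
    have hc1' : l 1 ^ 3 + l 2 ^ 3 = 0 := hc1
    have e01 : l 1 ^ 3 = l 0 ^ 3 := by linear_combination hc0' - l 0 ^ 3 * h2
    have e12 : l 2 ^ 3 = l 0 ^ 3 := by
      linear_combination hc1' - hc0' + l 0 ^ 3 * h2 - l 0 ^ 3 * h2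
    by_cases hl0 : l 0 = 0
    · apply hLs
      rw [hl0] at e01 e12
      funext i
      fin_cases i
      · exact hl0
      · exact eq_zero_of_pow_eq_zero (n := 3) (by simpa using e01)
      · exact eq_zero_of_pow_eq_zero (n := 3) (by simpa using e12)
    · obtain ⟨a, ha⟩ := rc_aux_root ω hω (l 1 / l 0) (by
        rw [div_pow, e01, div_self (pow_ne_zero _ hl0)])
      obtain ⟨b, hb⟩ := rc_aux_root ω hω (l 2 / l 0) (by
        rw [div_pow, e12, div_self (pow_ne_zero _ hl0)])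
      apply hd a b
      refine rc_aux_dep u u' _ _ (l 0) s hs rfl ?_ ?_
      · rw [← ha]
        show l 1 = _
        field_simp
      · rw [← hb]
        show l 2 = _
        field_simp
  refine ⟨par (fun i => C (r i)) (rcF L) L, rc_aux_hom_l r _ hFhom L,
    rc_aux_hom_r r _ hFhom L hLhom, ?_, ?_, ?_⟩
  · intro s hs
    exact ⟨rcF (fun i => s 0 * u i + s 1 * u' i), fun i => s 0 * u i + s 1 * u' i,
      hFne s hs, hLne s hs, rc_aux_JJ _, hev s⟩
  · have hs : (![1, 0] : Fin 2 → K) ≠ 0 := by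
      intro h
      have := congrFun h 0
      simp at this
    refine ⟨![1, 0], hs, ?_⟩
    have e : (fun i => (![1, 0] : Fin 2 → K) 0 * u i + (![1, 0] : Fin 2 → K) 1 * u' i) = u := by
      funext i
      simp
    have hF := hFne _ hs
    rw [hev, e]
    rw [e] at hF
    exact rc_aux_same r B u hB hJ hF
  · have hs : (![0, 1] : Fin 2 → K) ≠ 0 := by
      intro h
      have := congrFun h 1
      simp at this
    refine ⟨![0, 1], hs, ?_⟩
    have e : (fun i => (![0, 1] : Fin 2 → K) 0 * u i + (![0, 1] : Fin 2 → K) 1 * u' i) = u' := by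
      funext i
      simp
    have hF := hFne _ hs
    rw [hev, e]
    rw [e] at hF
    exact rc_aux_same r B' u' hB' hJ' hF

end Pool.Agent.Helper553.Uni
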