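import Pool.Agent.Helper553.Uni.Surf

set_option autoImplicit false

open MvPolynomial

namespace Pool.Agent.Helper553.Uni



/-- Every solution of the ten equations over an algebraically closed field of characteristic 2 is
parametrised by `par`. -/
theorem par_surj {K : Type} [Field K] [CharP K 2] [IsAlgClosed K] (r : Fin 4 → K)
    (h0 : ∀ j, r j ≠ 0) (h1 : ∀ j, r j ≠ 1) (v : Coord 1 5 → K)
    (hl : ∃ i, v (Sum.inl i) ≠ 0) (hr : ∃ j, v (Sum.inr j) ≠ 0)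
    (hv : ∀ t i, eqn (fun j => r j ^ 2) v t i = 0) :
    ∃ (B : Fin 2 → K) (u : Fin 3 → K), B ≠ 0 ∧ u ≠ 0 ∧ JJ B u = 0 ∧ v = par r B u := by
  have h2 : (2 : K) = 0 := CharTwo.two_eq_zero
  have hsq : ∀ a b : K, a ^ 2 = b ^ 2 → a = b := by
    intro a b hab
    have h3 : (a - b) ^ 2 = 0 := by linear_combination hab - (a * b - b ^ 2) * h2
    exact sub_eq_zero.1 (pow_eq_zero_iff (two_ne_zero) |>.1 h3)
  obtain ⟨B0, hB0⟩ := IsAlgClosed.exists_pow_nat_eq (v (Sum.inl 0)) (n := 2) two_pos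
  obtain ⟨B1, hB1⟩ := IsAlgClosed.exists_pow_nat_eq (v (Sum.inl 1)) (n := 2) two_pos
  have hA : ∀ i, EA (gam (fun j => r j ^ 2) v) (kap v) (mm v) (xx v) (pp v) i = 0 := fun i => hv 0 i
  have hC : ∀ i, EC (mm v) (xx v) (pp v) i = 0 := fun i => hv 2 i
  have hD : ED (mm v) (xx v) (pp v) = 0 := hv 3 0
  have hB : (![B0, B1] : Fin 2 → K) ≠ 0 := by
    intro h
    have hb0 : B0 = 0 := congrFun h 0
    have hb1 : B1 = 0 := congrFun h 1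
    obtain ⟨i, hi⟩ := hl
    apply hi
    fin_cases i
    · change v (Sum.inl 0) = 0
      rw [← hB0, hb0]; ring
    · change v (Sum.inl 1) = 0
      rw [← hB1, hb1]; ring
  have hfac : ∀ s : K, B1 ^ 2 + s ^ 2 * B0 ^ 2 = (B1 + s * B0) ^ 2 := by
    intro s
    linear_combination (-(s * B0 * B1)) * h2
  have hg : gam (fun j => r j ^ 2) v = GG r ![B0, B1] ^ 2 := by
    unfold gam GG
    rw [← hB0, ← hB1, hfac, hfac, hfac, hfac]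
    simp only [Matrix.cons_val_zero, Matrix.cons_val_one]
    ring
  have hk : kap v = (B0 ^ 2) ^ 2 := by
    unfold kap; rw [← hB0]
  have hm0 : mm v 0 = B1 ^ 2 := hB1.symm
  have hm1 : mm v 1 = B0 ^ 2 + B1 ^ 2 := by rw [hB0, hB1]; rfl
  have hm2 : mm v 2 = B0 ^ 2 := hB0.symm
  rw [hg, hk] at hA
  generalize hGd : GG r ![B0, B1] = G at hA
  have hA0 : G ^ 2 * pp v 0 ^ 2 + G ^ 2 * (xx v 1 * xx v 2) + (B0 ^ 2) ^ 2 * mm v 0 ^ 2 * xx v 0 ^ 2 = 0 := hA 0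
  have hA1 : G ^ 2 * pp v 1 ^ 2 + G ^ 2 * (xx v 2 * xx v 0) + (B0 ^ 2) ^ 2 * mm v 1 ^ 2 * xx v 1 ^ 2 = 0 := hA 1
  have hA2 : G ^ 2 * pp v 2 ^ 2 + G ^ 2 * (xx v 0 * xx v 1) + (B0 ^ 2) ^ 2 * mm v 2 ^ 2 * xx v 2 ^ 2 = 0 := hA 2
  have hC0 : mm v 0 * xx v 0 ^ 2 + mm v 1 * (xx v 1 * pp v 2) + mm v 2 * (xx v 2 * pp v 1) = 0 := hC 0
  have hC1 : mm v 1 * xx v 1 ^ 2 + mm v 2 * (xx v 2 * pp v 0) + mm v 0 * (xx v 0 * pp v 2) = 0 := hC 1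
  have hC2 : mm v 2 * xx v 2 ^ 2 + mm v 0 * (xx v 0 * pp v 1) + mm v 1 * (xx v 1 * pp v 0) = 0 := hC 2
  unfold ED at hD
  rw [hm0] at hA0 hC0 hC1 hC2 hD
  rw [hm1] at hA1 hC0 hC1 hC2 hD
  rw [hm2] at hA2 hC0 hC1 hC2 hD
  have hx0 : v (Sum.inr 0) = xx v 0 := rfl
  have hx1 : v (Sum.inr 1) = xx v 1 := rfl
  have hx2 : v (Sum.inr 2) = xx v 2 := rfl
  have hp0 : v (Sum.inr 3) = pp v 0 := rfl
  have hp1 : v (Sum.inr 4) = pp v 1 := rfl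
  have hp2 : v (Sum.inr 5) = pp v 2 := rfl
  -- conclusion from the six formulas
  have hfin : ∀ u0 u1 u2 : K, xx v 0 = G * u0 ^ 4 → xx v 1 = G * u1 ^ 4 → xx v 2 = G * u2 ^ 4 →
      pp v 0 = G * (u1 * u2) ^ 2 + B0 ^ 2 * B1 ^ 2 * u0 ^ 4 →
      pp v 1 = G * (u2 * u0) ^ 2 + B0 ^ 2 * (B0 ^ 2 + B1 ^ 2) * u1 ^ 4 →
      pp v 2 = G * (u0 * u1) ^ 2 + B0 ^ 2 * B0 ^ 2 * u2 ^ 4 →
      v = par r ![B0, B1] ![u0, u1, u2] := by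
    intro u0 u1 u2 q0 q1 q2 q3 q4 q5
    funext x
    rcases x with i | i
    · fin_cases i
      · exact hB0.symm
      · exact hB1.symm
    · fin_cases i
      · change v (Sum.inr 0) = GG r ![B0, B1] * u0 ^ 4
        rw [hGd, hx0, q0]
      · change v (Sum.inr 1) = GG r ![B0, B1] * u1 ^ 4
        rw [hGd, hx1, q1]
      · change v (Sum.inr 2) = GG r ![B0, B1] * u2 ^ 4
        rw [hGd, hx2, q2]
      · change v (Sum.inr 3) = GG r ![B0, B1] * (u1 * u2) ^ 2 + B0 ^ 2 * B1 ^ 2 * u0 ^ 4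
        rw [hGd, hp0, q3]
      · change v (Sum.inr 4) = GG r ![B0, B1] * (u2 * u0) ^ 2 + B0 ^ 2 * (B0 ^ 2 + B1 ^ 2) * u1 ^ 4
        rw [hGd, hp1, q4]
      · change v (Sum.inr 5) = GG r ![B0, B1] * (u0 * u1) ^ 2 + B0 ^ 2 * B0 ^ 2 * u2 ^ 4
        rw [hGd, hp2, q5]
  have hne : ∀ u0 u1 u2 : K, v = par r ![B0, B1] ![u0, u1, u2] → (![u0, u1, u2] : Fin 3 → K) ≠ 0 := by
    intro u0 u1 u2 hpar h
    rw [h] at hpar
    obtain ⟨j, hj⟩ := hr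
    apply hj
    rw [hpar]
    fin_cases j <;> simp [par]
  by_cases hG : G = 0
  · -- `G = 0`
    have hj : ∃ j, B1 = r j * B0 := by
      have h3 := hGd
      rw [hG] at h3
      unfold GG at h3
      simp only [Matrix.cons_val_zero, Matrix.cons_val_one] at h3
      have h4 : ∀ j, B1 + r j * B0 = 0 → B1 = r j * B0 := by
        intro j hj
        linear_combination hj - (r j * B0) * h2
      rcases mul_eq_zero.1 h3 with h3 | h3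
      · rcases mul_eq_zero.1 h3 with h3 | h3
        · rcases mul_eq_zero.1 h3 with h3 | h3
          · exact ⟨0, h4 0 h3⟩
          · exact ⟨1, h4 1 h3⟩
        · exact ⟨2, h4 2 h3⟩
      · exact ⟨3, h4 3 h3⟩
    obtain ⟨j, hj⟩ := hj
    have hb0 : B0 ≠ 0 := by
      intro h
      apply hB
      rw [hj, h, mul_zero]
      funext i
      fin_cases i <;> rfl
    have hb1 : B1 ≠ 0 := by rw [hj]; exact mul_ne_zero (h0 j) hb0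
    have hb01 : B0 ^ 2 + B1 ^ 2 ≠ 0 := by
      intro h
      apply h1 j
      apply hsq
      have h5 : (r j ^ 2 - 1) * B0 ^ 2 = 0 := by
        rw [hj] at h
        linear_combination h - B0 ^ 2 * h2
      rcases mul_eq_zero.1 h5 with h6 | h6
      · linear_combination h6
      · exact absurd (pow_eq_zero_iff (two_ne_zero) |>.1 h6) hb0
    rw [hG] at hA0 hA1 hA2
    have hX0 : xx v 0 = 0 := by
      have h3 : (B0 ^ 2) ^ 2 * (B1 ^ 2) ^ 2 * xx v 0 ^ 2 = 0 := by linear_combination hA0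
      rcases mul_eq_zero.1 h3 with h4 | h4
      · exact absurd h4 (by positivity)
      · exact pow_eq_zero_iff (two_ne_zero) |>.1 h4
    have hX1 : xx v 1 = 0 := by
      have h3 : (B0 ^ 2) ^ 2 * (B0 ^ 2 + B1 ^ 2) ^ 2 * xx v 1 ^ 2 = 0 := by linear_combination hA1
      rcases mul_eq_zero.1 h3 with h4 | h4
      · exact absurd h4 (mul_ne_zero (pow_ne_zero _ (pow_ne_zero _ hb0)) (pow_ne_zero _ hb01))
      · exact pow_eq_zero_iff (two_ne_zero) |>.1 h4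
    have hX2 : xx v 2 = 0 := by
      have h3 : (B0 ^ 2) ^ 2 * (B0 ^ 2) ^ 2 * xx v 2 ^ 2 = 0 := by linear_combination hA2
      rcases mul_eq_zero.1 h3 with h4 | h4
      · exact absurd h4 (mul_ne_zero (pow_ne_zero _ (pow_ne_zero _ hb0)) (pow_ne_zero _ (pow_ne_zero _ hb0)))
      · exact pow_eq_zero_iff (two_ne_zero) |>.1 h4
    obtain ⟨u0, hu0⟩ := IsAlgClosed.exists_pow_nat_eq (pp v 0 / (B0 ^ 2 * B1 ^ 2)) (n := 4) (by norm_num)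
    obtain ⟨u1, hu1⟩ := IsAlgClosed.exists_pow_nat_eq (pp v 1 / (B0 ^ 2 * (B0 ^ 2 + B1 ^ 2))) (n := 4) (by norm_num)
    obtain ⟨u2, hu2⟩ := IsAlgClosed.exists_pow_nat_eq (pp v 2 / (B0 ^ 2 * B0 ^ 2)) (n := 4) (by norm_num)
    have n0 : B0 ^ 2 * B1 ^ 2 ≠ 0 := mul_ne_zero (pow_ne_zero _ hb0) (pow_ne_zero _ hb1)
    have n1 : B0 ^ 2 * (B0 ^ 2 + B1 ^ 2) ≠ 0 := mul_ne_zero (pow_ne_zero _ hb0) hb01
    have n2 : B0 ^ 2 * B0 ^ 2 ≠ 0 := mul_ne_zero (pow_ne_zero _ hb0) (pow_ne_zero _ hb0)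
    have w0 : pp v 0 = B0 ^ 2 * B1 ^ 2 * u0 ^ 4 := by rw [hu0]; field_simp
    have w1 : pp v 1 = B0 ^ 2 * (B0 ^ 2 + B1 ^ 2) * u1 ^ 4 := by
      rw [hu1, mul_div_cancel₀ _ n1]
    have w2 : pp v 2 = B0 ^ 2 * B0 ^ 2 * u2 ^ 4 := by rw [hu2, mul_div_cancel₀ _ n2]
    have hpar := hfin u0 u1 u2 (by rw [hG, hX0]; ring) (by rw [hG, hX1]; ring)
      (by rw [hG, hX2]; ring) (by rw [hG, w0]; ring) (by rw [hG, w1]; ring) (by rw [hG, w2]; ring)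
    refine ⟨![B0, B1], ![u0, u1, u2], hB, hne _ _ _ hpar, ?_, hpar⟩
    change B1 * u0 ^ 3 + (B0 + B1) * u1 ^ 3 + B0 * u2 ^ 3 = 0
    rw [hX0, hX1, hX2, w0, w1, w2] at hD
    have h6 : B1 ^ 2 * (B0 ^ 2 + B1 ^ 2) * B0 ^ 2 * (B0 ^ 2) ^ 3 *
        (B1 ^ 2 * u0 ^ 6 + (B0 ^ 2 + B1 ^ 2) * u1 ^ 6 + B0 ^ 2 * u2 ^ 6) ^ 2 = 0 := by
      linear_combination hD + (B1 ^ 2 * (B0 ^ 2 + B1 ^ 2) * B0 ^ 2 * (B0 ^ 2) ^ 3 *
        (B1 ^ 2 * u0 ^ 6 * (B0 ^ 2 + B1 ^ 2) * u1 ^ 6 + B1 ^ 2 * u0 ^ 6 * B0 ^ 2 * u2 ^ 6 +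
          (B0 ^ 2 + B1 ^ 2) * u1 ^ 6 * B0 ^ 2 * u2 ^ 6)) * h2
    have h7 : B1 ^ 2 * u0 ^ 6 + (B0 ^ 2 + B1 ^ 2) * u1 ^ 6 + B0 ^ 2 * u2 ^ 6 = 0 := by
      rcases mul_eq_zero.1 h6 with h8 | h8
      · exact absurd h8 (mul_ne_zero (mul_ne_zero (mul_ne_zero (pow_ne_zero _ hb1) hb01)
          (pow_ne_zero _ hb0)) (pow_ne_zero _ (pow_ne_zero _ hb0)))
      · exact pow_eq_zero_iff (two_ne_zero) |>.1 h8
    have h8 : (B1 * u0 ^ 3 + (B0 + B1) * u1 ^ 3 + B0 * u2 ^ 3) ^ 2 = 0 := by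
      linear_combination h7 + (B1 * u0 ^ 3 * (B0 + B1) * u1 ^ 3 + B1 * u0 ^ 3 * B0 * u2 ^ 3 +
        (B0 + B1) * u1 ^ 3 * B0 * u2 ^ 3 + B0 * B1 * u1 ^ 6) * h2
    exact pow_eq_zero_iff (two_ne_zero) |>.1 h8
  · -- `G ≠ 0`
    obtain ⟨u0, hu0⟩ := IsAlgClosed.exists_pow_nat_eq (xx v 0 / G) (n := 4) (by norm_num)
    obtain ⟨u1, hu1⟩ := IsAlgClosed.exists_pow_nat_eq (xx v 1 / G) (n := 4) (by norm_num)
    obtain ⟨u2, hu2⟩ := IsAlgClosed.exists_pow_nat_eq (xx v 2 / G) (n := 4) (by norm_num)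
    have w0 : xx v 0 = G * u0 ^ 4 := by rw [hu0, mul_div_cancel₀ _ hG]
    have w1 : xx v 1 = G * u1 ^ 4 := by rw [hu1, mul_div_cancel₀ _ hG]
    have w2 : xx v 2 = G * u2 ^ 4 := by rw [hu2, mul_div_cancel₀ _ hG]
    rw [w0, w1, w2] at hA0 hA1 hA2 hC0 hC1 hC2
    have hG2 : G ^ 2 ≠ 0 := pow_ne_zero _ hG
    have q0 : pp v 0 = G * (u1 * u2) ^ 2 + B0 ^ 2 * B1 ^ 2 * u0 ^ 4 := by
      apply hsq
      apply mul_left_cancel₀ hG2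
      linear_combination hA0 - (G ^ 2 * (G ^ 2 * (u1 * u2) ^ 4 + B0 ^ 4 * B1 ^ 4 * u0 ^ 8) +
        G ^ 2 * (G * (u1 * u2) ^ 2 * B0 ^ 2 * B1 ^ 2 * u0 ^ 4)) * h2
    have q1 : pp v 1 = G * (u2 * u0) ^ 2 + B0 ^ 2 * (B0 ^ 2 + B1 ^ 2) * u1 ^ 4 := by
      apply hsq
      apply mul_left_cancel₀ hG2
      linear_combination hA1 - (G ^ 2 * (G ^ 2 * (u2 * u0) ^ 4 + B0 ^ 4 * (B0 ^ 2 + B1 ^ 2) ^ 2 * u1 ^ 8) +
        G ^ 2 * (G * (u2 * u0) ^ 2 * B0 ^ 2 * (B0 ^ 2 + B1 ^ 2) * u1 ^ 4)) * h2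
    have q2 : pp v 2 = G * (u0 * u1) ^ 2 + B0 ^ 2 * B0 ^ 2 * u2 ^ 4 := by
      apply hsq
      apply mul_left_cancel₀ hG2
      linear_combination hA2 - (G ^ 2 * (G ^ 2 * (u0 * u1) ^ 4 + B0 ^ 8 * u2 ^ 8) +
        G ^ 2 * (G * (u0 * u1) ^ 2 * B0 ^ 2 * B0 ^ 2 * u2 ^ 4)) * h2
    have hpar := hfin u0 u1 u2 w0 w1 w2 q0 q1 q2
    have hun := hne _ _ _ hpar
    refine ⟨![B0, B1], ![u0, u1, u2], hB, hun, ?_, hpar⟩
    change B1 * u0 ^ 3 + (B0 + B1) * u1 ^ 3 + B0 * u2 ^ 3 = 0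
    rw [q1, q2] at hC0
    rw [q0, q2] at hC1
    rw [q0, q1] at hC2
    have hJ : (B1 * u0 ^ 3 + (B0 + B1) * u1 ^ 3 + B0 * u2 ^ 3) ^ 2 =
        B1 ^ 2 * u0 ^ 6 + (B0 ^ 2 + B1 ^ 2) * u1 ^ 6 + B0 ^ 2 * u2 ^ 6 := by
      linear_combination (B1 * u0 ^ 3 * (B0 + B1) * u1 ^ 3 + B1 * u0 ^ 3 * B0 * u2 ^ 3 +
        (B0 + B1) * u1 ^ 3 * B0 * u2 ^ 3 + B0 * B1 * u1 ^ 6) * h2
    have hS : ∀ t : K, t ≠ 0 → G ^ 2 * t ^ 2 *
        (B1 ^ 2 * u0 ^ 6 + (B0 ^ 2 + B1 ^ 2) * u1 ^ 6 + B0 ^ 2 * u2 ^ 6) = 0 →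
        B1 * u0 ^ 3 + (B0 + B1) * u1 ^ 3 + B0 * u2 ^ 3 = 0 := by
      intro t ht h3
      rw [← hJ] at h3
      rcases mul_eq_zero.1 h3 with h4 | h4
      · exact absurd h4 (mul_ne_zero hG2 (pow_ne_zero _ ht))
      · exact pow_eq_zero_iff (two_ne_zero) |>.1 h4
    by_cases t0 : u0 = 0
    · by_cases t1 : u1 = 0
      · by_cases t2 : u2 = 0
        · exfalso
          apply hun
          rw [t0, t1, t2]
          funext i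
          fin_cases i <;> rfl
        · apply hS u2 t2
          linear_combination hC2 - (B1 ^ 2 * G * u0 ^ 4 * (B0 ^ 2 * (B0 ^ 2 + B1 ^ 2) * u1 ^ 4)) * h2
      · apply hS u1 t1
        linear_combination hC1 - (B0 ^ 2 * G * u2 ^ 4 * (B0 ^ 2 * B1 ^ 2 * u0 ^ 4)) * h2
    · apply hS u0 t0
      linear_combination hC0 - ((B0 ^ 2 + B1 ^ 2) * G * u1 ^ 4 * (B0 ^ 2 * B0 ^ 2 * u2 ^ 4)) * h2

end Pool.Agent.Helper553.Uni
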