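import Pool.Agent.Helper553.Uni.SurfB
import Pool.Agent.Helper553.Uni.Jac
import Pool.Agent.Helper553.Uni.Clr
import Pool.Agent.Helper553.Uni.Nui
import Pool.Agent.Helper553.Uni.Surj
import Pool.Agent.Helper553.Uni.Mem
import Pool.Agent.Helper553.Uni.Irr
import Pool.Agent.Helper553.Uni.Rc
import Pool.Agent.Helper553.Uni.Chart

set_option autoImplicit false

open MvPolynomial

namespace Pool.Agent.Helper553.Uni

variable {k : Type} [Field k]

/-- The surface. -/
def surface (β : Fin 4 → k) : BiProj k 1 5 where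
  eqs := {f | ∃ t i, f = eqn (fun j => C (β j)) X t i}
  bihom := by
    rintro f ⟨t, i, rfl⟩
    exact eqn_bihom β t i

theorem aeval_eqn {K : Type} [Field K] [Algebra k K] (β : Fin 4 → k) (v : Coord 1 5 → K)
    (t : Fin 4) (i : Fin 3) :
    aeval v (eqn (fun j => (C (β j) : MvPolynomial (Coord 1 5) k)) X t i) =
      eqn (fun j => algebraMap k K (β j)) v t i := by
  have := map_eqn (aeval v : MvPolynomial (Coord 1 5) k →ₐ[k] K).toRingHom (fun j => C (β j)) X t i
  simpa using this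

theorem mem_points {K : Type} [Field K] [Algebra k K] (β : Fin 4 → k) (v : Coord 1 5 → K) :
    v ∈ (surface β).points K ↔ (∃ i, v (Sum.inl i) ≠ 0) ∧ (∃ j, v (Sum.inr j) ≠ 0) ∧
      ∀ t i, eqn (fun j => algebraMap k K (β j)) v t i = 0 := by
  constructor
  · rintro ⟨h1, h2, h3⟩
    exact ⟨h1, h2, fun t i => by rw [← aeval_eqn]; exact h3 _ ⟨t, i, rfl⟩⟩
  · rintro ⟨h1, h2, h3⟩
    refine ⟨h1, h2, ?_⟩
    rintro f ⟨t, i, rfl⟩
    rw [aeval_eqn]; exact h3 t i

/-- At a zero of `gam` the linear forms do not vanish. -/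
theorem gam_zero_mm {K : Type} [Field K] [CharP K 2] (β : Fin 4 → K) (h0 : ∀ j, β j ≠ 0)
    (h1 : ∀ j, β j ≠ 1) (v : Coord 1 5 → K) (hl : ∃ i, v (Sum.inl i) ≠ 0)
    (hg : gam β v = 0) : v (Sum.inl 0) ≠ 0 ∧ ∀ i, mm v i ≠ 0 := by
  have h2 : (2 : K) = 0 := CharTwo.two_eq_zero
  obtain ⟨j, hj⟩ : ∃ j, v (Sum.inl 1) + β j * v (Sum.inl 0) = 0 := by
    unfold gam at hg
    rcases mul_eq_zero.1 hg with hg | hg
    · rcases mul_eq_zero.1 hg with hg | hg
      · rcases mul_eq_zero.1 hg with hg | hg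
        · exact ⟨0, hg⟩
        · exact ⟨1, hg⟩
      · exact ⟨2, hg⟩
    · exact ⟨3, hg⟩
  have hb1 : v (Sum.inl 1) = β j * v (Sum.inl 0) := by
    linear_combination hj - β j * v (Sum.inl 0) * h2
  have hb0 : v (Sum.inl 0) ≠ 0 := by
    intro h
    rw [h, mul_zero] at hb1
    obtain ⟨i, hi⟩ := hl
    fin_cases i
    · exact hi h
    · exact hi hb1
  refine ⟨hb0, fun i => ?_⟩
  fin_cases i
  · change v (Sum.inl 1) ≠ 0
    rw [hb1]
    exact mul_ne_zero (h0 j) hb0
  · change v (Sum.inl 0) + v (Sum.inl 1) ≠ 0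
    rw [hb1]
    intro h
    have h3 : (1 + β j) * v (Sum.inl 0) = 0 := by linear_combination h
    rcases mul_eq_zero.1 h3 with h4 | h4
    · exact h1 j (by linear_combination h4 - h2)
    · exact hb0 h4
  · exact hb0

/-- At a point with `gam = 0` the first three right coordinates vanish. -/
theorem gam_zero_xx {K : Type} [Field K] [CharP K 2] (β : Fin 4 → K) (h0 : ∀ j, β j ≠ 0)
    (h1 : ∀ j, β j ≠ 1) (v : Coord 1 5 → K) (hl : ∃ i, v (Sum.inl i) ≠ 0)
    (hg : gam β v = 0) (hv : ∀ i, eqn β v 0 i = 0) (i : Fin 3) : xx v i = 0 := by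
  obtain ⟨hb, hm⟩ := gam_zero_mm β h0 h1 v hl hg
  have h : EA (gam β v) (kap v) (mm v) (xx v) (pp v) i = 0 := hv i
  unfold EA at h
  rw [hg, zero_mul, zero_mul, zero_add, zero_add] at h
  have hk : kap v * mm v i ^ 2 ≠ 0 := mul_ne_zero (pow_ne_zero _ hb) (pow_ne_zero _ (hm i))
  exact pow_eq_zero_iff (two_ne_zero) |>.1 ((mul_eq_zero.1 h).resolve_left hk)

theorem blocks {K : Type} [Field K] (v : Coord 1 5 → K) (hx : ∀ i, xx v i = 0)
    (hp : ∀ i, pp v i = 0) (j : Fin 6) : v (Sum.inr j) = 0 := by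
  fin_cases j
  · exact hx 0
  · exact hx 1
  · exact hx 2
  · exact hp 0
  · exact hp 1
  · exact hp 2

theorem gam_ne_xx {K : Type} [Field K] (β : Fin 4 → K) (v : Coord 1 5 → K)
    (hr : ∃ j, v (Sum.inr j) ≠ 0) (hg : gam β v ≠ 0) (hv : ∀ i, eqn β v 0 i = 0) :
    ∃ i, xx v i ≠ 0 := by
  by_contra hc
  push Not at hc
  obtain ⟨j, hj⟩ := hr
  refine hj (blocks v hc (fun i => ?_) j)
  have h : EA (gam β v) (kap v) (mm v) (xx v) (pp v) i = 0 := hv i
  unfold EA at h
  rw [hc, hc, hc] at h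
  have h3 : gam β v * pp v i ^ 2 = 0 := by linear_combination h
  exact pow_eq_zero_iff (two_ne_zero) |>.1 ((mul_eq_zero.1 h3).resolve_left hg)

instance charP_closure [CharP k 2] : CharP (AlgebraicClosure k) 2 :=
  charP_of_injective_algebraMap (algebraMap k (AlgebraicClosure k)).injective 2

theorem mk_eqn (β : Fin 4 → k) (I : Ideal (MvPolynomial (Coord 1 5) k)) (t : Fin 4) (i : Fin 3) :
    Ideal.Quotient.mk I (eqn (fun j => C (β j)) X t i) =
      eqn (fun j => Ideal.Quotient.mk I (C (β j))) (fun c => Ideal.Quotient.mk I (X c)) t i :=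
  map_eqn _ _ _ _ _

theorem mk_gam (β : Fin 4 → k) (I : Ideal (MvPolynomial (Coord 1 5) k)) :
    Ideal.Quotient.mk I (gam (fun j => C (β j)) X) =
      gam (fun j => Ideal.Quotient.mk I (C (β j))) (fun c => Ideal.Quotient.mk I (X c)) := by
  simp [gam]

theorem mk_xx (I : Ideal (MvPolynomial (Coord 1 5) k)) (i : Fin 3) :
    Ideal.Quotient.mk I (xx X i) = xx (fun c => Ideal.Quotient.mk I (X c)) i := by
  fin_cases i <;> rfl

theorem mk_dB (I : Ideal (MvPolynomial (Coord 1 5) k)) (i : Fin 3) :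
    Ideal.Quotient.mk I (dB X i) = dB (fun c => Ideal.Quotient.mk I (X c)) i := by
  fin_cases i <;> simp [dB, mm, xx, pp]

theorem aeval_dB {K : Type} [Field K] [Algebra k K] (p : Coord 1 5 → K) (i : Fin 3) :
    aeval p (dB X i : MvPolynomial (Coord 1 5) k) = dB p i := by
  fin_cases i <;> simp [dB, mm, xx, pp]

theorem aeval_gam {K : Type} [Field K] [Algebra k K] (β : Fin 4 → k) (p : Coord 1 5 → K) :
    aeval p (gam (fun j => C (β j)) X : MvPolynomial (Coord 1 5) k) =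
      gam (fun j => algebraMap k K (β j)) p := by
  simp [gam]

theorem aeval_xx {K : Type} [Field K] [Algebra k K] (p : Coord 1 5 → K) (i : Fin 3) :
    aeval p (xx X i : MvPolynomial (Coord 1 5) k) = xx p i := by
  fin_cases i <;> simp [xx]

theorem forall4 {α : Type} {P : α → Prop} {a b c d : α} (ha : P a) (hb : P b) (hc : P c)
    (hd : P d) : ∀ i : Fin 4, P ((![a, b, c, d] : Fin 4 → α) i) := by
  intro i
  fin_cases i
  · exact ha
  · exact hb
  · exact hc
  · exact hd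

theorem four0 {α : Type} (a b c d : α) : (![a, b, c, d] : Fin 4 → α) 0 = a := rfl
theorem four1 {α : Type} (a b c d : α) : (![a, b, c, d] : Fin 4 → α) 1 = b := rfl
theorem four2 {α : Type} (a b c d : α) : (![a, b, c, d] : Fin 4 → α) 2 = c := rfl
theorem four3 {α : Type} (a b c d : α) : (![a, b, c, d] : Fin 4 → α) 3 = d := rfl

theorem mem_eqs (β : Fin 4 → k) (t : Fin 4) (i : Fin 3) :
    eqn (fun j => C (β j)) X t i ∈ Ideal.span (surface β).eqs :=
  Ideal.subset_span ⟨t, i, rfl⟩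

theorem idealA [CharP k 2] (β : Fin 4 → k) (i : Fin 3) (F : Fin 4 → MvPolynomial (Coord 1 5) k)
    (h0 : F 0 = eqn (fun j => C (β j)) X 0 (i + 1)) (h1 : F 1 = eqn (fun j => C (β j)) X 0 (i + 2))
    (h2 : F 2 = eqn (fun j => C (β j)) X 1 i) (h3 : F 3 = eqn (fun j => C (β j)) X 2 i)
    (t : Fin 4) (j : Fin 3) :
    gam (fun j => C (β j)) X ^ 2 * xx X i ^ 2 * eqn (fun j => C (β j)) X t j ∈
      Ideal.span (Set.range F) := by
  have hz : ∀ a, Ideal.Quotient.mk (Ideal.span (Set.range F)) (F a) = 0 := fun a =>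
    Ideal.Quotient.eq_zero_iff_mem.2 (Ideal.subset_span ⟨a, rfl⟩)
  have hz0 := hz 0
  have hz1 := hz 1
  have hz2 := hz 2
  have hz3 := hz 3
  rw [h0, mk_eqn] at hz0
  rw [h1, mk_eqn] at hz1
  rw [h2, mk_eqn] at hz2
  rw [h3, mk_eqn] at hz3
  have h4 : (2 : MvPolynomial (Coord 1 5) k ⧸ Ideal.span (Set.range F)) = 0 := by
    have : (2 : MvPolynomial (Coord 1 5) k) = 0 := CharTwo.two_eq_zero
    have h5 := congrArg (Ideal.Quotient.mk (Ideal.span (Set.range F))) this
    rwa [map_ofNat, map_zero] at h5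
  have h6 := chartA h4 _ _ i hz0 hz1 hz2 hz3 t j
  rw [← mk_gam, ← mk_eqn, ← mk_xx, ← map_pow, ← map_pow, ← map_mul, ← map_mul,
    Ideal.Quotient.eq_zero_iff_mem] at h6
  exact h6

theorem idealB [CharP k 2] (β : Fin 4 → k) (i : Fin 3) (F : Fin 4 → MvPolynomial (Coord 1 5) k)
    (h0 : F 0 = eqn (fun j => C (β j)) X 0 i) (h1 : F 1 = eqn (fun j => C (β j)) X 2 (i + 1))
    (h2 : F 2 = eqn (fun j => C (β j)) X 2 (i + 2)) (h3 : F 3 = eqn (fun j => C (β j)) X 3 0)
    (t : Fin 4) (j : Fin 3) :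
    dB X i * eqn (fun j => C (β j)) X t j ∈ Ideal.span (Set.range F) := by
  have hz : ∀ a, Ideal.Quotient.mk (Ideal.span (Set.range F)) (F a) = 0 := fun a =>
    Ideal.Quotient.eq_zero_iff_mem.2 (Ideal.subset_span ⟨a, rfl⟩)
  have hz0 := hz 0
  have hz1 := hz 1
  have hz2 := hz 2
  have hz3 := hz 3
  rw [h0, mk_eqn] at hz0
  rw [h1, mk_eqn] at hz1
  rw [h2, mk_eqn] at hz2
  rw [h3, mk_eqn] at hz3
  have h4 : (2 : MvPolynomial (Coord 1 5) k ⧸ Ideal.span (Set.range F)) = 0 := by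
    have : (2 : MvPolynomial (Coord 1 5) k) = 0 := CharTwo.two_eq_zero
    have h5 := congrArg (Ideal.Quotient.mk (Ideal.span (Set.range F))) this
    rwa [map_ofNat, map_zero] at h5
  have h6 := chartB h4 _ _ i hz0 hz1 hz2 hz3 t j
  rw [← mk_dB, ← mk_eqn, ← map_mul, Ideal.Quotient.eq_zero_iff_mem] at h6
  exact h6

theorem smooth [CharP k 2] (β : Fin 4 → k) (hβ : Function.Injective β) (h0 : ∀ j, β j ≠ 0)
    (h1 : ∀ j, β j ≠ 1) : (surface β).SmoothOfDim 2 := by
  refine ⟨4, rfl, fun p hp => ?_⟩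
  rw [mem_points] at hp
  obtain ⟨hl, hr, hv⟩ := hp
  have h0' : ∀ j, algebraMap k (AlgebraicClosure k) (β j) ≠ 0 := fun j => by
    simpa using h0 j
  have h1' : ∀ j, algebraMap k (AlgebraicClosure k) (β j) ≠ 1 := fun j h =>
    h1 j ((algebraMap k (AlgebraicClosure k)).injective (by rw [h, map_one]))
  by_cases hg : gam (fun j => algebraMap k (AlgebraicClosure k) (β j)) p = 0
  · have hx := gam_zero_xx _ h0' h1' p hl hg (fun i => hv 0 i)
    obtain ⟨hb, hm⟩ := gam_zero_mm _ h0' h1' p hl hg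
    obtain ⟨i, hi⟩ : ∃ i, pp p i ≠ 0 := by
      by_contra hc
      push Not at hc
      obtain ⟨j, hj⟩ := hr
      exact hj (blocks p hx hc j)
    obtain ⟨s, hs⟩ := jacB β hβ h0 h1 p i hl hg hx hi
    refine ⟨![eqn (fun j => C (β j)) X 0 i, eqn (fun j => C (β j)) X 2 (i + 1),
        eqn (fun j => C (β j)) X 2 (i + 2), eqn (fun j => C (β j)) X 3 0], dB X i, s,
        ?_, ?_, ?_, hs⟩
    · exact forall4 (P := fun f => f ∈ Ideal.span (surface β).eqs) (mem_eqs β 0 i)
        (mem_eqs β 2 (i + 1)) (mem_eqs β 2 (i + 2)) (mem_eqs β 3 0)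
    · have e1 : dB p i = mm p (i + 1) * mm p (i + 2) * pp p i ^ 6 := by
        rw [dB, hx, hx]
        ring
      rw [aeval_dB, e1]
      exact mul_ne_zero (mul_ne_zero (hm _) (hm _)) (pow_ne_zero _ hi)
    · rintro f ⟨t, j, rfl⟩
      exact idealB β i _ (four0 _ _ _ _) (four1 _ _ _ _) (four2 _ _ _ _) (four3 _ _ _ _) t j
  · obtain ⟨i, hi⟩ := gam_ne_xx _ p hr hg (fun i => hv 0 i)
    obtain ⟨s, hs⟩ := jacA β p i hl hv hg hi
    refine ⟨![eqn (fun j => C (β j)) X 0 (i + 1), eqn (fun j => C (β j)) X 0 (i + 2),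
        eqn (fun j => C (β j)) X 1 i, eqn (fun j => C (β j)) X 2 i],
        gam (fun j => C (β j)) X ^ 2 * xx X i ^ 2, s, ?_, ?_, ?_, hs⟩
    · exact forall4 (P := fun f => f ∈ Ideal.span (surface β).eqs) (mem_eqs β 0 (i + 1))
        (mem_eqs β 0 (i + 2)) (mem_eqs β 1 i) (mem_eqs β 2 i)
    · rw [map_mul, map_pow, map_pow, aeval_gam, aeval_xx]
      exact mul_ne_zero (pow_ne_zero _ hg) (pow_ne_zero _ hi)
    · rintro f ⟨t, j, rfl⟩
      exact idealA β i _ (four0 _ _ _ _) (four1 _ _ _ _) (four2 _ _ _ _) (four3 _ _ _ _) t j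

/-! ### Geometric points -/

section Closed

variable (β : Fin 4 → k) (h0 : ∀ j, β j ≠ 0) (h1 : ∀ j, β j ≠ 1)
  (r : Fin 4 → AlgebraicClosure k)
  (hr : ∀ j, r j ^ 2 = algebraMap k (AlgebraicClosure k) (β j))

include hr h0 in
theorem r_ne_zero (j : Fin 4) : r j ≠ 0 := by
  intro h
  have h2 := hr j
  rw [h, zero_pow two_ne_zero] at h2
  exact h0 j (by simpa using h2.symm)

include hr h1 in
theorem r_ne_one (j : Fin 4) : r j ≠ 1 := by
  intro h
  have h2 := hr j
  rw [h, one_pow] at h2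
  exact h1 j ((algebraMap k (AlgebraicClosure k)).injective (by rw [← h2, map_one]))

include hr h0 h1 in
theorem points_iff [CharP k 2] (v : Coord 1 5 → AlgebraicClosure k) :
    v ∈ (surface β).points (AlgebraicClosure k) ↔
      ∃ (B : Fin 2 → AlgebraicClosure k) (u : Fin 3 → AlgebraicClosure k),
        B ≠ 0 ∧ u ≠ 0 ∧ JJ B u = 0 ∧ v = par r B u := by
  rw [mem_points]
  have hfun : (fun j => algebraMap k (AlgebraicClosure k) (β j)) = fun j => r j ^ 2 :=
    funext fun j => (hr j).symm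
  rw [hfun]
  constructor
  · rintro ⟨hl, hrr, hv⟩
    exact par_surj r (r_ne_zero β h0 r hr) (r_ne_one β h1 r hr) v hl hrr hv
  · rintro ⟨B, u, hB, hu, hJ, rfl⟩
    obtain ⟨h3, h4⟩ := par_ne r (r_ne_zero β h0 r hr) (r_ne_one β h1 r hr) B u hB hu
    exact ⟨h3, h4, fun t i => par_eqn CharTwo.two_eq_zero r B u hJ t i⟩

end Closed

theorem exists_r (β : Fin 4 → k) :
    ∃ r : Fin 4 → AlgebraicClosure k, ∀ j, r j ^ 2 = algebraMap k (AlgebraicClosure k) (β j) := by
  choose r hr using fun j => IsAlgClosed.exists_pow_nat_eq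
    (algebraMap k (AlgebraicClosure k) (β j)) (n := 2) two_pos
  exact ⟨r, hr⟩

theorem JJ_ex0 {A : Type} [CommRing A] : JJ (![1, 0] : Fin 2 → A) ![1, 0, 0] = 0 := by
  simp [JJ]

theorem JJ_ex1 {A : Type} [CommRing A] (h2 : (2 : A) = 0) :
    JJ (![1, 1] : Fin 2 → A) ![0, 1, 0] = 0 := by
  simp only [JJ, Matrix.cons_val_zero, Matrix.cons_val_one, Matrix.cons_val]
  linear_combination h2

theorem irreducible_surface [CharP k 2] (β : Fin 4 → k) (h0 : ∀ j, β j ≠ 0)
    (h1 : ∀ j, β j ≠ 1) : (surface β).GeomIrreducible := by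
  obtain ⟨r, hr⟩ := exists_r β
  have hpt := points_iff β h0 h1 r hr
  constructor
  · exact ⟨_, (hpt _).2 ⟨![1, 0], ![1, 0, 0], fun h => one_ne_zero (congrFun h 0),
      fun h => one_ne_zero (congrFun h 0), JJ_ex0, rfl⟩⟩
  · intro f g h
    have := par_irred r f g (fun B u hB hu hJ => h _ ((hpt _).2 ⟨B, u, hB, hu, hJ, rfl⟩))
    rcases this with h3 | h3
    · left
      intro p hp
      obtain ⟨B, u, hB, hu, hJ, rfl⟩ := (hpt p).1 hp
      exact h3 B u hB hu hJ
    · right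
      intro p hp
      obtain ⟨B, u, hB, hu, hJ, rfl⟩ := (hpt p).1 hp
      exact h3 B u hB hu hJ

/-- The polynomial cutting out the bad pairs of points. -/
noncomputable def HH {K : Type} [Field K] (ω : K) : MvPolynomial (Coord 1 5 ⊕ Coord 1 5) K :=
  ∏ a : Fin 3, ∏ b : Fin 3, det3 (xx fun c => X (Sum.inl c)) (xx fun c => X (Sum.inr c))
    (C (ω ^ a.val)) (C (ω ^ b.val))

theorem eval_HH {K : Type} [Field K] (ω : K) (p q : Coord 1 5 → K) :
    eval (Sum.elim p q) (HH ω) = ∏ a : Fin 3, ∏ b : Fin 3,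
      det3 (xx p) (xx q) (ω ^ a.val) (ω ^ b.val) := by
  unfold HH
  rw [map_prod]
  refine Finset.prod_congr rfl fun a _ => ?_
  rw [map_prod]
  refine Finset.prod_congr rfl fun b _ => ?_
  simp [det3, xx]

theorem rationallyConnected_surface [CharP k 2] (β : Fin 4 → k) (h0 : ∀ j, β j ≠ 0)
    (h1 : ∀ j, β j ≠ 1) : (surface β).RationallyConnected := by
  obtain ⟨r, hr⟩ := exists_r β
  have hpt := points_iff β h0 h1 r hr
  obtain ⟨ω, hω⟩ : ∃ ω : AlgebraicClosure k, ω ^ 2 + ω + 1 = 0 := by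
    obtain ⟨ω, hω⟩ := IsAlgClosed.exists_root
      (Polynomial.X ^ 2 + Polynomial.X + 1 : Polynomial (AlgebraicClosure k))
      (by
        have : (Polynomial.X ^ 2 + Polynomial.X + 1 : Polynomial (AlgebraicClosure k)).degree = 2 := by
          compute_degree!
        rw [this]; decide)
    refine ⟨ω, ?_⟩
    simpa [Polynomial.IsRoot] using hω
  have hω0 : ω ≠ 0 := by
    rintro rfl
    simp at hω
  refine ⟨HH ω, ?_, ?_⟩
  · refine ⟨par r ![1, 0] ![1, 0, 0], (hpt _).2 ⟨_, _, fun h => one_ne_zero (congrFun h 0),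
      fun h => one_ne_zero (congrFun h 0), JJ_ex0, rfl⟩,
      par r ![1, 1] ![0, 1, 0], (hpt _).2 ⟨_, _, fun h => one_ne_zero (congrFun h 0),
      fun h => one_ne_zero (congrFun h 1), JJ_ex1 CharTwo.two_eq_zero, rfl⟩, ?_⟩
    rw [eval_HH]
    refine Finset.prod_ne_zero_iff.2 fun a _ => Finset.prod_ne_zero_iff.2 fun b _ => ?_
    have hG0 : GG r ![1, 0] ≠ 0 := by
      simp only [GG, Matrix.cons_val_zero, Matrix.cons_val_one, zero_add, mul_one]
      exact mul_ne_zero (mul_ne_zero (mul_ne_zero (r_ne_zero β h0 r hr 0) (r_ne_zero β h0 r hr 1))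
        (r_ne_zero β h0 r hr 2)) (r_ne_zero β h0 r hr 3)
    have hG1 : GG r ![1, 1] ≠ 0 := by
      have h3 : ∀ j, 1 + r j * 1 ≠ 0 := fun j h =>
        r_ne_one β h1 r hr j (by
          have h2 : (2 : AlgebraicClosure k) = 0 := CharTwo.two_eq_zero
          linear_combination h - h2)
      simp only [GG, Matrix.cons_val_zero, Matrix.cons_val_one]
      exact mul_ne_zero (mul_ne_zero (mul_ne_zero (h3 0) (h3 1)) (h3 2)) (h3 3)
    have : det3 (xx (par r ![1, 0] ![1, 0, 0])) (xx (par r ![1, 1] ![0, 1, 0])) (ω ^ a.val)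
        (ω ^ b.val) = GG r ![1, 0] * GG r ![1, 1] * ω ^ b.val := by
      simp [det3, xx, par]
      ring
    rw [this]
    exact mul_ne_zero (mul_ne_zero hG0 hG1) (pow_ne_zero _ hω0)
  · intro p hp q hq hH
    obtain ⟨B, u, hB, hu, hJ, rfl⟩ := (hpt p).1 hp
    obtain ⟨B', u', hB', hu', hJ', rfl⟩ := (hpt q).1 hq
    rw [eval_HH] at hH
    have hdet : ∀ a b : Fin 3, det3 (xx (par r B u)) (xx (par r B' u')) (ω ^ a.val)
        (ω ^ b.val) ≠ 0 := fun a b =>
      Finset.prod_ne_zero_iff.1 (Finset.prod_ne_zero_iff.1 hH a (Finset.mem_univ a)) b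
        (Finset.mem_univ b)
    obtain ⟨φ, hφ1, hφ2, hφ3, hφ4, hφ5⟩ := rc_core r ω hω B B' u u' hB hB' hu hu' hJ hJ' hdet
    refine ⟨⟨φ, 6, 16, hφ1, hφ2, ?_⟩, hφ4, hφ5⟩
    intro s hs
    obtain ⟨C', w, hC, hw, hJw, he⟩ := hφ3 s hs
    rw [he]
    exact (hpt _).2 ⟨C', w, hC, hw, hJw, rfl⟩

theorem point_surface [CharP k 2] (β : Fin 4 → k) : ((surface β).points k).Nonempty := by
  have h2 : (2 : k) = 0 := CharTwo.two_eq_zero
  refine ⟨Sum.elim ![1, β 0] ![0, 0, 0, β 0, 1 + β 0, 1], ?_⟩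
  rw [mem_points]
  refine ⟨⟨0, one_ne_zero⟩, ⟨5, one_ne_zero⟩, ?_⟩
  have hg : gam β (Sum.elim ![1, β 0] ![0, 0, 0, β 0, 1 + β 0, 1] : Coord 1 5 → k) = 0 := by
    have : (β 0 + β 0 * 1 : k) = 0 := by linear_combination β 0 * h2
    simp only [gam, Sum.elim_inl, Matrix.cons_val_zero, Matrix.cons_val_one, this, zero_mul]
  intro t i
  simp only [Algebra.algebraMap_self, RingHom.id_apply]
  change eqn β _ t i = 0
  fin_cases t
  · fin_cases i <;> simp [eqn, EA, hg, xx]
  · fin_cases i <;> simp [eqn, EB, hg, xx]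
  · fin_cases i <;> simp [eqn, EC, xx]
  · change ED _ _ _ = 0
    simp only [ED, mm, xx, pp, Sum.elim_inl, Sum.elim_inr, Matrix.cons_val_zero,
      Matrix.cons_val_one, Matrix.cons_val]
    linear_combination (β 0 * (1 + β 0) * (β 0 ^ 2 + β 0 + 1)) * h2

theorem not_unirational_surface [CharP k 2] (β : Fin 4 → k) (hβ : Function.Injective β)
    (h0 : ∀ j, β j ≠ 0) (h1 : ∀ j, β j ≠ 1)
    (hns : ¬ IsSquare ((β 2 + β 1) * (β 3 + β 0) / ((β 2 + β 0) * (β 3 + β 1)))) :
    ¬ (surface β).Unirational := by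
  rintro ⟨N, p, hp, hdom⟩
  rw [mem_points] at hp
  obtain ⟨hl, hrr, hv⟩ := hp
  obtain ⟨w, a, e, ha, he, hwl, hwr, hcop⟩ := clear_denoms
    (R := MvPolynomial (Fin N) k) (K := FractionRing (MvPolynomial (Fin N) k)) p hl
  have hinj : Function.Injective (algebraMap (MvPolynomial (Fin N) k)
    (FractionRing (MvPolynomial (Fin N) k))) := IsFractionRing.injective _ _
  have hw : ∀ t i, eqn (fun j => C (β j)) w t i = 0 := by
    intro t i
    apply hinj
    rw [map_eqn, map_zero]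
    have h3 := hv t i
    rw [eqn_scale _ p (fun c => algebraMap _ _ (w c)) a e hwl hwr t i] at h3
    have h4 := (mul_eq_zero.1 h3).resolve_left (mul_ne_zero (pow_ne_zero _ ha) (pow_ne_zero _ he))
    have h5 : (fun j => algebraMap (MvPolynomial (Fin N) k)
        (FractionRing (MvPolynomial (Fin N) k)) (C (β j))) =
        fun j => algebraMap k (FractionRing (MvPolynomial (Fin N) k)) (β j) := by
      funext j
      rw [IsScalarTower.algebraMap_apply k (MvPolynomial (Fin N) k)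
        (FractionRing (MvPolynomial (Fin N) k))]
      rfl
    rw [h5]
    exact h4
  have key : ∃ s t : k, ¬ (s = 0 ∧ t = 0) ∧ C s * w (Sum.inl 0) + C t * w (Sum.inl 1) = 0 := by
    have hA : ∀ i, EA (gam (fun j => C (β j)) w) (kap w) (mm w) (xx w) (pp w) i = 0 :=
      fun i => hw 0 i
    by_cases hne : xx w 0 = 0 ∧ xx w 1 = 0 ∧ xx w 2 = 0
    · have hx : ∀ i, xx w i = 0 := by
        intro i; fin_cases i
        · exact hne.1
        · exact hne.2.1
        · exact hne.2.2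
      by_cases hg : gam (fun j => (C (β j) : MvPolynomial (Fin N) k)) w = 0
      · obtain ⟨j, hj⟩ : ∃ j, w (Sum.inl 1) + C (β j) * w (Sum.inl 0) = 0 := by
          unfold gam at hg
          rcases mul_eq_zero.1 hg with hg | hg
          · rcases mul_eq_zero.1 hg with hg | hg
            · rcases mul_eq_zero.1 hg with hg | hg
              · exact ⟨0, hg⟩
              · exact ⟨1, hg⟩
            · exact ⟨2, hg⟩
          · exact ⟨3, hg⟩
        refine ⟨β j, 1, fun h => one_ne_zero h.2, ?_⟩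
        rw [C_1]
        linear_combination hj
      · exfalso
        obtain ⟨j, hj⟩ := hrr
        apply hj
        rw [hwr]
        have hp0 : ∀ i, pp w i = 0 := by
          intro i
          have h := hA i
          unfold EA at h
          rw [hx, hx, hx] at h
          have h3 : gam (fun j => C (β j)) w * pp w i ^ 2 = 0 := by linear_combination h
          exact pow_eq_zero_iff (two_ne_zero) |>.1 ((mul_eq_zero.1 h3).resolve_left hg)
        have : w (Sum.inr j) = 0 := by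
          fin_cases j
          · exact hx 0
          · exact hx 1
          · exact hx 2
          · exact hp0 0
          · exact hp0 1
          · exact hp0 2
        rw [this, map_zero, mul_zero]
    · exact nonuni_int β hβ h0 h1 hns (w (Sum.inl 0)) (w (Sum.inl 1)) (xx w 0) (xx w 1) (xx w 2)
        (pp w 0) (pp w 1) (pp w 2) hcop hne (gam (fun j => C (β j)) w) rfl (hA 0) (hA 1) (hA 2)
  obtain ⟨s, t, hst, hrel⟩ := key
  have hz := hdom (C s * X (Sum.inl 0) + C t * X (Sum.inl 1)) ⟨(1, 0), by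
    have a0 := (isWeightedHomogeneous_C (bideg 1 5) s).mul
      (isWeightedHomogeneous_X k (bideg 1 5) (Sum.inl 0))
    have a1 := (isWeightedHomogeneous_C (bideg 1 5) t).mul
      (isWeightedHomogeneous_X k (bideg 1 5) (Sum.inl 1))
    rw [zero_add] at a0 a1
    exact a0.add a1⟩ (by
      rw [map_add, map_mul, map_mul, aeval_C, aeval_C, aeval_X, aeval_X, hwl, hwl]
      have h5 : ∀ j : k, algebraMap (MvPolynomial (Fin N) k)
          (FractionRing (MvPolynomial (Fin N) k)) (C j) =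
          algebraMap k (FractionRing (MvPolynomial (Fin N) k)) j := by
        intro j
        rw [IsScalarTower.algebraMap_apply k (MvPolynomial (Fin N) k)
          (FractionRing (MvPolynomial (Fin N) k))]
        rfl
      have h6 := congrArg (algebraMap (MvPolynomial (Fin N) k)
          (FractionRing (MvPolynomial (Fin N) k))) hrel
      rw [map_add, map_mul, map_mul, h5, h5, map_zero] at h6
      linear_combination a * h6)
  obtain ⟨r, hr⟩ := exists_r β
  have hpt := points_iff β h0 h1 r hr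
  have z0 := hz _ ((hpt (par r ![1, 0] ![1, 0, 0])).2 ⟨_, _, fun h => one_ne_zero (congrFun h 0),
      fun h => one_ne_zero (congrFun h 0), JJ_ex0, rfl⟩)
  have z1 := hz _ ((hpt (par r ![1, 1] ![0, 1, 0])).2 ⟨_, _, fun h => one_ne_zero (congrFun h 0),
      fun h => one_ne_zero (congrFun h 1), JJ_ex1 CharTwo.two_eq_zero, rfl⟩)
  simp [par] at z0 z1
  rw [z0] at z1
  simp at z1
  exact hst ⟨z0, z1⟩

end Pool.Agent.Helper553.Uni
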