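import Pool.Agent.Helper553.Uni.Defs

set_option autoImplicit false

open MvPolynomial

namespace Pool.Agent.Helper553.Uni

/-! ## The surfaces -/

section Surface

variable {A : Type} [CommRing A]

/-- The three linear forms `b₁`, `b₀ + b₁`, `b₀` in the left coordinates. -/
def mm (v : Coord 1 5 → A) : Fin 3 → A :=
  ![v (Sum.inl 1), v (Sum.inl 0) + v (Sum.inl 1), v (Sum.inl 0)]

/-- The first three right coordinates. -/
def xx (v : Coord 1 5 → A) : Fin 3 → A := ![v (Sum.inr 0), v (Sum.inr 1), v (Sum.inr 2)]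

/-- The last three right coordinates. -/
def pp (v : Coord 1 5 → A) : Fin 3 → A := ![v (Sum.inr 3), v (Sum.inr 4), v (Sum.inr 5)]

/-- The binary quartic `∏ (b₁ + β_j b₀)`. -/
def gam (β : Fin 4 → A) (v : Coord 1 5 → A) : A :=
  (v (Sum.inl 1) + β 0 * v (Sum.inl 0)) * (v (Sum.inl 1) + β 1 * v (Sum.inl 0)) *
    (v (Sum.inl 1) + β 2 * v (Sum.inl 0)) * (v (Sum.inl 1) + β 3 * v (Sum.inl 0))

/-- The binary quadratic form `b₀ ^ 2`. -/
def kap (v : Coord 1 5 → A) : A := v (Sum.inl 0) ^ 2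

/-- First family of equations (indices are taken modulo 3). -/
def EA (g c : A) (m x p : Fin 3 → A) (i : Fin 3) : A :=
  g * p i ^ 2 + g * (x (i + 1) * x (i + 2)) + c * m i ^ 2 * x i ^ 2

/-- Second family of equations. -/
def EB (g c : A) (m x p : Fin 3 → A) (i : Fin 3) : A :=
  g * (p (i + 1) * p (i + 2)) + g * (x i * p i) +
    c * (m (i + 1) * m (i + 2)) * (x (i + 1) * x (i + 2))

/-- Third family of equations. -/
def EC (m x p : Fin 3 → A) (i : Fin 3) : A :=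
  m i * x i ^ 2 + m (i + 1) * (x (i + 1) * p (i + 2)) + m (i + 2) * (x (i + 2) * p (i + 1))

/-- The last equation. -/
def ED (m x p : Fin 3 → A) : A :=
  m 1 * m 2 * p 0 ^ 3 + m 0 * m 2 * p 1 ^ 3 + m 0 * m 1 * p 2 ^ 3 +
    m 1 * m 2 * (x 1 * x 2) * p 0 + m 0 * m 2 * (x 0 * x 2) * p 1 + m 0 * m 1 * (x 0 * x 1) * p 2

/-- The ten equations of the surface at the coordinate vector `v`: the families `EA`, `EB`, `EC`
for `t = 0, 1, 2`, and `ED` for `t = 3`. -/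
def eqn (β : Fin 4 → A) (v : Coord 1 5 → A) (t : Fin 4) (i : Fin 3) : A :=
  ![EA (gam β v) (kap v) (mm v) (xx v) (pp v) i, EB (gam β v) (kap v) (mm v) (xx v) (pp v) i,
    EC (mm v) (xx v) (pp v) i, ED (mm v) (xx v) (pp v)] t

/-- The product of the four linear forms `B₁ + r_j B₀`. -/
def GG (r : Fin 4 → A) (B : Fin 2 → A) : A :=
  (B 1 + r 0 * B 0) * (B 1 + r 1 * B 0) * (B 1 + r 2 * B 0) * (B 1 + r 3 * B 0)

/-- The cubic pencil. -/
def JJ (B : Fin 2 → A) (u : Fin 3 → A) : A :=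
  B 1 * u 0 ^ 3 + (B 0 + B 1) * u 1 ^ 3 + B 0 * u 2 ^ 3

/-- The parametrisation of the surface by the cubic pencil. -/
def par (r : Fin 4 → A) (B : Fin 2 → A) (u : Fin 3 → A) : Coord 1 5 → A :=
  Sum.elim ![B 0 ^ 2, B 1 ^ 2]
    ![GG r B * u 0 ^ 4, GG r B * u 1 ^ 4, GG r B * u 2 ^ 4,
      GG r B * (u 1 * u 2) ^ 2 + B 0 ^ 2 * B 1 ^ 2 * u 0 ^ 4,
      GG r B * (u 2 * u 0) ^ 2 + B 0 ^ 2 * (B 0 ^ 2 + B 1 ^ 2) * u 1 ^ 4,
      GG r B * (u 0 * u 1) ^ 2 + B 0 ^ 2 * B 0 ^ 2 * u 2 ^ 4]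

end Surface

end Pool.Agent.Helper553.Uni
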