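import Pool.Agent.Helper553.Uni.Surf

set_option autoImplicit false

open MvPolynomial

namespace Pool.Agent.Helper553.Uni

section

variable {k : Type} [Field k]

theorem hom_mm (i : Fin 3) :
    IsWeightedHomogeneous (bideg 1 5) (mm (X : Coord 1 5 → MvPolynomial (Coord 1 5) k) i) (1, 0) := by
  have h0 : IsWeightedHomogeneous (bideg 1 5)
    (X (Sum.inl 0) : MvPolynomial (Coord 1 5) k) (1, 0) := isWeightedHomogeneous_X k _ _
  have h1 : IsWeightedHomogeneous (bideg 1 5)
    (X (Sum.inl 1) : MvPolynomial (Coord 1 5) k) (1, 0) := isWeightedHomogeneous_X k _ _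
  fin_cases i
  · exact h1
  · exact h0.add h1
  · exact h0

theorem hom_xx (i : Fin 3) :
    IsWeightedHomogeneous (bideg 1 5) (xx (X : Coord 1 5 → MvPolynomial (Coord 1 5) k) i) (0, 1) := by
  fin_cases i <;> exact isWeightedHomogeneous_X k _ _

theorem hom_pp (i : Fin 3) :
    IsWeightedHomogeneous (bideg 1 5) (pp (X : Coord 1 5 → MvPolynomial (Coord 1 5) k) i) (0, 1) := by
  fin_cases i <;> exact isWeightedHomogeneous_X k _ _

theorem hom_lin (β : k) :
    IsWeightedHomogeneous (bideg 1 5) (X (Sum.inl 1) + C β * X (Sum.inl 0) :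
      MvPolynomial (Coord 1 5) k) (1, 0) := by
  have h0 : IsWeightedHomogeneous (bideg 1 5)
    (X (Sum.inl 0) : MvPolynomial (Coord 1 5) k) (1, 0) := isWeightedHomogeneous_X k _ _
  have h1 : IsWeightedHomogeneous (bideg 1 5)
    (X (Sum.inl 1) : MvPolynomial (Coord 1 5) k) (1, 0) := isWeightedHomogeneous_X k _ _
  have h2 := (isWeightedHomogeneous_C (bideg 1 5) β).mul h0
  rw [zero_add] at h2
  exact h1.add h2

theorem hom_gam (β : Fin 4 → k) :
    IsWeightedHomogeneous (bideg 1 5)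
      (gam (fun j => (C (β j) : MvPolynomial (Coord 1 5) k)) X) (4, 0) :=
  (((hom_lin (β 0)).mul (hom_lin (β 1))).mul (hom_lin (β 2))).mul (hom_lin (β 3))

theorem hom_kap :
    IsWeightedHomogeneous (bideg 1 5) (kap (X : Coord 1 5 → MvPolynomial (Coord 1 5) k)) (2, 0) :=
  (isWeightedHomogeneous_X k (bideg 1 5) (Sum.inl 0)).pow 2

theorem eqn_bihom (β : Fin 4 → k) (t : Fin 4) (i : Fin 3) :
    ∃ d : ℕ × ℕ, IsWeightedHomogeneous (bideg 1 5)
      (eqn (fun j => (C (β j) : MvPolynomial (Coord 1 5) k)) X t i) d := by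
  have hg := hom_gam β
  have hc : IsWeightedHomogeneous (bideg 1 5)
    (kap (X : Coord 1 5 → MvPolynomial (Coord 1 5) k)) (2, 0) := hom_kap
  have hm := hom_mm (k := k)
  have hx := hom_xx (k := k)
  have hp := hom_pp (k := k)
  match t with
  | 0 =>
    refine ⟨(4, 2), ?_⟩
    exact ((hg.mul ((hp i).pow 2)).add (hg.mul ((hx _).mul (hx _)))).add
      ((hc.mul ((hm i).pow 2)).mul ((hx i).pow 2))
  | 1 =>
    refine ⟨(4, 2), ?_⟩
    exact ((hg.mul ((hp _).mul (hp _))).add (hg.mul ((hx _).mul (hp _)))).add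
      ((hc.mul ((hm _).mul (hm _))).mul ((hx _).mul (hx _)))
  | 2 =>
    refine ⟨(1, 2), ?_⟩
    exact (((hm _).mul ((hx _).pow 2)).add ((hm _).mul ((hx _).mul (hp _)))).add
      ((hm _).mul ((hx _).mul (hp _)))
  | 3 =>
    refine ⟨(2, 3), ?_⟩
    exact ((((((hm _).mul (hm _)).mul ((hp _).pow 3)).add
      (((hm _).mul (hm _)).mul ((hp _).pow 3))).add
      (((hm _).mul (hm _)).mul ((hp _).pow 3))).add
      ((((hm _).mul (hm _)).mul ((hx _).mul (hx _))).mul (hp _))).add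
      ((((hm _).mul (hm _)).mul ((hx _).mul (hx _))).mul (hp _)) |>.add
      ((((hm _).mul (hm _)).mul ((hx _).mul (hx _))).mul (hp _))

end

section

variable {A A' : Type} [CommRing A] [CommRing A']

theorem eqn_scale (β : Fin 4 → A) (v w : Coord 1 5 → A) (a b : A)
    (hl : ∀ i, v (Sum.inl i) = a * w (Sum.inl i)) (hr : ∀ j, v (Sum.inr j) = b * w (Sum.inr j))
    (t : Fin 4) (i : Fin 3) :
    eqn β v t i = a ^ (![4, 4, 1, 2] t) * b ^ (![2, 2, 2, 3] t) * eqn β w t i := by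
  fin_cases t <;> fin_cases i <;>
    simp [eqn, EA, EB, EC, ED, gam, kap, mm, xx, pp, hl, hr] <;> ring

theorem map_eqn (φ : A →+* A') (β : Fin 4 → A)
    (v : Coord 1 5 → A) (t : Fin 4) (i : Fin 3) :
    φ (eqn β v t i) = eqn (fun j => φ (β j)) (fun c => φ (v c)) t i := by
  fin_cases t <;> fin_cases i <;>
    simp [eqn, EA, EB, EC, ED, gam, kap, mm, xx, pp]

end

end Pool.Agent.Helper553.Uni
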