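import Mathlib

set_option autoImplicit false

namespace Pool.Agent.Helper553.Uni

theorem even_mult_core {R : Type} [CommRing R] [IsDomain R] [WfDvdMonoid R] {π : R} (hπ : Prime π)
    (g a X Y Z P : R) (n : ℕ) (ha : ¬ π ∣ a) (hg : π ∣ g) (hg0 : g ≠ 0)
    (h1 : g * P ^ 2 + g * (Y * Z) + a * X ^ 2 = 0)
    (hX : π ^ n ∣ X) (hY : π ^ n ∣ Y) (hZ : π ^ n ∣ Z) (hX1 : ¬ π ^ (n + 1) ∣ X) :
    Even (multiplicity π g) := by
  have hfg : FiniteMultiplicity π g := FiniteMultiplicity.of_prime_left hπ hg0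
  obtain ⟨g', hg', hng'⟩ := hfg.exists_eq_pow_mul_and_not_dvd
  set e := multiplicity π g with he
  have he1 : e ≠ 0 := by
    intro h0
    rw [he, multiplicity_eq_zero] at h0
    exact h0 hg
  obtain ⟨e', he'⟩ : ∃ e', e = e' + 1 := ⟨e - 1, by omega⟩
  obtain ⟨X', rfl⟩ := hX
  obtain ⟨Y', rfl⟩ := hY
  obtain ⟨Z', rfl⟩ := hZ
  have hX' : ¬ π ∣ X' := by
    rintro ⟨c, rfl⟩
    exact hX1 ⟨c, by ring⟩
  have haX : ¬ π ∣ a * X' ^ 2 := by
    intro h
    rcases hπ.dvd_or_dvd h with h | h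
    · exact ha h
    · exact hX' (hπ.dvd_of_dvd_pow h)
  have hπ0 : ∀ k : ℕ, π ^ k ≠ 0 := fun k => pow_ne_zero _ hπ.ne_zero
  by_cases hP : P = 0
  · exfalso
    apply haX
    have h2 : π ^ (2 * n) * (π * (π ^ e' * g' * Y' * Z') + a * X' ^ 2) = 0 := by
      rw [← h1, hP, hg', he', pow_succ]
      ring
    have h3 := (mul_eq_zero.mp h2).resolve_left (hπ0 _)
    exact ⟨-(π ^ e' * g' * Y' * Z'), by linear_combination h3⟩
  · have hfP : FiniteMultiplicity π P := FiniteMultiplicity.of_prime_left hπ hP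
    obtain ⟨P', hP', hnP'⟩ := hfP.exists_eq_pow_mul_and_not_dvd
    set p := multiplicity π P with hp
    have hgP : ¬ π ∣ g' * P' ^ 2 := by
      intro h
      rcases hπ.dvd_or_dvd h with h | h
      · exact hng' h
      · exact hnP' (hπ.dvd_of_dvd_pow h)
    rcases lt_trichotomy (e + 2 * p) (2 * n) with h | h | h
    · exfalso
      apply hgP
      obtain ⟨r, hr⟩ : ∃ r, 2 * n = e + 2 * p + 1 + r := ⟨2 * n - (e + 2 * p + 1), by omega⟩
      have h2 : π ^ (e + 2 * p) * (g' * P' ^ 2 + π * (π ^ (r + e) * (g' * Y' * Z') + π ^ r * (a * X' ^ 2))) = 0 := by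
        have e1 : g * P ^ 2 = π ^ (e + 2 * p) * (g' * P' ^ 2) := by
          rw [hg', hP']; ring
        have e2 : g * (π ^ n * Y' * (π ^ n * Z')) = π ^ (e + 2 * p) * (π * (π ^ (r + e) * (g' * Y' * Z'))) := by
          have : π ^ n * π ^ n = π ^ (e + 2 * p + 1 + r) := by rw [← hr]; ring
          calc g * (π ^ n * Y' * (π ^ n * Z')) = (π ^ e * g') * (π ^ n * π ^ n) * (Y' * Z') := by
                conv_lhs => rw [hg']
                ring
            _ = _ := by rw [this]; ring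
        have e3 : a * (π ^ n * X') ^ 2 = π ^ (e + 2 * p) * (π * (π ^ r * (a * X' ^ 2))) := by
          have : π ^ n * π ^ n = π ^ (e + 2 * p + 1 + r) := by rw [← hr]; ring
          calc a * (π ^ n * X') ^ 2 = a * X' ^ 2 * (π ^ n * π ^ n) := by ring
            _ = _ := by rw [this]; ring
        rw [← h1, e1, e2, e3]
        ring
      have h3 := (mul_eq_zero.mp h2).resolve_left (hπ0 _)
      exact ⟨-(π ^ (r + e) * (g' * Y' * Z') + π ^ r * (a * X' ^ 2)), by linear_combination h3⟩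
    · exact ⟨n - p, by omega⟩
    · exfalso
      apply haX
      obtain ⟨r, hr⟩ : ∃ r, e + 2 * p = 2 * n + 1 + r := ⟨e + 2 * p - (2 * n + 1), by omega⟩
      have h2 : π ^ (2 * n) * (π * (π ^ r * (g' * P' ^ 2) + π ^ e' * (g' * Y' * Z')) + a * X' ^ 2) = 0 := by
        have e1 : g * P ^ 2 = π ^ (2 * n) * (π * (π ^ r * (g' * P' ^ 2))) := by
          have : π ^ e * (π ^ p) ^ 2 = π ^ (2 * n + 1 + r) := by rw [← hr]; ring
          calc g * P ^ 2 = (π ^ e * (π ^ p) ^ 2) * (g' * P' ^ 2) := by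
                conv_lhs => rw [hg', hP']
                ring
            _ = _ := by rw [this]; ring
        have e2 : g * (π ^ n * Y' * (π ^ n * Z')) = π ^ (2 * n) * (π * (π ^ e' * (g' * Y' * Z'))) := by
          conv_lhs => rw [hg', he', pow_succ]
          ring
        have e3 : a * (π ^ n * X') ^ 2 = π ^ (2 * n) * (a * X' ^ 2) := by ring
        rw [← h1, e1, e2, e3]
        ring
      have h3 := (mul_eq_zero.mp h2).resolve_left (hπ0 _)
      exact ⟨-(π ^ r * (g' * P' ^ 2) + π ^ e' * (g' * Y' * Z')), by linear_combination h3⟩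

/-- Parity of the multiplicity of a prime `π` in `g` when the three conics of the first family
have a common nontrivial solution. -/
theorem even_mult {R : Type} [CommRing R] [IsDomain R] [WfDvdMonoid R] {π : R} (hπ : Prime π)
    (g a b c X Y Z P Q S : R) (ha : ¬ π ∣ a) (hb : ¬ π ∣ b) (hc : ¬ π ∣ c)
    (h0 : ¬ (X = 0 ∧ Y = 0 ∧ Z = 0)) (hg : π ∣ g) (hg0 : g ≠ 0)
    (h1 : g * P ^ 2 + g * (Y * Z) + a * X ^ 2 = 0)
    (h2 : g * Q ^ 2 + g * (Z * X) + b * Y ^ 2 = 0)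
    (h3 : g * S ^ 2 + g * (X * Y) + c * Z ^ 2 = 0) :
    Even (multiplicity π g) := by
  classical
  have hex : ∃ n : ℕ, ¬ (π ^ (n + 1) ∣ X ∧ π ^ (n + 1) ∣ Y ∧ π ^ (n + 1) ∣ Z) := by
    by_cases hX : X = 0
    · by_cases hY : Y = 0
      · have hZ : Z ≠ 0 := fun hZ => h0 ⟨hX, hY, hZ⟩
        obtain ⟨n, hn⟩ := FiniteMultiplicity.of_prime_left hπ hZ
        exact ⟨n, fun h => hn h.2.2⟩
      · obtain ⟨n, hn⟩ := FiniteMultiplicity.of_prime_left hπ hY
        exact ⟨n, fun h => hn h.2.1⟩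
    · obtain ⟨n, hn⟩ := FiniteMultiplicity.of_prime_left hπ hX
      exact ⟨n, fun h => hn h.1⟩
  set n := Nat.find hex with hn
  have hn1 : ¬ (π ^ (n + 1) ∣ X ∧ π ^ (n + 1) ∣ Y ∧ π ^ (n + 1) ∣ Z) := Nat.find_spec hex
  have hn2 : π ^ n ∣ X ∧ π ^ n ∣ Y ∧ π ^ n ∣ Z := by
    rcases Nat.eq_zero_or_pos n with h | h
    · rw [h, pow_zero]
      exact ⟨one_dvd _, one_dvd _, one_dvd _⟩
    · have h4 := Nat.find_min hex (m := n - 1) (by omega)
      rw [not_not] at h4
      have h5 : n - 1 + 1 = n := by omega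
      rw [h5] at h4
      exact h4
  by_cases hX : π ^ (n + 1) ∣ X
  · by_cases hY : π ^ (n + 1) ∣ Y
    · have hZ : ¬ π ^ (n + 1) ∣ Z := fun hZ => hn1 ⟨hX, hY, hZ⟩
      exact even_mult_core hπ g c Z X Y S n hc hg hg0 h3 hn2.2.2 hn2.1 hn2.2.1 hZ
    · exact even_mult_core hπ g b Y Z X Q n hb hg hg0 h2 hn2.2.1 hn2.2.2 hn2.1 hY
  · exact even_mult_core hπ g a X Y Z P n ha hg hg0 h1 hn2.1 hn2.2.1 hn2.2.2 hX

/-- In a UFD, an element in which every prime has even multiplicity is a unit times a square. -/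
theorem unit_mul_sq {R : Type} [CommRing R] [IsDomain R] [UniqueFactorizationMonoid R] (a : R)
    (ha : a ≠ 0) (h : ∀ π : R, Prime π → π ∣ a → Even (multiplicity π a)) :
    ∃ (u : Rˣ) (x : R), a = u * x ^ 2 := by
  revert ha h
  refine UniqueFactorizationMonoid.induction_on_coprime (P := fun a : R => a ≠ 0 →
    (∀ π : R, Prime π → π ∣ a → Even (multiplicity π a)) → ∃ (u : Rˣ) (x : R), a = u * x ^ 2)
    a ?_ ?_ ?_ ?_
  · intro h0
    exact absurd rfl h0
  · rintro x ⟨u, rfl⟩ _ _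
    exact ⟨u, 1, by simp⟩
  · intro p i hp _ hev
    rcases Nat.eq_zero_or_pos i with hi | hi
    · exact ⟨1, 1, by simp [hi]⟩
    · obtain ⟨k, hk⟩ := hev p hp (dvd_pow_self p hi.ne')
      rw [multiplicity_pow_self_of_prime hp] at hk
      exact ⟨1, p ^ k, by rw [hk]; simp; ring⟩
  · intro x y hxy hx hy hne hev
    have hx0 : x ≠ 0 := left_ne_zero_of_mul hne
    have hy0 : y ≠ 0 := right_ne_zero_of_mul hne
    obtain ⟨u, x', hx'⟩ := hx hx0 (by
      intro π hπ hd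
      have h1 := hev π hπ (Dvd.dvd.mul_right hd y)
      have hnd : ¬ π ∣ y := fun hd' => hπ.not_isUnit (hxy hd hd')
      rwa [multiplicity_mul hπ (FiniteMultiplicity.of_prime_left hπ hne),
        multiplicity_eq_zero.mpr hnd, add_zero] at h1)
    obtain ⟨v, y', hy'⟩ := hy hy0 (by
      intro π hπ hd
      have h1 := hev π hπ (Dvd.dvd.mul_left hd x)
      have hnd : ¬ π ∣ x := fun hd' => hπ.not_isUnit (hxy hd' hd)
      rwa [multiplicity_mul hπ (FiniteMultiplicity.of_prime_left hπ hne),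
        multiplicity_eq_zero.mpr hnd, zero_add] at h1)
    refine ⟨u * v, x' * y', ?_⟩
    rw [hx', hy', Units.val_mul]
    ring

end Pool.Agent.Helper553.Uni
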